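import Mathlib

set_option autoImplicit false

namespace Pool.Agent.Lib.MP_2d3c11_ag

/-- The data of the roots of `(V^p - z^N) (e V - (e-1)) - V^e` in a field `L` of
characteristic `p`. -/
structure RootData (p e N : ℕ) (L : Type*) [Field L] [DecidableEq L] (z : L) (R : Finset L) :
    Prop where
  prime : p.Prime
  char : CharP L p
  e3 : 3 ≤ e
  ep : e < p
  N0 : 0 < N
  z0 : z ≠ 0
  card : R.card = p + 1
  factor : ∀ c : L, (c ^ p - z ^ N) * (e * c - (e - 1)) - c ^ e = e * ∏ r ∈ R, (c - r)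
  deriv : ∀ r ∈ R, (e * ∏ s ∈ R.erase r, (r - s)) * (e * r - (e - 1)) =
    - (e * (e - 1)) * r ^ (e - 1) * (r - 1)

end Pool.Agent.Lib.MP_2d3c11_ag
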