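import Mathlib
import Pool.Agent.Lib.MP_2d3c11_ag.RootData

set_option autoImplicit false

/-!
Job G: the places above infinity.
-/

namespace Pool.Agent.Lib.MP_2d3c11_ag

namespace InfPlace

variable {L : Type*} [Field L] {Γ : Type*} [LinearOrderedCommGroupWithZero Γ] (w : Valuation L Γ)

lemma cong_add {a b c d : L} (h : w (a - b) < 1) (h' : w (c - d) < 1) :
    w ((a + c) - (b + d)) < 1 := by
  have : (a + c) - (b + d) = (a - b) + (c - d) := by ring
  rw [this]
  exact lt_of_le_of_lt (w.map_add _ _) (max_lt h h')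

lemma cong_sub {a b c d : L} (h : w (a - b) < 1) (h' : w (c - d) < 1) :
    w ((a - c) - (b - d)) < 1 := by
  have : (a - c) - (b - d) = (a - b) - (c - d) := by ring
  rw [this]
  exact lt_of_le_of_lt (w.map_sub _ _) (max_lt h h')

lemma cong_trans {a b c : L} (h : w (a - b) < 1) (h' : w (b - c) < 1) : w (a - c) < 1 := by
  have : a - c = (a - b) + (b - c) := by ring
  rw [this]
  exact lt_of_le_of_lt (w.map_add _ _) (max_lt h h')

lemma cong_symm {a b : L} (h : w (a - b) < 1) : w (b - a) < 1 := by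
  rwa [Valuation.map_sub_swap]

lemma cong_mul {a b c d : L} (ha : w a ≤ 1) (hd : w d ≤ 1) (h : w (a - b) < 1)
    (h' : w (c - d) < 1) : w (a * c - b * d) < 1 := by
  have : a * c - b * d = a * (c - d) + (a - b) * d := by ring
  rw [this]
  refine lt_of_le_of_lt (w.map_add _ _) (max_lt ?_ ?_)
  · rw [map_mul]
    exact lt_of_le_of_lt (mul_le_mul_left ha _ |>.trans_eq (one_mul _)) h'
  · rw [map_mul]
    exact lt_of_le_of_lt (mul_le_mul_right hd _ |>.trans_eq (mul_one _)) h

lemma le_one_of_cong {a b : L} (hb : w b ≤ 1) (h : w (a - b) < 1) : w a ≤ 1 := by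
  have : a = (a - b) + b := by ring
  rw [this]
  exact (w.map_add _ _).trans (max_le h.le hb)

lemma eq_one_of_cong {a b : L} (hb : w b = 1) (h : w (a - b) < 1) : w a = 1 := by
  rw [← hb]
  exact w.map_eq_of_sub_lt (by rwa [hb])

lemma cong_pow {a b : L} (ha : w a ≤ 1) (hb : w b ≤ 1) (h : w (a - b) < 1) (n : ℕ) :
    w (a ^ n - b ^ n) < 1 := by
  induction n with
  | zero => simp
  | succ n ih =>
    rw [pow_succ, pow_succ]
    refine cong_mul w ?_ hb ih h
    rw [map_pow]
    exact pow_le_one₀ zero_le ha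

lemma cong_sum {ι : Type*} (s : Finset ι) (f g : ι → L) (h : ∀ i ∈ s, w (f i - g i) < 1) :
    w (∑ i ∈ s, f i - ∑ i ∈ s, g i) < 1 := by
  rw [← Finset.sum_sub_distrib]
  exact w.map_sum_lt one_ne_zero h


/-- the embedding of the prime field -/
noncomputable abbrev io (p : ℕ) (L : Type*) [Field L] [CharP L p] : ZMod p →+* L :=
  ZMod.castHom (dvd_refl p) L

lemma val_io {p : ℕ} [hp : Fact p.Prime] [CharP L p] {c : ZMod p} (hc : c ≠ 0) :
    w (io p L c) = 1 := by
  have h1 : (io p L c) ^ (p - 1) = 1 := by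
    rw [← map_pow, ZMod.pow_card_sub_one_eq_one hc, map_one]
  have h2 : (w (io p L c)) ^ (p - 1) = 1 := by
    rw [← map_pow, h1, map_one]
  have h3 : p - 1 ≠ 0 := by
    have := hp.out.two_le
    omega
  exact (pow_eq_one_iff_left h3).1 h2

lemma val_io_le {p : ℕ} [hp : Fact p.Prime] [CharP L p] (c : ZMod p) : w (io p L c) ≤ 1 := by
  by_cases hc : c = 0
  · rw [hc, map_zero, map_zero]; exact zero_le
  · exact (val_io w hc).le

lemma io_inj {p : ℕ} [hp : Fact p.Prime] [CharP L p] {c d : ZMod p}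
    (h : w (io p L c - io p L d) < 1) : c = d := by
  by_contra hcd
  rw [← map_sub] at h
  exact absurd (val_io w (sub_ne_zero.2 hcd)) h.ne

lemma val_natCast {p : ℕ} [hp : Fact p.Prime] [CharP L p] {n : ℕ} (hn : ¬ p ∣ n) :
    w (n : L) = 1 := by
  have h1 : (n : L) = io p L (n : ZMod p) := by simp
  rw [h1]
  apply val_io
  rwa [Ne, ZMod.natCast_eq_zero_iff]

lemma prod_io {p : ℕ} [hp : Fact p.Prime] [CharP L p] (θ : L) :
    ∏ c : ZMod p, (θ - io p L c) = θ ^ p - θ := by
  have hp1 : 1 < p := hp.out.one_lt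
  have hroots := FiniteField.roots_X_pow_card_sub_X (ZMod p)
  rw [ZMod.card] at hroots
  have hdeg := FiniteField.X_pow_card_sub_X_natDegree_eq (ZMod p) hp1
  have hmonic : (Polynomial.X ^ p - Polynomial.X : Polynomial (ZMod p)).Monic := by
    apply Polynomial.monic_X_pow_sub
    rw [Polynomial.degree_X]
    exact_mod_cast hp1
  have h1 := Polynomial.prod_multiset_X_sub_C_of_monic_of_roots_card_eq hmonic (by
    rw [hroots, hdeg]
    simp [ZMod.card])
  rw [hroots] at h1
  have h2 := congrArg (Polynomial.eval₂ (io p L) θ) h1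
  rw [Polynomial.eval₂_sub, Polynomial.eval₂_pow, Polynomial.eval₂_X] at h2
  rw [← h2]
  have h3 : (Multiset.map (fun a : ZMod p => Polynomial.X - Polynomial.C a)
      (Finset.univ : Finset (ZMod p)).val).prod = ∏ a : ZMod p, (Polynomial.X - Polynomial.C a) := rfl
  rw [h3, Polynomial.eval₂_finsetProd]
  apply Finset.prod_congr rfl
  intro c _
  simp

/-- reduction to the prime field -/
lemma exists_label {p : ℕ} [hp : Fact p.Prime] [CharP L p] {θ : L} (h : w (θ ^ p - θ) < 1) :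
    ∃ c : ZMod p, w (θ - io p L c) < 1 := by
  by_contra hc
  push Not at hc
  rw [← prod_io, map_prod] at h
  exact absurd h (not_lt.2 (Finset.one_le_prod'' (fun c => hc c)))


variable {p e N : ℕ} [DecidableEq L] {z : L} {R : Finset L}

lemma root_eq (h : RootData p e N L z R) {r : L} (hr : r ∈ R) :
    (r ^ p - z ^ N) * (e * r - (e - 1)) = r ^ e := by
  have h1 := h.factor r
  rw [Finset.prod_eq_zero hr (sub_self r), mul_zero] at h1
  linear_combination h1

lemma val_e (h : RootData p e N L z R) : w (e : L) = 1 := by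
  have : Fact p.Prime := ⟨h.prime⟩
  have := h.char
  apply val_natCast (p := p)
  exact fun hd => absurd (Nat.le_of_dvd (by have := h.e3; omega) hd) (not_le.2 h.ep)

lemma val_e1 (h : RootData p e N L z R) : w ((e : L) - 1) = 1 := by
  have : Fact p.Prime := ⟨h.prime⟩
  have := h.char
  have h3 := h.e3
  have h1 : ((e : L) - 1) = ((e - 1 : ℕ) : L) := by
    rw [Nat.cast_sub (by omega), Nat.cast_one]
  rw [h1]
  apply val_natCast (p := p)
  exact fun hd => absurd (Nat.le_of_dvd (by omega) hd) (not_le.2 (by have := h.ep; omega))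

lemma one_lt_x (h : RootData p e N L z R) (hw : 1 < w z) : 1 < w (z ^ N) := by
  rw [map_pow]
  exact one_lt_pow₀ hw h.N0.ne'

/-- roots of value at most one have value exactly one -/
lemma small (h : RootData p e N L z R) (hw : 1 < w z) {r : L} (hr : r ∈ R) (hr1 : w r ≤ 1) :
    w r = 1 := by
  have hx := one_lt_x w h hw
  have h1 := congrArg w (root_eq h hr)
  rw [map_mul, map_pow] at h1
  have h2 : w (r ^ p - z ^ N) = w (z ^ N) := by
    apply w.map_sub_eq_of_lt_right
    rw [map_pow]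
    exact lt_of_le_of_lt (pow_le_one₀ zero_le hr1) hx
  rw [h2] at h1
  have h3 : w (e * r - (e - 1)) < 1 := by
    by_contra hc
    rw [not_lt] at hc
    have h4 : 1 < w (z ^ N) * w (e * r - (e - 1)) := by
      calc (1 : Γ) < w (z ^ N) := hx
        _ = w (z ^ N) * 1 := (mul_one _).symm
        _ ≤ w (z ^ N) * w (e * r - (e - 1)) := mul_le_mul_right hc _
    rw [h1] at h4
    exact absurd (pow_le_one₀ zero_le hr1) (not_le.2 h4)
  have h5 : w (e * r) = 1 := eq_one_of_cong w (val_e1 w h) h3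
  rwa [map_mul, val_e w h, one_mul] at h5

/-- roots of value greater than one -/
lemma large (h : RootData p e N L z R) (hw : 1 < w z) {r : L} (hr : r ∈ R) (hr1 : 1 < w r) :
    w (e * r - (e - 1)) = w r ∧ w (r ^ p - z ^ N) = w r ^ (e - 1) ∧ w r ^ p = w z ^ N := by
  have h3 := h.e3
  have hep := h.ep
  have hr0 : w r ≠ 0 := (zero_lt_one.trans hr1).ne'
  have h1 := congrArg w (root_eq h hr)
  rw [map_mul, map_pow] at h1
  have h2 : w (e * r - (e - 1)) = w r := by
    have : w (e * r) = w r := by rw [map_mul, val_e w h, one_mul]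
    rw [← this]
    apply w.map_sub_eq_of_lt_left
    rw [this, val_e1 w h]
    exact hr1
  rw [h2] at h1
  have h4 : w (r ^ p - z ^ N) = w r ^ (e - 1) := by
    have h5 : w r ^ e = w r ^ (e - 1) * w r := by
      rw [← pow_succ]; congr 1; omega
    rw [h5] at h1
    exact mul_right_cancel₀ hr0 h1
  refine ⟨h2, h4, ?_⟩
  rw [← map_pow, ← map_pow]
  symm
  apply w.map_eq_of_sub_lt
  rw [Valuation.map_sub_swap, h4, map_pow]
  exact pow_lt_pow_right₀ hr1 (by omega)

lemma pow_inj_right {a : Γ} (ha : 1 < a) {m n : ℕ} (h : a ^ m = a ^ n) : m = n := by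
  rcases lt_trichotomy m n with h1 | h1 | h1
  · exact absurd h (pow_lt_pow_right₀ ha h1).ne
  · exact h1
  · exact absurd h (pow_lt_pow_right₀ ha h1).ne'

lemma card_large (h : RootData p e N L z R) (hw : 1 < w z) :
    (R.filter (fun r => 1 < w r)).card = p := by
  have hx := one_lt_x w h hw
  have h3 := h.e3
  have h0 := h.factor 0
  have hp0 : p ≠ 0 := h.prime.ne_zero
  rw [zero_pow hp0, zero_pow (show e ≠ 0 by omega)] at h0
  have h1 := congrArg w h0
  have h2 : (0 - z ^ N) * (e * 0 - ((e : L) - 1)) - 0 = z ^ N * ((e : L) - 1) := by ring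
  rw [h2, map_mul, val_e1 w h, mul_one, map_mul, val_e w h, one_mul, map_prod] at h1
  have h4 : ∏ r ∈ R, w (0 - r) = ∏ r ∈ R.filter (fun r => 1 < w r), w r := by
    rw [Finset.prod_filter]
    apply Finset.prod_congr rfl
    intro r hr
    rw [zero_sub, Valuation.map_neg]
    split_ifs with hc
    · rfl
    · exact small w h hw hr (not_lt.1 hc)
  rw [h4] at h1
  have h5 : w (z ^ N) ^ p = (∏ r ∈ R.filter (fun r => 1 < w r), w r) ^ p := by rw [h1]
  rw [← Finset.prod_pow] at h5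
  have h6 : ∏ r ∈ R.filter (fun r => 1 < w r), w r ^ p =
      ∏ r ∈ R.filter (fun r => 1 < w r), w (z ^ N) := by
    apply Finset.prod_congr rfl
    intro r hr
    rw [Finset.mem_filter] at hr
    rw [(large w h hw hr.1 hr.2).2.2, map_pow]
  rw [h6, Finset.prod_const] at h5
  exact (pow_inj_right hx h5).symm

lemma val_eq (h : RootData p e N L z R) (hw : 1 < w z) {r s : L} (hr : r ∈ R) (hr1 : 1 < w r)
    (hs : s ∈ R) (hs1 : 1 < w s) : w r = w s := by
  have h1 := (large w h hw hr hr1).2.2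
  have h2 := (large w h hw hs hs1).2.2
  exact (pow_left_inj h.prime.ne_zero).1 (h1.trans h2.symm)

/-- two large roots are close -/
lemma val_sub_lt (h : RootData p e N L z R) (hw : 1 < w z) {r s : L} (hr : r ∈ R) (hr1 : 1 < w r)
    (hs : s ∈ R) (hs1 : 1 < w s) : w (r - s) < w r := by
  have : Fact p.Prime := ⟨h.prime⟩
  have := h.char
  have hep := h.ep
  have h1 := (large w h hw hr hr1).2.1
  have h2 := (large w h hw hs hs1).2.1
  have hv := val_eq w h hw hr hr1 hs hs1
  have h3 : (r - s) ^ p = (r ^ p - z ^ N) - (s ^ p - z ^ N) := by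
    rw [sub_pow_char]; ring
  have h4 : w (r - s) ^ p < w r ^ p := by
    rw [← map_pow, h3]
    refine lt_of_le_of_lt (w.map_sub _ _) ?_
    rw [h1, h2, hv, max_self]
    exact pow_lt_pow_right₀ hs1 (by omega)
  exact lt_of_pow_lt_pow_left' p h4


/-- the key identity and its consequences for two distinct large roots -/
lemma diff_large (h : RootData p e N L z R) (hw : 1 < w z) {r s : L} (hr : r ∈ R) (hr1 : 1 < w r)
    (hs : s ∈ R) (hs1 : 1 < w s) (hrs : r ≠ s) :
    w (r - s) ^ (p - 1) = w r ^ (e - 2) ∧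
    w ((r - s) ^ (p - 1) * e - (e - 1) * r ^ (e - 2)) < w r ^ (e - 2) := by
  have : Fact p.Prime := ⟨h.prime⟩
  have := h.char
  have he3 := h.e3
  have hep := h.ep
  have hwr0 : w r ≠ 0 := (zero_lt_one.trans hr1).ne'
  have hr0 : r ≠ 0 := fun h0 => hwr0 (by rw [h0, map_zero])
  obtain ⟨θ, hθ⟩ : ∃ θ, θ = s / r := ⟨_, rfl⟩
  obtain ⟨ρ, hρ⟩ : ∃ ρ, ρ = r⁻¹ := ⟨_, rfl⟩
  have hsθ : s = θ * r := by rw [hθ]; field_simp
  have hrρ : ρ * r = 1 := by rw [hρ]; exact inv_mul_cancel₀ hr0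
  obtain ⟨G1, hG1⟩ : ∃ G1, G1 = ∑ i ∈ Finset.range (e - 1), θ ^ i := ⟨_, rfl⟩
  obtain ⟨G2, hG2⟩ : ∃ G2, G2 = ∑ i ∈ Finset.range e, θ ^ i := ⟨_, rfl⟩
  have geom1 : (1 - θ) * G1 = 1 - θ ^ (e - 1) := by
    have := geom_sum_mul θ (e - 1)
    rw [hG1]
    linear_combination -this
  have geom2 : (1 - θ) * G2 = 1 - θ ^ e := by
    have := geom_sum_mul θ e
    rw [hG2]
    linear_combination -this
  have hθe : θ ^ e = θ ^ (e - 1) * θ := by rw [← pow_succ]; congr 1; omega
  have hrs0 : r - s ≠ 0 := sub_ne_zero.2 hrs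
  have h1θ : (1 - θ) ≠ 0 := by
    intro h0
    apply hrs0
    rw [hsθ]
    linear_combination r * h0
  -- identity
  have hA := root_eq h hr
  have hB := root_eq h hs
  have hchar : (r - s) ^ p = r ^ p - s ^ p := sub_pow_char r s
  have hp1 : (r - s) ^ p = (r - s) ^ (p - 1) * (r - s) := by
    rw [← pow_succ]; congr 1; omega
  have hre : r ^ e = r ^ (e - 2) * r ^ 2 := by rw [← pow_add]; congr 1; omega
  have hse : s ^ e = θ ^ e * r ^ e := by rw [hsθ, mul_pow]
  have hid0 : (r - s) ^ p * ((e * r - (e - 1)) * (e * s - (e - 1))) =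
      r ^ e * (e * s - (e - 1)) - s ^ e * (e * r - (e - 1)) := by
    rw [hchar]
    linear_combination (e * s - (e - 1)) * hA - (e * r - (e - 1)) * hB
  have hlr : (e * r - (e - 1) : L) = r * (e - (e - 1) * ρ) := by
    linear_combination (e - 1) * hrρ
  have hls : (e * s - (e - 1) : L) = r * (e * θ - (e - 1) * ρ) := by
    rw [hsθ]
    linear_combination (e - 1) * hrρ
  have hrs' : r - s = r * (1 - θ) := by rw [hsθ]; ring
  have hid : (r - s) ^ (p - 1) * ((e - (e - 1) * ρ) * (e * θ - (e - 1) * ρ)) =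
      r ^ (e - 2) * (e * θ * G1 - (e - 1) * ρ * G2) := by
    have h3 : r ^ 3 * (1 - θ) ≠ 0 := mul_ne_zero (pow_ne_zero _ hr0) h1θ
    apply mul_left_cancel₀ h3
    rw [hp1, hse, hre, hlr, hls] at hid0
    calc r ^ 3 * (1 - θ) * ((r - s) ^ (p - 1) * ((e - (e - 1) * ρ) * (e * θ - (e - 1) * ρ)))
        = (r - s) ^ (p - 1) * (r * (1 - θ)) *
          (r * (e - (e - 1) * ρ) * (r * (e * θ - (e - 1) * ρ))) := by ring
      _ = (r - s) ^ (p - 1) * (r - s) *
          (r * (e - (e - 1) * ρ) * (r * (e * θ - (e - 1) * ρ))) := by rw [← hrs']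
      _ = r ^ (e - 2) * r ^ 2 * (r * (e * θ - (e - 1) * ρ)) -
          θ ^ e * (r ^ (e - 2) * r ^ 2) * (r * (e - (e - 1) * ρ)) := hid0
      _ = r ^ 3 * r ^ (e - 2) * (e * θ * (1 - θ ^ (e - 1)) - (e - 1) * ρ * (1 - θ ^ e)) := by
          rw [hθe]; ring
      _ = r ^ 3 * (1 - θ) * (r ^ (e - 2) * (e * θ * G1 - (e - 1) * ρ * G2)) := by
          rw [← geom1, ← geom2]; ring
  -- congruences
  have hθ1 : w (θ - 1) < 1 := by
    have h1 : θ - 1 = -((r - s) / r) := by rw [hθ]; field_simp; ring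
    rw [h1, Valuation.map_neg, map_div₀]
    have := val_sub_lt w h hw hr hr1 hs hs1
    rw [div_lt_one₀ (zero_lt_one.trans hr1)]
    exact this
  have hθle : w θ ≤ 1 := le_one_of_cong w (by rw [map_one]) hθ1
  have hρ1 : w ρ < 1 := by
    rw [hρ, map_inv₀]
    exact inv_lt_one_of_one_lt₀ hr1
  have hρ0 : w (ρ - 0) < 1 := by rwa [sub_zero]
  have hwe := val_e w h
  have hwe1 := val_e1 w h
  have hGn : ∀ n : ℕ, w (∑ i ∈ Finset.range n, θ ^ i - (n : L)) < 1 := by
    intro n
    have h1 : (n : L) = ∑ i ∈ Finset.range n, (1 : L) := by simp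
    rw [h1]
    apply cong_sum
    intro i _
    have := cong_pow w hθle (by rw [map_one]) hθ1 i
    rwa [one_pow] at this
  have hcast : ((e - 1 : ℕ) : L) = (e : L) - 1 := by
    rw [Nat.cast_sub (by omega), Nat.cast_one]
  have hG1c : w (G1 - (e - 1)) < 1 := by rw [hG1, ← hcast]; exact hGn _
  have hG2c : w (G2 - e) < 1 := by rw [hG2]; exact hGn _
  have hee : w ((e : L) - e) < 1 := by rw [sub_self, map_zero]; exact zero_lt_one
  have hee1 : w (((e : L) - 1) - (e - 1)) < 1 := by rw [sub_self, map_zero]; exact zero_lt_one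
  have hG1le : w G1 ≤ 1 := le_one_of_cong w hwe1.le hG1c
  have hG2le : w G2 ≤ 1 := le_one_of_cong w hwe.le hG2c
  have hz : w ((e - 1 : L) * ρ - 0) < 1 := by
    rw [sub_zero, map_mul, hwe1, one_mul]; exact hρ1
  have hl1 : w ((e - (e - 1) * ρ) - e) < 1 := by
    have := cong_sub w hee hz
    rwa [sub_zero] at this
  have heθ : w (e * θ - e) < 1 := by
    have := cong_mul w hwe.le (by rw [map_one] : w (1 : L) ≤ 1) hee hθ1
    rwa [mul_one] at this
  have hl2 : w ((e * θ - (e - 1) * ρ) - e) < 1 := by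
    have := cong_sub w heθ hz
    rwa [sub_zero] at this
  have hl12 : w ((e - (e - 1) * ρ) * (e * θ - (e - 1) * ρ) - e * e) < 1 :=
    cong_mul w (le_one_of_cong w hwe.le hl1) hwe.le hl1 hl2
  have hBc : w ((e * θ * G1 - (e - 1) * ρ * G2) - e * (e - 1)) < 1 := by
    have h1 : w (e * θ * G1 - e * (e - 1)) < 1 :=
      cong_mul w (le_one_of_cong w hwe.le heθ) hwe1.le heθ hG1c
    have h2 : w ((e - 1) * ρ * G2 - 0) < 1 := by
      rw [sub_zero] at hz
      rw [sub_zero, map_mul]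
      exact lt_of_le_of_lt (mul_le_mul_right hG2le _ |>.trans_eq (mul_one _)) hz
    have := cong_sub w h1 h2
    rwa [sub_zero] at this
  have hl12v : w ((e - (e - 1) * ρ) * (e * θ - (e - 1) * ρ)) = 1 :=
    eq_one_of_cong w (by rw [map_mul, hwe, one_mul]) hl12
  have hBv : w (e * θ * G1 - (e - 1) * ρ * G2) = 1 :=
    eq_one_of_cong w (by rw [map_mul, hwe, hwe1, one_mul]) hBc
  have hv : w (r - s) ^ (p - 1) = w r ^ (e - 2) := by
    have h1 := congrArg w hid
    rw [map_mul, map_mul w (r ^ (e - 2)), hl12v, hBv, mul_one, mul_one, map_pow, map_pow] at h1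
    exact h1
  refine ⟨hv, ?_⟩
  -- the leading coefficient
  have hpos : 0 < w r ^ (e - 2) := zero_lt_iff.2 (pow_ne_zero _ hwr0)
  have h1 : w (((r - s) ^ (p - 1) * e - (e - 1) * r ^ (e - 2)) * e) < w r ^ (e - 2) := by
    have h2 : ((r - s) ^ (p - 1) * e - (e - 1) * r ^ (e - 2)) * e =
        r ^ (e - 2) * ((e * θ * G1 - (e - 1) * ρ * G2) - e * (e - 1)) -
        (r - s) ^ (p - 1) * ((e - (e - 1) * ρ) * (e * θ - (e - 1) * ρ) - e * e) := by
      linear_combination hid
    rw [h2]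
    refine lt_of_le_of_lt (w.map_sub _ _) (max_lt ?_ ?_)
    · rw [map_mul, map_pow]
      calc w r ^ (e - 2) * _ < w r ^ (e - 2) * 1 := (mul_lt_mul_iff_right₀ hpos).2 hBc
        _ = _ := mul_one _
    · rw [map_mul, map_pow, hv]
      calc w r ^ (e - 2) * _ < w r ^ (e - 2) * 1 := (mul_lt_mul_iff_right₀ hpos).2 hl12
        _ = _ := mul_one _
  rwa [map_mul, hwe, mul_one] at h1

end InfPlace

open InfPlace

variable {p e N : ℕ} {L : Type*} [Field L] [DecidableEq L] {z : L} {R : Finset L}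
variable {Γ : Type*} [LinearOrderedCommGroupWithZero Γ] (w : Valuation L Γ)

/-- (C1) at infinity -/
theorem RootData.inf_place (h : RootData p e N L z R) (hw : 1 < w z) :
    (∃ r₀ ∈ R, w r₀ ≤ 1 ∧ ∀ r ∈ R, r ≠ r₀ → 1 < w r ∧ w r ^ p = w z ^ N) ∧
    (∀ r ∈ R, ∀ s ∈ R, 1 < w r → 1 < w s → r ≠ s →
      w ((r - s) ^ (p - 1) * e - (e - 1) * r ^ (e - 2)) < w r ^ (e - 2) ∧
      w (r - s) ^ (p * (p - 1)) = w z ^ (N * (e - 2))) := by
  constructor
  · have h1 := card_large w h hw
    have h2 : (R.filter (fun r => ¬ 1 < w r)).card = 1 := by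
      have h3 := Finset.card_filter_add_card_filter_not (s := R) (fun r => 1 < w r)
      rw [h1, h.card] at h3
      omega
    obtain ⟨r₀, h0⟩ := Finset.card_eq_one.1 h2
    have h4 : r₀ ∈ R.filter (fun r => ¬ 1 < w r) := by rw [h0]; exact Finset.mem_singleton_self _
    rw [Finset.mem_filter, not_lt] at h4
    refine ⟨r₀, h4.1, h4.2, fun r hr hne => ?_⟩
    have h5 : 1 < w r := by
      by_contra hc
      have h6 : r ∈ R.filter (fun r => ¬ 1 < w r) := Finset.mem_filter.2 ⟨hr, hc⟩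
      rw [h0, Finset.mem_singleton] at h6
      exact hne h6
    exact ⟨h5, (large w h hw hr h5).2.2⟩
  · intro r hr s hs hr1 hs1 hrs
    have h1 := diff_large w h hw hr hr1 hs hs1 hrs
    refine ⟨h1.2, ?_⟩
    rw [mul_comm p, pow_mul, h1.1, ← pow_mul, mul_comm (e - 2), pow_mul,
      (large w h hw hr hr1).2.2, ← pow_mul]


/-- (C2) labels and the affine action -/
theorem RootData.inf_model (h : RootData p e N L z R) (hw : 1 < w z) (m q : ℕ)
    (hq : N * (e - 2) * m = q * (p - 1)) :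
    ∃ β : R ≃ Option (ZMod p), ∀ σ : L ≃+* L, σ z = z → (hσR : ∀ r ∈ R, σ r ∈ R) →
      (∀ a : L, w a ≤ 1 → w (σ a - a) < 1) →
        ∃ a b : ZMod p, a ^ m = 1 ∧ ∀ r : R, β ⟨σ r, hσR r r.2⟩ = (β r).map (fun u => a * u + b) := by
  have : Fact p.Prime := ⟨h.prime⟩
  have := h.char
  have hp2 := h.prime.two_le
  have he3 := h.e3
  have hep := h.ep
  have hcard := card_large w h hw
  -- two distinct large roots
  obtain ⟨r1, hr1, r2, hr2, h12⟩ := Finset.one_lt_card.1 (by rw [hcard]; omega :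
    1 < (R.filter (fun r => 1 < w r)).card)
  rw [Finset.mem_filter] at hr1 hr2
  obtain ⟨D, hD⟩ : ∃ D, D = r2 - r1 := ⟨_, rfl⟩
  have hD0 : D ≠ 0 := by rw [hD]; exact sub_ne_zero.2 h12.symm
  have hp1 : p - 1 ≠ 0 := by omega
  have hpp1 : p * (p - 1) ≠ 0 := mul_ne_zero (by omega) hp1
  -- differences of large roots
  have hdiff : ∀ r s, r ∈ R → s ∈ R → 1 < w r → 1 < w s → r ≠ s → w (r - s) = w D := by
    intro r s hr hs h1 h2 hrs
    have h3 := ((h.inf_place w hw).2 r hr s hs h1 h2 hrs).2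
    have h4 := ((h.inf_place w hw).2 r2 hr2.1 r1 hr1.1 hr2.2 hr1.2 h12.symm).2
    rw [hD]
    exact (pow_left_inj hpp1).1 (h3.trans h4.symm)
  have hwD : w D ≠ 0 := (Valuation.ne_zero_iff w).2 hD0
  -- theta
  have hθ1 : ∀ r s, r ∈ R → s ∈ R → 1 < w r → 1 < w s → r ≠ s → w ((r - s) / D) = 1 := by
    intro r s hr hs h1 h2 hrs
    rw [map_div₀, hdiff r s hr hs h1 h2 hrs, div_self hwD]
  have hlabel : ∀ r, r ∈ R → 1 < w r → ∃ c : ZMod p, w ((r - r1) / D - io p L c) < 1 := by
    intro r hr h1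
    apply exists_label
    by_cases hrr : r = r1
    · rw [hrr, sub_self, zero_div, zero_pow h.prime.ne_zero, sub_self, map_zero]
      exact zero_lt_one
    · have e1 := (diff_large w h hw hr1.1 hr1.2 hr h1 (Ne.symm hrr)).2
      have e2 := diff_large w h hw hr1.1 hr1.2 hr2.1 hr2.2 h12
      have e3 : w ((r1 - r) ^ (p - 1) * e - (r1 - r2) ^ (p - 1) * e) < w r1 ^ (e - 2) := by
        have : (r1 - r) ^ (p - 1) * e - (r1 - r2) ^ (p - 1) * e =
          ((r1 - r) ^ (p - 1) * e - (e - 1) * r1 ^ (e - 2)) -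
          ((r1 - r2) ^ (p - 1) * e - (e - 1) * r1 ^ (e - 2)) := by ring
        rw [this]
        exact lt_of_le_of_lt (w.map_sub _ _) (max_lt e1 e2.2)
      rw [← e2.1, ← sub_mul, map_mul, val_e w h, mul_one] at e3
      have h12' : r1 - r2 ≠ 0 := sub_ne_zero.2 h12
      have hθ : (r - r1) / D = (r1 - r) / (r1 - r2) := by
        rw [hD, ← neg_sub r1 r, ← neg_sub r1 r2, neg_div_neg_eq]
      have hθv : w ((r1 - r) / (r1 - r2)) = 1 := by
        rw [← hθ]; exact hθ1 r r1 hr hr1.1 h1 hr1.2 hrr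
      have e4 : w (((r1 - r) / (r1 - r2)) ^ (p - 1) - 1) < 1 := by
        have : ((r1 - r) / (r1 - r2)) ^ (p - 1) - 1 =
          ((r1 - r) ^ (p - 1) - (r1 - r2) ^ (p - 1)) / (r1 - r2) ^ (p - 1) := by
          rw [div_pow, sub_div, div_self (pow_ne_zero _ h12')]
        rw [this, map_div₀, map_pow w (r1 - r2)]
        rw [div_lt_one₀ (zero_lt_iff.2 (pow_ne_zero _ ((Valuation.ne_zero_iff w).2 h12')))]
        exact e3
      have e5 : ((r1 - r) / (r1 - r2)) ^ p - (r1 - r) / (r1 - r2) =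
          ((r1 - r) / (r1 - r2)) * (((r1 - r) / (r1 - r2)) ^ (p - 1) - 1) := by
        have : ((r1 - r) / (r1 - r2)) ^ p =
            ((r1 - r) / (r1 - r2)) ^ (p - 1) * ((r1 - r) / (r1 - r2)) := by
          rw [← pow_succ]; congr 1; omega
        rw [this]; ring
      rw [hθ, e5, map_mul, hθv, one_mul]
      exact e4
  choose! lab hlab using hlabel
  -- the labelling
  let f : R → Option (ZMod p) := fun r => if 1 < w (r : L) then some (lab r) else none
  have hsmalluniq : ∀ r s, r ∈ R → s ∈ R → ¬ 1 < w r → ¬ 1 < w s → r = s := by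
    obtain ⟨r₀, hr₀, hr₀1, hr₀2⟩ := (h.inf_place w hw).1
    have h1 : ∀ r ∈ R, ¬ 1 < w r → r = r₀ := by
      intro r hr hr'
      by_contra hc
      exact hr' (hr₀2 r hr hc).1
    intro r s hr hs hr' hs'
    rw [h1 r hr hr', h1 s hs hs']
  have hlabinj : ∀ r s, r ∈ R → s ∈ R → 1 < w r → 1 < w s → lab r = lab s → r = s := by
    intro r s hr hs h1 h2 heq
    by_contra hrs
    have e1 := hlab r hr h1
    have e2 := hlab s hs h2
    rw [heq] at e1
    have e3 := cong_sub w e1 e2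
    have e4 : (r - r1) / D - (s - r1) / D - (io p L (lab s) - io p L (lab s)) = (r - s) / D := by
      field_simp; ring
    rw [e4, hθ1 r s hr hs h1 h2 hrs] at e3
    exact lt_irrefl _ e3
  have hfinj : Function.Injective f := by
    rintro ⟨r, hr⟩ ⟨s, hs⟩ hrs
    simp only [f] at hrs
    apply Subtype.ext
    by_cases h1 : 1 < w r <;> by_cases h2 : 1 < w s
    · rw [if_pos h1, if_pos h2, Option.some.injEq] at hrs
      exact hlabinj r s hr hs h1 h2 hrs
    · rw [if_pos h1, if_neg h2] at hrs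
      exact absurd hrs (by simp)
    · rw [if_neg h1, if_pos h2] at hrs
      exact absurd hrs (by simp)
    · exact hsmalluniq r s hr hs h1 h2
  have hfbij : Function.Bijective f := by
    rw [Fintype.bijective_iff_injective_and_card]
    refine ⟨hfinj, ?_⟩
    rw [Fintype.card_option, ZMod.card, Fintype.card_coe, h.card]
  refine ⟨Equiv.ofBijective f hfbij, ?_⟩
  intro σ hσz hσR hσ
  -- sigma and the valuation
  have hσle : ∀ a, w a ≤ 1 → w (σ a) ≤ 1 := fun a ha => le_one_of_cong w ha (hσ a ha)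
  have hσlt : ∀ a, 1 < w a → 1 < w (σ a) := by
    intro a ha
    have ha0 : a ≠ 0 := by
      rintro rfl
      rw [map_zero] at ha
      exact absurd ha (not_lt.2 zero_le)
    have h1 : w a⁻¹ < 1 := by rw [map_inv₀]; exact inv_lt_one_of_one_lt₀ ha
    have h2 := hσ a⁻¹ h1.le
    have h3 : w (σ a⁻¹) < 1 := by
      have : σ a⁻¹ = (σ a⁻¹ - a⁻¹) + a⁻¹ := by ring
      rw [this]
      exact lt_of_le_of_lt (w.map_add _ _) (max_lt h2 h1)
    rw [map_inv₀, map_inv₀] at h3
    have h4 : w (σ a) ≠ 0 := (Valuation.ne_zero_iff w).2 ((map_ne_zero σ).2 ha0)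
    exact (inv_lt_one₀ (zero_lt_iff.2 h4)).1 h3
  have hσ1 := hσlt r1 hr1.2
  have hσ2 := hσlt r2 hr2.2
  have hσ12 : σ r2 ≠ σ r1 := fun hc => h12 (σ.injective hc).symm
  have hσR1 := hσR r1 hr1.1
  have hσR2 := hσR r2 hr2.1
  obtain ⟨a, ha⟩ : ∃ a, a = lab (σ r2) - lab (σ r1) := ⟨_, rfl⟩
  have hac : w ((σ r2 - σ r1) / D - io p L a) < 1 := by
    have e1 := cong_sub w (hlab _ hσR2 hσ2) (hlab _ hσR1 hσ1)
    have e2 : (σ r2 - r1) / D - (σ r1 - r1) / D - (io p L (lab (σ r2)) - io p L (lab (σ r1))) =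
        (σ r2 - σ r1) / D - io p L a := by
      rw [ha, map_sub]
      field_simp
      ring
    rwa [e2] at e1
  have hac1 : w ((σ r2 - σ r1) / D) = 1 := hθ1 _ _ hσR2 hσR1 hσ2 hσ1 hσ12
  refine ⟨a, lab (σ r1), ?_, ?_⟩
  · -- a ^ m = 1
    have h4 := ((h.inf_place w hw).2 r2 hr2.1 r1 hr1.1 hr2.2 hr1.2 h12.symm).2
    rw [← hD] at h4
    have h5 : w D ^ (p * m) = w z ^ q := by
      apply (pow_left_inj hp1).1
      calc (w D ^ (p * m)) ^ (p - 1) = (w D ^ (p * (p - 1))) ^ m := by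
            rw [← pow_mul, ← pow_mul]; congr 1; ring
        _ = (w z ^ (N * (e - 2))) ^ m := by rw [h4]
        _ = (w z ^ q) ^ (p - 1) := by rw [← pow_mul, ← pow_mul, hq]
    obtain ⟨η, hη⟩ : ∃ η, η = D ^ (p * m) / z ^ q := ⟨_, rfl⟩
    have hz0 := h.z0
    have hwz0 : w z ≠ 0 := (Valuation.ne_zero_iff w).2 hz0
    have hηv : w η = 1 := by
      rw [hη, map_div₀, map_pow, map_pow, h5, div_self (pow_ne_zero _ hwz0)]
    have hση : σ η = η * ((σ r2 - σ r1) / D) ^ (p * m) := by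
      rw [hη, map_div₀, map_pow, map_pow, hσz, hD, map_sub]
      have : r2 - r1 ≠ 0 := sub_ne_zero.2 h12.symm
      have h9 : (σ r2 - σ r1) ^ (p * m) =
          (r2 - r1) ^ (p * m) * ((σ r2 - σ r1) / (r2 - r1)) ^ (p * m) := by
        rw [← mul_pow, mul_div_cancel₀ _ this]
      rw [h9]
      ring
    have h6 : w (((σ r2 - σ r1) / D) ^ (p * m) - 1) < 1 := by
      have h7 := hσ η hηv.le
      rw [hση] at h7
      have h8 : η * ((σ r2 - σ r1) / D) ^ (p * m) - η =
        η * (((σ r2 - σ r1) / D) ^ (p * m) - 1) := by ring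
      rwa [h8, map_mul, hηv, one_mul] at h7
    have h7 : w (io p L (a ^ (p * m)) - io p L 1) < 1 := by
      rw [map_pow, map_one]
      have h8 := cong_pow w hac1.le (val_io_le w a) hac (p * m)
      exact cong_trans w (cong_symm w h8) h6
    have h8 := io_inj w h7
    rw [mul_comm, pow_mul] at h8
    rw [ZMod.pow_card] at h8
    exact h8
  · rintro ⟨r, hr⟩
    simp only [Equiv.ofBijective_apply, f]
    by_cases h1 : 1 < w r
    · have h2 := hσlt r h1
      rw [if_pos h2, if_pos h1, Option.map_some, Option.some.injEq]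
      apply io_inj w
      have e1 := hlab _ (hσR r hr) h2
      have e2 := hlab r hr h1
      have e3 := hlab _ hσR1 hσ1
      rw [map_add, map_mul]
      refine cong_trans w (cong_symm w e1) ?_
      have e4 : (σ r - r1) / D = ((σ r2 - σ r1) / D) * σ ((r - r1) / D) + (σ r1 - r1) / D := by
        have h3 : σ r2 - σ r1 ≠ 0 := sub_ne_zero.2 hσ12
        rw [map_div₀, map_sub, hD, map_sub]
        have : r2 - r1 ≠ 0 := sub_ne_zero.2 h12.symm
        field_simp
        ring
      rw [e4]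
      have hθle : w ((r - r1) / D) ≤ 1 := le_one_of_cong w (val_io_le w _) e2
      have e5 : w (σ ((r - r1) / D) - io p L (lab r)) < 1 :=
        cong_trans w (hσ _ hθle) e2
      exact cong_add w (cong_mul w hac1.le (val_io_le w _) hac e5) e3
    · have h2 : ¬ 1 < w (σ r) := not_lt.2 (hσle r (not_lt.1 h1))
      rw [if_neg h2, if_neg h1, Option.map_none]

end Pool.Agent.Lib.MP_2d3c11_ag
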