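import Mathlib
import Pool.Agent.Lib.MP_2d3c11_ag.RootData
import Pool.Agent.Lib.MP_2d3c11_ag.InfPlace

set_option autoImplicit false

/-!
Job F: the finite places.
-/

namespace Pool.Agent.Lib.MP_2d3c11_ag

open InfPlace

namespace FinPlace

variable {p e N : ℕ} {L : Type*} [Field L] [DecidableEq L] {z : L} {R : Finset L}
variable {Γ : Type*} [LinearOrderedCommGroupWithZero Γ] (w : Valuation L Γ)

omit [DecidableEq L] in
lemma x_le (hw : w z ≤ 1) (N : ℕ) : w (z ^ N) ≤ 1 := by
  rw [map_pow]; exact pow_le_one₀ zero_le hw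

/-- all roots are integral -/
lemma root_le (h : RootData p e N L z R) (hw : w z ≤ 1) {r : L} (hr : r ∈ R) : w r ≤ 1 := by
  by_contra hc
  rw [not_le] at hc
  have he3 := h.e3
  have hep := h.ep
  have h1 := congrArg w (root_eq h hr)
  have h2 : w (r ^ p - z ^ N) = w r ^ p := by
    rw [w.map_sub_eq_of_lt_left, map_pow]
    rw [map_pow w r]
    exact lt_of_le_of_lt (x_le w hw N) (one_lt_pow₀ hc h.prime.ne_zero)
  have h3 : w (e * r - (e - 1)) = w r := by
    have : w (e * r) = w r := by rw [map_mul, val_e w h, one_mul]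
    rw [← this]
    apply w.map_sub_eq_of_lt_left
    rw [this, val_e1 w h]
    exact hc
  rw [map_mul, map_pow, h2, h3, ← pow_succ] at h1
  have := pow_inj_right hc h1
  omega

lemma l_one (h : RootData p e N L z R) (hw : w z ≤ 1) {r : L} (hr : r ∈ R) :
    w (e * r - (e - 1)) = 1 := by
  have hr1 := root_le w h hw hr
  have hwe := val_e w h
  have hwe1 := val_e1 w h
  have hle : w (e * r - (e - 1)) ≤ 1 := by
    refine (w.map_sub _ _).trans (max_le ?_ hwe1.le)
    rw [map_mul, hwe, one_mul]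
    exact hr1
  by_contra hc
  have hlt : w (e * r - (e - 1)) < 1 := lt_of_le_of_ne hle hc
  have h5 : w (e * r) = 1 := eq_one_of_cong w hwe1 hlt
  rw [map_mul, hwe, one_mul] at h5
  have h1 := congrArg w (root_eq h hr)
  rw [map_mul, map_pow, h5, one_pow] at h1
  have h2 : w (r ^ p - z ^ N) ≤ 1 := by
    refine (w.map_sub _ _).trans (max_le ?_ (x_le w hw N))
    rw [map_pow, h5, one_pow]
  have h3 : w (r ^ p - z ^ N) * w (e * r - (e - 1)) < 1 :=
    lt_of_le_of_lt (mul_le_mul_left h2 _ |>.trans_eq (one_mul _)) hlt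
  exact absurd h1 h3.ne

lemma sub_le (h : RootData p e N L z R) (hw : w z ≤ 1) {r s : L} (hr : r ∈ R) (hs : s ∈ R) :
    w (r - s) ≤ 1 :=
  (w.map_sub _ _).trans (max_le (root_le w h hw hr) (root_le w h hw hs))

lemma sub_one_le (h : RootData p e N L z R) (hw : w z ≤ 1) {r : L} (hr : r ∈ R) :
    w (r - 1) ≤ 1 :=
  (w.map_sub _ _).trans (max_le (root_le w h hw hr) (by rw [map_one]))

lemma prod_diff (h : RootData p e N L z R) (hw : w z ≤ 1) {r : L} (hr : r ∈ R) :
    ∏ s ∈ R.erase r, w (r - s) = w r ^ (e - 1) * w (r - 1) := by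
  have h1 := congrArg w (h.deriv r hr)
  rw [map_mul, l_one w h hw hr, mul_one, map_mul, val_e w h, one_mul, map_prod, map_mul, map_mul,
    Valuation.map_neg, map_mul, val_e w h, val_e1 w h, one_mul, one_mul, map_pow] at h1
  exact h1

/-- the equation in the form `x l(r) = r^e (r^(p-e) l(r) - 1)` -/
lemma x_eq (h : RootData p e N L z R) {r : L} (hr : r ∈ R) :
    z ^ N * (e * r - (e - 1)) = r ^ e * (r ^ (p - e) * (e * r - (e - 1)) - 1) := by
  have h1 := root_eq h hr
  have h2 : r ^ p = r ^ e * r ^ (p - e) := by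
    rw [← pow_add]; congr 1; have := h.ep; omega
  rw [h2] at h1
  linear_combination -h1

lemma x_val (h : RootData p e N L z R) (hw : w z ≤ 1) {r : L} (hr : r ∈ R) :
    w z ^ N = w r ^ e * w (r ^ (p - e) * (e * r - (e - 1)) - 1) := by
  have h1 := congrArg w (x_eq h hr)
  rw [map_mul, l_one w h hw hr, mul_one, map_mul, map_pow, map_pow] at h1
  exact h1

lemma q_lt (h : RootData p e N L z R) {r : L} (hr : w (r - 1) < 1) :
    w (r ^ (p - e) * (e * r - (e - 1)) - 1) < 1 := by
  have hrle : w r ≤ 1 := le_one_of_cong w (by rw [map_one]) hr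
  have h1 := cong_pow w hrle (by rw [map_one]) hr (p - e)
  rw [one_pow] at h1
  have h2 : w ((e * r - (e - 1)) - 1) < 1 := by
    have : (e * r - (e - 1) : L) - 1 = e * (r - 1) := by ring
    rw [this, map_mul, val_e w h, one_mul]
    exact hr
  have h3 := cong_mul w (a := r ^ (p - e)) (b := 1) (c := e * r - (e - 1)) (d := 1)
    (by rw [map_pow]; exact pow_le_one₀ zero_le hrle) (by rw [map_one]) h1 h2
  rwa [one_mul] at h3

omit [DecidableEq L] in
lemma prod_eq_one {ι : Type*} {s : Finset ι} {f : ι → Γ} (h : ∏ i ∈ s, f i = 1)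
    (hf : ∀ i ∈ s, f i ≤ 1) : ∀ i ∈ s, f i = 1 := by
  classical
  intro i hi
  rw [← Finset.mul_prod_erase s f hi] at h
  have h1 : ∏ j ∈ s.erase i, f j ≤ 1 :=
    Finset.prod_le_one' fun j hj => hf j (Finset.mem_of_mem_erase hj)
  by_contra hc
  have h2 : f i < 1 := lt_of_le_of_ne (hf i hi) hc
  have h3 : f i * ∏ j ∈ s.erase i, f j < 1 :=
    lt_of_le_of_lt (mul_le_mul_right h1 _ |>.trans_eq (mul_one _)) h2
  exact absurd h h3.ne

omit [DecidableEq L] in
/-- if a product of `n` factors at most `t` equals `t ^ n ≠ 0` then all factors are `t` -/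
lemma prod_eq_pow {ι : Type*} {s : Finset ι} {f : ι → Γ} {t : Γ} (ht : t ≠ 0)
    (h : ∏ i ∈ s, f i = t ^ s.card) (hf : ∀ i ∈ s, f i ≤ t) : ∀ i ∈ s, f i = t := by
  have h1 : ∏ i ∈ s, (f i / t) = 1 := by
    rw [Finset.prod_div_distrib, h, Finset.prod_const, div_self (pow_ne_zero _ ht)]
  have h2 := prod_eq_one h1 (fun i hi => (div_le_one₀ (zero_lt_iff.2 ht)).2 (hf i hi))
  intro i hi
  have := h2 i hi
  rwa [div_eq_one_iff_eq ht] at this

lemma sep (h : RootData p e N L z R) (hw : w z ≤ 1) {r : L} (hr : r ∈ R) (hr1 : w r = 1)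
    (hr2 : w (r - 1) = 1) : ∀ s ∈ R, r ≠ s → w (r - s) = 1 := by
  have h1 := prod_diff w h hw hr
  rw [hr1, hr2, one_pow, mul_one] at h1
  intro s hs hrs
  exact prod_eq_one h1 (fun i hi => sub_le w h hw hr (Finset.mem_of_mem_erase hi)) s
    (Finset.mem_erase.2 ⟨hrs.symm, hs⟩)

end FinPlace

open FinPlace

variable {p e N : ℕ} {L : Type*} [Field L] [DecidableEq L] {z : L} {R : Finset L}
variable {Γ : Type*} [LinearOrderedCommGroupWithZero Γ] (w : Valuation L Γ)

/-- (B1) -/
theorem RootData.sep_of_eq_one (h : RootData p e N L z R) (hw : w z = 1) :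
    ∀ r ∈ R, ∀ s ∈ R, r ≠ s → w (r - s) = 1 := by
  intro r hr
  have hrle := root_le w h hw.le hr
  have he3 := h.e3
  have h1 := x_val w h hw.le hr
  rw [hw, one_pow] at h1
  have hQle : w (r ^ (p - e) * (e * r - (e - 1)) - 1) ≤ 1 := by
    refine (w.map_sub _ _).trans (max_le ?_ (by rw [map_one]))
    rw [map_mul, l_one w h hw.le hr, mul_one, map_pow]
    exact pow_le_one₀ zero_le hrle
  have hre : w r ^ e ≤ 1 := pow_le_one₀ zero_le hrle
  have hr1 : w r = 1 := by
    by_contra hc
    have h2 : w r ^ e < 1 := pow_lt_one₀ zero_le (lt_of_le_of_ne hrle hc) (by omega)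
    have h3 : w r ^ e * w (r ^ (p - e) * (e * r - (e - 1)) - 1) < 1 :=
      lt_of_le_of_lt (mul_le_mul_right hQle _ |>.trans_eq (mul_one _)) h2
    exact absurd h1.symm h3.ne
  have hr2 : w (r - 1) = 1 := by
    by_contra hc
    have h2 := q_lt w h (lt_of_le_of_ne (sub_one_le w h hw.le hr) hc)
    rw [hr1, one_pow, one_mul] at h1
    exact absurd h1.symm h2.ne
  exact sep w h hw.le hr hr1 hr2

/-- (B2) over `z = 0` -/
theorem RootData.zero_place (h : RootData p e N L z R) (h2 : 2 ∣ N) (he : e ∣ N) (hw : w z < 1) :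
    (∀ r ∈ R, w r ≤ 1) ∧
    (∀ r ∈ R, w r = 1 → w (r - 1) = 1 → ∀ s ∈ R, r ≠ s → w (r - s) = 1) ∧
    (∀ r ∈ R, w r < 1 → w r = w z ^ (N / e) ∧ ∀ s ∈ R, r ≠ s → w z ^ (N / e) ≤ w (r - s)) ∧
    (∀ r ∈ R, w (r - 1) < 1 →
      w (r - 1) = w z ^ (N / 2) ∧ ∀ s ∈ R, r ≠ s → w z ^ (N / 2) ≤ w (r - s)) ∧
    (R.filter (fun r => w (r - 1) < 1)).card = 2 := by
  have he3 := h.e3
  have hep := h.ep
  have hN0 := h.N0
  have hwle := hw.le
  have hwz0 : w z ≠ 0 := (Valuation.ne_zero_iff w).2 h.z0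
  -- small roots
  have hsmall : ∀ r ∈ R, w r < 1 → w r = w z ^ (N / e) := by
    intro r hr hr1
    have h1 := x_val w h hwle hr
    have h3 : w (r ^ (p - e) * (e * r - (e - 1)) - 1) = 1 := by
      rw [w.map_sub_eq_of_lt_right, map_one]
      rw [map_one, map_mul, l_one w h hwle hr, mul_one, map_pow]
      exact pow_lt_one₀ zero_le hr1 (by omega)
    rw [h3, mul_one] at h1
    apply (pow_left_inj (show e ≠ 0 by omega)).1
    rw [← h1, ← pow_mul, Nat.div_mul_cancel he]
  have htlt : w z ^ (N / e) < 1 :=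
    pow_lt_one₀ zero_le hw (Nat.div_pos (Nat.le_of_dvd hN0 he) (by omega)).ne'
  have ht0 : w z ^ (N / e) ≠ 0 := pow_ne_zero _ hwz0
  have hcard : (R.filter (fun r => w r < 1)).card = e := by
    have h0 := h.factor 0
    rw [zero_pow h.prime.ne_zero, zero_pow (show e ≠ 0 by omega)] at h0
    have h1 := congrArg w h0
    have h3 : (0 - z ^ N) * (e * 0 - ((e : L) - 1)) - 0 = z ^ N * ((e : L) - 1) := by ring
    rw [h3, map_mul, val_e1 w h, mul_one, map_mul, val_e w h, one_mul, map_prod, map_pow] at h1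
    have h4 : ∏ r ∈ R, w (0 - r) = ∏ r ∈ R.filter (fun r => w r < 1), w z ^ (N / e) := by
      rw [Finset.prod_filter]
      apply Finset.prod_congr rfl
      intro r hr
      rw [zero_sub, Valuation.map_neg]
      split_ifs with hc
      · exact hsmall r hr hc
      · exact le_antisymm (root_le w h hwle hr) (not_lt.1 hc)
    rw [h4, Finset.prod_const] at h1
    have h5 : w z ^ N = (w z ^ (N / e)) ^ e := by rw [← pow_mul, Nat.div_mul_cancel he]
    rw [h5] at h1
    have h6 : 1 < (w z ^ (N / e))⁻¹ := (one_lt_inv₀ (zero_lt_iff.2 ht0)).2 htlt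
    have h7 := pow_inj_right h6 (m := e) (n := (R.filter (fun r => w r < 1)).card)
      (by rw [inv_pow, inv_pow, h1])
    exact h7.symm
  -- roots near one
  have hone : ∀ r, w (r - 1) < 1 → w r = 1 := fun r hr => eq_one_of_cong w (by rw [map_one]) hr
  obtain ⟨S, hS⟩ : ∃ S, S = R.filter (fun r => w (r - 1) < 1) := ⟨_, rfl⟩
  have hSmem : ∀ r, r ∈ S ↔ r ∈ R ∧ w (r - 1) < 1 := by
    intro r; rw [hS, Finset.mem_filter]
  have hfar : ∀ r ∈ S, ∀ s ∈ R, s ∉ S → w (r - s) = 1 := by
    intro r hr s hs hsS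
    have h1 : w (s - 1) = 1 := by
      by_contra hc
      exact hsS ((hSmem s).2 ⟨hs, lt_of_le_of_ne (sub_one_le w h hwle hs) hc⟩)
    have h3 : r - s = (r - 1) - (s - 1) := by ring
    rw [h3, w.map_sub_eq_of_lt_right, h1]
    rw [h1]
    exact ((hSmem r).1 hr).2
  have hprodS : ∀ r ∈ S, ∏ s ∈ S.erase r, w (r - s) = w (r - 1) := by
    intro r hr
    have hr' := (hSmem r).1 hr
    have h1 := prod_diff w h hwle hr'.1
    rw [hone r hr'.2, one_pow, one_mul] at h1
    rw [← h1]
    apply Finset.prod_subset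
    · intro s hs
      rw [Finset.mem_erase] at hs ⊢
      exact ⟨hs.1, ((hSmem s).1 hs.2).1⟩
    · intro s hs hsS
      rw [Finset.mem_erase] at hs
      apply hfar r hr s hs.2
      intro hc
      exact hsS (Finset.mem_erase.2 ⟨hs.1, hc⟩)
  have hprod1 : ∏ r ∈ S, w (r - 1) = w z ^ N := by
    have h0 := h.factor 1
    rw [one_pow, one_pow] at h0
    have h1 := congrArg w h0
    have h3 : (1 - z ^ N) * (e * 1 - ((e : L) - 1)) - 1 = - z ^ N := by ring
    rw [h3, map_mul, val_e w h, one_mul, map_prod, Valuation.map_neg, map_pow] at h1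
    rw [h1, hS, Finset.prod_filter]
    apply Finset.prod_congr rfl
    intro r hr
    rw [Valuation.map_sub_swap w 1 r]
    split_ifs with hc
    · rfl
    · exact (le_antisymm (sub_one_le w h hwle hr) (not_lt.1 hc)).symm
  have hne : ∀ r ∈ S, w (r - 1) ≠ 0 := by
    intro r hr h0
    have : ∏ r ∈ S, w (r - 1) = 0 := Finset.prod_eq_zero hr h0
    rw [hprod1] at this
    exact pow_ne_zero _ hwz0 this
  have hSne : S.Nonempty := by
    rw [Finset.nonempty_iff_ne_empty]
    intro h0
    rw [h0, Finset.prod_empty] at hprod1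
    exact absurd hprod1.symm (pow_lt_one₀ zero_le hw hN0.ne').ne
  have hScard : S.card = 2 := by
    obtain ⟨r, hr, hmax⟩ := Finset.exists_max_image S (fun r => w (r - 1)) hSne
    have hr1 := ((hSmem r).1 hr).2
    have h1 := hprodS r hr
    have h3 : ∏ s ∈ S.erase r, w (r - s) ≤ w (r - 1) ^ (S.erase r).card := by
      apply Finset.prod_le_pow_card
      intro s hs
      have h4 : r - s = (r - 1) - (s - 1) := by ring
      rw [h4]
      exact (w.map_sub _ _).trans (max_le le_rfl (hmax s (Finset.mem_of_mem_erase hs)))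
    rw [h1, Finset.card_erase_of_mem hr] at h3
    have h0 := zero_lt_iff.2 (hne r hr)
    have h5 : S.card - 1 ≤ 1 := by
      by_contra hc
      rw [not_le] at hc
      have : w (r - 1) ^ (S.card - 1) < w (r - 1) ^ 1 := pow_lt_pow_right_of_lt_one₀ h0 hr1 hc
      rw [pow_one] at this
      exact absurd h3 (not_le.2 this)
    have h6 : 1 ≤ S.card := Finset.card_pos.2 hSne
    have h7 : S.card ≠ 1 := by
      intro hc
      have h8 : (S.erase r).card = 0 := by rw [Finset.card_erase_of_mem hr, hc]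
      rw [Finset.card_eq_zero] at h8
      rw [h8, Finset.prod_empty] at h1
      exact absurd h1.symm hr1.ne
    omega
  obtain ⟨r1, r2, h12, hS12⟩ := Finset.card_eq_two.1 hScard
  have hr1S : r1 ∈ S := by rw [hS12]; simp
  have hr2S : r2 ∈ S := by rw [hS12]; simp
  have e1 : w (r1 - r2) = w (r1 - 1) := by
    have := hprodS r1 hr1S
    rw [hS12, Finset.erase_insert (by simpa using h12), Finset.prod_singleton] at this
    exact this
  have e2 : w (r1 - r2) = w (r2 - 1) := by
    have := hprodS r2 hr2S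
    rw [hS12, Finset.pair_comm, Finset.erase_insert (by simpa using h12.symm),
      Finset.prod_singleton, Valuation.map_sub_swap] at this
    exact this
  have e3 : w (r1 - 1) = w z ^ (N / 2) := by
    rw [hS12, Finset.prod_pair h12, ← e2, e1, ← pow_two] at hprod1
    apply (pow_left_inj (two_ne_zero)).1
    rw [hprod1, ← pow_mul, Nat.div_mul_cancel h2]
  have h2lt : w z ^ (N / 2) ≤ 1 := pow_le_one₀ zero_le hwle
  refine ⟨fun r hr => root_le w h hwle hr, fun r hr hr1 hr2 => sep w h hwle hr hr1 hr2, ?_, ?_, ?_⟩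
  · intro r hr hr1
    refine ⟨hsmall r hr hr1, ?_⟩
    have hrt := hsmall r hr hr1
    have hr2 : w (r - 1) = 1 := by
      rw [w.map_sub_eq_of_lt_right, map_one]
      rw [map_one]; exact hr1
    have h1 := prod_diff w h hwle hr
    rw [hr2, mul_one, hrt] at h1
    have hbig : ∀ s ∈ R, ¬ w s < 1 → w (r - s) = 1 := by
      intro s hs hs1
      have : w s = 1 := le_antisymm (root_le w h hwle hs) (not_lt.1 hs1)
      rw [w.map_sub_eq_of_lt_right, this]
      rw [this]; exact hr1
    have h3 : ∏ s ∈ (R.filter (fun r => w r < 1)).erase r, w (r - s) = ∏ s ∈ R.erase r, w (r - s) := by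
      apply Finset.prod_subset
      · intro s hs
        rw [Finset.mem_erase, Finset.mem_filter] at hs
        exact Finset.mem_erase.2 ⟨hs.1, hs.2.1⟩
      · intro s hs hs'
        rw [Finset.mem_erase] at hs
        apply hbig s hs.2
        intro hc
        exact hs' (Finset.mem_erase.2 ⟨hs.1, Finset.mem_filter.2 ⟨hs.2, hc⟩⟩)
    have hrmem : r ∈ R.filter (fun r => w r < 1) := Finset.mem_filter.2 ⟨hr, hr1⟩
    have h4 : ((R.filter (fun r => w r < 1)).erase r).card = e - 1 := by
      rw [Finset.card_erase_of_mem hrmem, hcard]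
    have h5 := prod_eq_pow (s := (R.filter (fun r => w r < 1)).erase r) (f := fun s => w (r - s))
      ht0 (by rw [h3, h4, h1]) (by
        intro s hs
        rw [Finset.mem_erase, Finset.mem_filter] at hs
        refine (w.map_sub _ _).trans (max_le hrt.le (hsmall s hs.2.1 hs.2.2).le))
    intro s hs hrs
    by_cases hs1 : w s < 1
    · exact (h5 s (Finset.mem_erase.2 ⟨hrs.symm, Finset.mem_filter.2 ⟨hs, hs1⟩⟩)).ge
    · rw [hbig s hs hs1]; exact htlt.le
  · intro r hr hr1
    have hrS : r ∈ S := (hSmem r).2 ⟨hr, hr1⟩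
    have hval : ∀ r ∈ S, w (r - 1) = w z ^ (N / 2) := by
      intro r hr
      rw [hS12, Finset.mem_insert, Finset.mem_singleton] at hr
      rcases hr with rfl | rfl
      · exact e3
      · rw [← e2, e1, e3]
    refine ⟨hval r hrS, ?_⟩
    intro s hs hrs
    by_cases hsS : s ∈ S
    · have h5 : w (r - s) = w z ^ (N / 2) := by
        have hr' := hrS
        have hs' := hsS
        rw [hS12, Finset.mem_insert, Finset.mem_singleton] at hr' hs'
        rcases hr' with rfl | rfl <;> rcases hs' with rfl | rfl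
        · exact absurd rfl hrs
        · rw [e1, e3]
        · rw [Valuation.map_sub_swap, e1, e3]
        · exact absurd rfl hrs
      exact h5.ge
    · rw [hfar r hrS s hs hsS]; exact h2lt
  · rw [← hS]; exact hScard

/-- (B) inertia is trivial over the finite places -/
theorem RootData.inertia_trivial (h : RootData p e N L z R) (h2 : 2 ∣ N) (he : e ∣ N)
    (hw : w z ≤ 1) (σ : L ≃+* L) (hσz : σ z = z) (hσR : ∀ r ∈ R, σ r ∈ R)
    (hσ : ∀ a : L, w a ≤ 1 → w (σ a - a) < 1) : ∀ r ∈ R, σ r = r := by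
  intro r hr
  by_contra hc
  have hrle := root_le w h hw hr
  have h1 := hσ r hrle
  have hz0 := h.z0
  have hwz0 : w z ≠ 0 := (Valuation.ne_zero_iff w).2 hz0
  -- a general step
  have step : ∀ (c : L) (n : ℕ), σ c = c → w (r - c) = w z ^ n → w (σ r - r) < w z ^ n := by
    intro c n hc1 hv
    have h3 : w ((r - c) / z ^ n) ≤ 1 := by
      rw [map_div₀, map_pow, hv, div_self (pow_ne_zero _ hwz0)]
    have h4 := hσ _ h3
    have h5 : σ ((r - c) / z ^ n) - (r - c) / z ^ n = (σ r - r) / z ^ n := by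
      rw [map_div₀, map_pow, hσz, map_sub, hc1]
      ring
    rw [h5, map_div₀, map_pow, div_lt_one₀ (zero_lt_iff.2 (pow_ne_zero _ hwz0))] at h4
    exact h4
  rcases hw.lt_or_eq with hlt | heq
  · obtain ⟨-, p1, p2, p3, -⟩ := h.zero_place w h2 he hlt
    by_cases hr1 : w r < 1
    · have h3 := p2 r hr hr1
      have h4 := h3.2 (σ r) (hσR r hr) (Ne.symm hc)
      have h5 := step 0 (N / e) (map_zero σ) (by rw [sub_zero]; exact h3.1)
      rw [Valuation.map_sub_swap] at h5
      exact absurd h4 (not_le.2 h5)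
    · by_cases hr2 : w (r - 1) < 1
      · have h3 := p3 r hr hr2
        have h4 := h3.2 (σ r) (hσR r hr) (Ne.symm hc)
        have h5 := step 1 (N / 2) (map_one σ) h3.1
        rw [Valuation.map_sub_swap] at h5
        exact absurd h4 (not_le.2 h5)
      · have h3 := p1 r hr (le_antisymm hrle (not_lt.1 hr1))
          (le_antisymm (sub_one_le w h hw hr) (not_lt.1 hr2)) (σ r) (hσR r hr) (Ne.symm hc)
        rw [Valuation.map_sub_swap] at h3
        exact absurd h3 h1.ne
  · have h3 := h.sep_of_eq_one w heq r hr (σ r) (hσR r hr) (Ne.symm hc)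
    rw [Valuation.map_sub_swap] at h3
    exact absurd h3 h1.ne

end Pool.Agent.Lib.MP_2d3c11_ag
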