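import Mathlib

set_option autoImplicit false

open Equiv MulAction

namespace Pool.Agent.Lib.MP_2d3c11_ag

/-- A nontrivial doubly transitive group of even permutations which is normalised by a
transposition or a 3-cycle is the alternating group. -/
theorem eq_alternatingGroup {α : Type*} [Fintype α] [DecidableEq α] (h5 : 5 ≤ Nat.card α)
    (G : Subgroup (Perm α)) (hG : G ≤ alternatingGroup α) (a₀ : α)
    (h1 : ∀ b c : α, b ≠ a₀ → c ≠ a₀ → ∃ g ∈ G, g a₀ = a₀ ∧ g b = c)
    (h2 : ∃ g ∈ G, g a₀ ≠ a₀) (t : Perm α) (ht : t.IsSwap ∨ t.IsThreeCycle)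
    (hn : ∀ g ∈ G, t * g * t⁻¹ ∈ G) : G = alternatingGroup α := by
  classical
  -- transitivity
  have htr : ∀ x : α, ∃ g ∈ G, g a₀ = x := by
    intro x
    obtain ⟨g₀, hg₀, hg₀'⟩ := h2
    rcases eq_or_ne x a₀ with rfl | hx
    · exact ⟨1, G.one_mem, rfl⟩
    · obtain ⟨h, hh, hh1, hh2⟩ := h1 (g₀ a₀) x hg₀' hx
      exact ⟨h * g₀, G.mul_mem hh hg₀, hh2⟩
  have h2tr : ∀ {a b c d : α}, a ≠ b → c ≠ d → ∃ g ∈ G, g a = c ∧ g b = d := by
    intro a b c d hab hcd
    obtain ⟨ga, hga, hga'⟩ := htr a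
    obtain ⟨gc, hgc, hgc'⟩ := htr c
    obtain ⟨h, hh, hh1, hh2⟩ := h1 (ga⁻¹ b) (gc⁻¹ d)
      (by
        intro h
        apply hab
        rw [← hga', ← h]
        simp)
      (by
        intro h
        apply hcd
        rw [← hgc', ← h]
        simp)
    refine ⟨gc * h * ga⁻¹, G.mul_mem (G.mul_mem hgc hh) (G.inv_mem hga), ?_, ?_⟩
    · have : ga⁻¹ a = a₀ := by
        rw [← hga']
        simp
      rw [Perm.mul_apply, Perm.mul_apply, this, hh1, hgc']
    · rw [Perm.mul_apply, Perm.mul_apply, hh2]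
      simp
  set N := Subgroup.normalizer (G : Set (Perm α)) with hN
  have hGN : G ≤ N := Subgroup.le_normalizer
  have hprim : IsPreprimitive N α := by
    apply isPreprimitive_of_is_two_pretransitive
    rw [is_two_pretransitive_iff]
    intro a b c d hab hcd
    obtain ⟨g, hg, hg1, hg2⟩ := h2tr hab hcd
    exact ⟨⟨g, hGN hg⟩, hg1, hg2⟩
  have htN : t ∈ N := Subgroup.mem_normalizer_fintype hn
  have haN : alternatingGroup α ≤ N := by
    rcases ht with ht | ht
    · have := Perm.subgroup_eq_top_of_isPreprimitive_of_isSwap_mem hprim t ht htN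
      rw [this]
      exact le_top
    · exact Perm.alternatingGroup_le_of_isPreprimitive_of_isThreeCycle_mem hprim ht htN
  have hsimple := alternatingGroup.isSimpleGroup h5
  have hnormal : (G.subgroupOf (alternatingGroup α)).Normal := by
    constructor
    intro n hn g
    rw [Subgroup.mem_subgroupOf] at hn ⊢
    exact (Subgroup.mem_normalizer_iff.1 (haN g.2) n).1 hn
  rcases hnormal.eq_bot_or_eq_top with h | h
  · exfalso
    obtain ⟨g, hg, hg'⟩ := h2
    have : (⟨g, hG hg⟩ : alternatingGroup α) ∈ G.subgroupOf (alternatingGroup α) := hg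
    rw [h, Subgroup.mem_bot] at this
    apply hg'
    have h3 : g = 1 := congrArg Subtype.val this
    rw [h3]
    rfl
  · apply le_antisymm hG
    rw [Subgroup.subgroupOf_eq_top] at h
    exact h

end Pool.Agent.Lib.MP_2d3c11_ag
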