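import Mathlib
import Pool.Agent.Lib.MP_2d3c11_ag.RootData

set_option autoImplicit false
set_option linter.unusedSectionVars false

open Polynomial

namespace Pool.Agent.Lib.MP_2d3c11_ag

/-- The polynomial `(V^p - x) (e V - (e-1)) - V^e`. -/
noncomputable def Fpoly (p e : ℕ) {K : Type*} [Field K] (x : K) : K[X] :=
  (X ^ p - C x) * (C (e : K) * X - C ((e : K) - 1)) - X ^ e

section

variable {p e : ℕ} {K : Type*} [Field K]

theorem Fpoly_map {L : Type*} [Field L] (f : K →+* L) (x : K) :
    (Fpoly p e x).map f = Fpoly p e (f x) := by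
  simp [Fpoly]

theorem Fpoly_eval (x c : K) :
    (Fpoly p e x).eval c = (c ^ p - x) * (e * c - (e - 1)) - c ^ e := by
  simp [Fpoly]

theorem cast_e_ne_zero (_hp : p.Prime) [CharP K p] (he : 3 ≤ e) (hep : e < p) : (e : K) ≠ 0 := by
  rw [Ne, CharP.cast_eq_zero_iff K p]
  exact Nat.not_dvd_of_pos_of_lt (by omega) hep

theorem cast_e_sub_ne_zero (_hp : p.Prime) [CharP K p] (he : 3 ≤ e) (hep : e < p) :
    (e : K) - 1 ≠ 0 := by
  have : ((e - 1 : ℕ) : K) = (e : K) - 1 := by
    rw [Nat.cast_sub (by omega), Nat.cast_one]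
  rw [← this, Ne, CharP.cast_eq_zero_iff K p]
  exact Nat.not_dvd_of_pos_of_lt (by omega) (by omega)

theorem natDegree_lin (he : (e : K) ≠ 0) :
    (C (e : K) * X - C ((e : K) - 1)).natDegree = 1 := by
  rw [sub_eq_add_neg, ← C_neg]
  exact natDegree_linear he

theorem natDegree_prod_aux (hp : p.Prime) (he : (e : K) ≠ 0) (x : K) :
    ((X ^ p - C x) * (C (e : K) * X - C ((e : K) - 1))).natDegree = p + 1 := by
  rw [natDegree_mul, natDegree_X_pow_sub_C, natDegree_lin he]
  · exact X_pow_sub_C_ne_zero hp.pos x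
  · intro h
    have := natDegree_lin he
    rw [h, natDegree_zero] at this
    exact zero_ne_one this

theorem Fpoly_natDegree (hp : p.Prime) (hep : e < p) (he : (e : K) ≠ 0) (x : K) :
    (Fpoly p e x).natDegree = p + 1 := by
  rw [Fpoly, natDegree_sub_eq_left_of_natDegree_lt]
  · exact natDegree_prod_aux hp he x
  · rw [natDegree_prod_aux hp he, natDegree_X_pow]
    omega

theorem Fpoly_leadingCoeff (hp : p.Prime) (hep : e < p) (he : (e : K) ≠ 0) (x : K) :
    (Fpoly p e x).leadingCoeff = e := by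
  rw [Fpoly, leadingCoeff_sub_of_degree_lt, leadingCoeff_mul, leadingCoeff_X_pow_sub_C hp.pos,
    one_mul, sub_eq_add_neg, ← C_neg, leadingCoeff_linear he]
  apply degree_lt_degree
  rw [natDegree_prod_aux hp he, natDegree_X_pow]
  omega

theorem Fpoly_ne_zero (hp : p.Prime) (hep : e < p) (he : (e : K) ≠ 0) (x : K) :
    Fpoly p e x ≠ 0 := by
  intro h
  have := Fpoly_natDegree hp hep he x
  rw [h, natDegree_zero] at this
  omega

theorem Fpoly_derivative_eval [CharP K p] (x c : K) :
    (derivative (Fpoly p e x)).eval c = e * (c ^ p - x) - e * c ^ (e - 1) := by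
  simp [Fpoly, derivative_pow]
  ring

/-- The derivative at a root. -/
theorem Fpoly_derivative_root [CharP K p] (he1 : 1 ≤ e) (x c : K)
    (h : (Fpoly p e x).eval c = 0) :
    (derivative (Fpoly p e x)).eval c * (e * c - (e - 1)) =
      - (e * (e - 1)) * c ^ (e - 1) * (c - 1) := by
  rw [Fpoly_derivative_eval]
  rw [Fpoly_eval] at h
  obtain ⟨d, rfl⟩ : ∃ d, e = d + 1 := ⟨e - 1, by omega⟩
  rw [Nat.add_sub_cancel]
  rw [pow_succ] at h
  linear_combination ((d + 1 : ℕ) : K) * h

theorem Fpoly_separable [CharP K p] (hp : p.Prime) (he3 : 3 ≤ e) (hep : e < p)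
    {x : K} (hx : x ≠ 0) : (Fpoly p e x).Separable := by
  rw [separable_def, isCoprime_iff_aeval_ne_zero_of_isAlgClosed K (AlgebraicClosure K)]
  intro a
  by_contra hcon
  push Not at hcon
  obtain ⟨h1, h2⟩ := hcon
  have : CharP (AlgebraicClosure K) p := charP_of_injective_algebraMap' K p
  have he0 := cast_e_ne_zero (K := AlgebraicClosure K) hp he3 hep
  have he1 := cast_e_sub_ne_zero (K := AlgebraicClosure K) hp he3 hep
  set x' := algebraMap K (AlgebraicClosure K) x with hx'
  have hx0 : x' ≠ 0 := by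
    rw [hx', Ne, map_eq_zero]
    exact hx
  rw [aeval_def, ← eval_map, Fpoly_map, ← hx'] at h1
  rw [aeval_def, ← eval_map, ← derivative_map, Fpoly_map, ← hx'] at h2
  have h3 := Fpoly_derivative_root (by omega) x' a h1
  rw [h2, zero_mul] at h3
  rw [Fpoly_eval] at h1
  have h4 : a ^ (e - 1) * (a - 1) = 0 := by
    have : (e : AlgebraicClosure K) * (e - 1) * (a ^ (e - 1) * (a - 1)) = 0 := by
      linear_combination h3
    exact (mul_eq_zero.1 this).resolve_left (mul_ne_zero he0 he1)
  rcases mul_eq_zero.1 h4 with h5 | h5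
  · have h6 : a = 0 := pow_eq_zero_iff (by omega) |>.1 h5
    rw [h6, zero_pow hp.ne_zero, zero_pow (by omega)] at h1
    apply mul_ne_zero hx0 he1
    linear_combination h1
  · have h6 : a = 1 := by linear_combination h5
    rw [h6] at h1
    apply hx0
    linear_combination -h1

/-- The roots of `Fpoly p e (z ^ N)` form a `RootData`. -/
theorem rootData_of_splits {N : ℕ} [DecidableEq K] (hchar : CharP K p) (hp : p.Prime)
    (he3 : 3 ≤ e) (hep : e < p) (hN : 0 < N) (z : K) (hz : z ≠ 0)
    (hs : (Fpoly p e (z ^ N)).Splits) :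
    RootData p e N K z (Fpoly p e (z ^ N)).roots.toFinset := by
  have he0 := cast_e_ne_zero (K := K) hp he3 hep
  have hsep := Fpoly_separable hp he3 hep (pow_ne_zero N hz)
  have hnd : (Fpoly p e (z ^ N)).roots.Nodup := nodup_roots hsep
  have hlc := Fpoly_leadingCoeff hp hep he0 (z ^ N)
  refine ⟨hp, hchar, he3, hep, hN, hz, ?_, ?_, ?_⟩
  · rw [Multiset.toFinset_card_of_nodup hnd, ← hs.natDegree_eq_card_roots,
      Fpoly_natDegree hp hep he0]
  · intro c
    rw [← Fpoly_eval, hs.eval_eq_prod_roots, hlc, Finset.prod_eq_multiset_prod,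
      Multiset.toFinset_val, Multiset.dedup_eq_self.2 hnd]
  · intro r hr
    rw [Multiset.mem_toFinset] at hr
    have hroot : (Fpoly p e (z ^ N)).eval r = 0 := (mem_roots'.1 hr).2
    rw [← Fpoly_derivative_root (by omega) (z ^ N) r hroot]
    congr 1
    conv_rhs => rw [hs.eq_prod_roots]
    rw [derivative_C_mul, eval_mul, eval_C, hlc, eval_multiset_prod_X_sub_C_derivative hr,
      Finset.prod_eq_multiset_prod, Finset.erase_val, Multiset.toFinset_val,
      Multiset.dedup_eq_self.2 hnd]

end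

end Pool.Agent.Lib.MP_2d3c11_ag
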