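import Mathlib
import Pool.Agent.Lib.MP_2d3c11_ag.RootData
import Pool.Agent.Lib.MP_2d3c11_ag.PolyF
import Pool.Agent.Lib.MP_2d3c11_ag.PermLemma

set_option autoImplicit false
set_option linter.unusedSectionVars false

open Polynomial

namespace Pool.Agent.Lib.MP_2d3c11_ag

/-- The permutation of a finite set induced by an automorphism. -/
noncomputable def permOf {L : Type*} [Field L] (R : Finset L) (Φ : L ≃+* L)
    (h : ∀ r ∈ R, Φ r ∈ R) : Equiv.Perm R :=
  Equiv.ofBijective (fun r => ⟨Φ r, h r r.2⟩) (by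
    apply Finite.injective_iff_bijective.1
    intro r s hrs
    apply Subtype.ext
    exact Φ.injective (congrArg Subtype.val hrs))

@[simp]
theorem permOf_apply {L : Type*} [Field L] (R : Finset L) (Φ : L ≃+* L)
    (h : ∀ r ∈ R, Φ r ∈ R) (r : R) : (permOf R Φ h r : L) = Φ r := rfl

section

variable {p e N : ℕ} {L : Type*} [Field L] [DecidableEq L] {z : L} {R : Finset L}

theorem RootData.mem_iff (h : RootData p e N L z R) (c : L) :
    c ∈ R ↔ (c ^ p - z ^ N) * (e * c - (e - 1)) - c ^ e = 0 := by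
  have := h.char
  have he0 := cast_e_ne_zero (K := L) h.prime h.e3 h.ep
  rw [h.factor, mul_eq_zero, or_iff_right he0, Finset.prod_eq_zero_iff]
  constructor
  · intro hc
    exact ⟨c, hc, sub_self c⟩
  · rintro ⟨r, hr, hr'⟩
    rwa [sub_eq_zero.1 hr']

theorem RootData.map_mem (h : RootData p e N L z R) (Φ : L ≃+* L) (hΦ : Φ z ^ N = z ^ N) :
    ∀ r ∈ R, Φ r ∈ R := by
  intro r hr
  rw [h.mem_iff] at hr ⊢
  have := congrArg Φ hr
  simpa [hΦ] using this

/-- The product of the differences of the roots. -/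
theorem RootData.prod_diff (h : RootData p e N L z R) :
    (e : L) ^ p * ∏ r ∈ R, ∏ s ∈ R.erase r, (r - s) = ((e : L) - 1) ^ p * (z ^ N) ^ e := by
  have := h.char
  have he3 := h.e3
  have hep := h.ep
  have he0 := cast_e_ne_zero (K := L) h.prime h.e3 h.ep
  have he1 := cast_e_sub_ne_zero (K := L) h.prime h.e3 h.ep
  have hodd : Odd p := h.prime.odd_of_ne_two (by omega)
  have heven : Even (p + 1) := hodd.add_one
  set x := z ^ N with hx
  have hA : (e : L) * ∏ r ∈ R, r = x * (e - 1) := by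
    have h1 := h.factor 0
    have h2 : ∏ r ∈ R, (0 - r) = ∏ r ∈ R, r := by
      simp only [zero_sub]
      rw [Finset.prod_neg, h.card, heven.neg_one_pow, one_mul]
    rw [h2, zero_pow h.prime.ne_zero, zero_pow (by omega : e ≠ 0)] at h1
    rw [← h1]
    ring
  have hB : (e : L) * ∏ r ∈ R, (r - 1) = -x := by
    have h1 := h.factor 1
    have h2 : ∏ r ∈ R, (1 - r) = ∏ r ∈ R, (r - 1) := by
      have : ∀ r ∈ R, (1 - r) = -(r - 1) := fun r _ => by ring
      rw [Finset.prod_congr rfl this, Finset.prod_neg, h.card, heven.neg_one_pow, one_mul]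
    rw [h2] at h1
    rw [← h1]
    ring
  have hC : (e : L) ^ (e + 1) * ∏ r ∈ R, (e * r - (e - 1)) = - (e ^ (p + 1) * (e - 1) ^ e) := by
    have h1 := h.factor ((e - 1) / e)
    have h2 : ∏ r ∈ R, ((e : L) * r - (e - 1)) = e ^ (p + 1) * ∏ r ∈ R, (((e : L) - 1) / e - r) := by
      have : ∀ r ∈ R, ((e : L) * r - (e - 1)) = - (e * (((e : L) - 1) / e - r)) := by
        intro r _
        field_simp
        ring
      rw [Finset.prod_congr rfl this, Finset.prod_neg, h.card, heven.neg_one_pow, one_mul,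
        Finset.prod_mul_distrib, Finset.prod_const, h.card]
    have h3 : (e : L) * (((e : L) - 1) / e) - (e - 1) = 0 := by
      field_simp
      ring
    rw [h3, mul_zero, zero_sub, div_pow] at h1
    rw [h2, pow_succ, mul_assoc, mul_left_comm (e : L), ← h1]
    field_simp
  have hD : (e : L) ^ (p + 1) * (∏ r ∈ R, ∏ s ∈ R.erase r, (r - s)) *
      ∏ r ∈ R, (e * r - (e - 1)) =
      ((e : L) * (e - 1)) ^ (p + 1) * (∏ r ∈ R, r) ^ (e - 1) * ∏ r ∈ R, (r - 1) := by
    have h1 := Finset.prod_congr (s₁ := R) rfl h.deriv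
    rw [Finset.prod_mul_distrib, Finset.prod_mul_distrib, Finset.prod_mul_distrib,
      Finset.prod_mul_distrib, Finset.prod_const, Finset.prod_const, h.card, Finset.prod_pow,
      heven.neg_pow] at h1
    exact h1
  obtain ⟨d, rfl⟩ : ∃ d, e = d + 1 := ⟨e - 1, by omega⟩
  rw [Nat.add_sub_cancel] at hD
  set E : L := ((d + 1 : ℕ) : L) with hE
  have key : (E ^ (p + 1) * E ^ d * (E - 1) ^ d * E ^ 2 * (E - 1)) *
      (E ^ p * ∏ r ∈ R, ∏ s ∈ R.erase r, (r - s)) =
      (E ^ (p + 1) * E ^ d * (E - 1) ^ d * E ^ 2 * (E - 1)) *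
      ((E - 1) ^ p * x ^ (d + 1)) := by
    set D := ∏ r ∈ R, ∏ s ∈ R.erase r, (r - s) with hDdef
    set P1 := ∏ r ∈ R, r with hP1
    set P2 := ∏ r ∈ R, (r - 1) with hP2
    set P3 := ∏ r ∈ R, (E * r - (E - 1)) with hP3
    calc _ = -(E ^ p * E ^ (d + 2) * D) * (-(E ^ (p + 1) * (E - 1) ^ (d + 1))) := by ring
      _ = -(E ^ p * E ^ (d + 2) * D) * (E ^ (d + 1 + 1) * P3) := by rw [hC]
      _ = -(E ^ (2 * d + 3)) * (E ^ (p + 1) * D * P3) := by ring
      _ = -(E ^ (2 * d + 3)) * ((E * (E - 1)) ^ (p + 1) * P1 ^ d * P2) := by rw [hD]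
      _ = -(E ^ (d + 2)) * (E * (E - 1)) ^ (p + 1) * (E * P1) ^ d * (E * P2) := by ring
      _ = -(E ^ (d + 2)) * (E * (E - 1)) ^ (p + 1) * (x * (E - 1)) ^ d * (-x) := by rw [hA, hB]
      _ = _ := by
        rw [mul_pow, mul_pow]
        ring
  refine mul_left_cancel₀ ?_ key
  have h1 := pow_ne_zero (p + 1) he0
  have h2 := pow_ne_zero d he0
  have h3 := pow_ne_zero d he1
  have h4 := pow_ne_zero 2 he0
  exact mul_ne_zero (mul_ne_zero (mul_ne_zero (mul_ne_zero h1 h2) h3) h4) he1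

/-- A criterion for a permutation to be even. -/
theorem sign_eq_one_of_vandermonde {n : ℕ} (h2 : (2 : L) ≠ 0) (v : Fin n → L)
    (hv : Function.Injective v) (Φ : L →+* L) (π : Equiv.Perm (Fin n))
    (hΦ : ∀ i, Φ (v i) = v (π i)) (c : L) (hc : Φ c = c)
    (hdet : (Matrix.vandermonde v).det ^ 2 = c ^ 2) : Equiv.Perm.sign π = 1 := by
  have h0 : (Matrix.vandermonde v).det ≠ 0 := Matrix.det_vandermonde_ne_zero_iff.2 hv
  have h1 : Φ (Matrix.vandermonde v).det = (Matrix.vandermonde v).det := by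
    rcases sq_eq_sq_iff_eq_or_eq_neg.1 hdet with h | h
    · rw [h, hc]
    · rw [h, map_neg, hc]
  have h3 : Φ (Matrix.vandermonde v).det =
      (Equiv.Perm.sign π : ℤ) * (Matrix.vandermonde v).det := by
    rw [RingHom.map_det, ← Matrix.det_permute]
    congr 1
    ext i j
    simp [Matrix.vandermonde, hΦ]
  rw [h3] at h1
  rcases Int.units_eq_one_or (Equiv.Perm.sign π) with h | h
  · exact h
  · exfalso
    rw [h] at h1
    apply mul_ne_zero h2 h0
    simp only [Units.val_neg, Units.val_one, Int.cast_neg, Int.cast_one, neg_mul, one_mul] at h1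
    linear_combination -h1

theorem det_vandermonde_sq {n : ℕ} (v : Fin n → L) :
    ∃ ε : ℤ, ε ^ 2 = 1 ∧ (Matrix.vandermonde v).det ^ 2 =
      ε * ∏ i, ∏ j ∈ {i}ᶜ, (v i - v j) := by
  refine ⟨∏ i : Fin n, ∏ j ∈ Finset.Ioi i, (-1), ?_, ?_⟩
  · rw [← Finset.prod_pow]
    apply Finset.prod_eq_one
    intro i _
    rw [← Finset.prod_pow]
    apply Finset.prod_eq_one
    intro j _
    norm_num
  · rw [← Finset.prod_prod_Ioi_mul_eq_prod_prod_off_diag (fun j i => v i - v j),
      Matrix.det_vandermonde, ← Finset.prod_pow]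
    push_cast
    rw [← Finset.prod_mul_distrib]
    apply Finset.prod_congr rfl
    intro i _
    rw [← Finset.prod_pow, ← Finset.prod_mul_distrib]
    apply Finset.prod_congr rfl
    intro j _
    ring

theorem RootData.even (h : RootData p e N L z R) (hN : Even N)
    (Φ : L ≃+* L) (hΦR : ∀ r ∈ R, Φ r ∈ R) (hΦz : Φ z = z)
    (hsq : ∀ a : ℤ, ∃ y : L, Φ y = y ∧ y ^ 2 = a) :
    Equiv.Perm.sign (permOf R Φ hΦR) = 1 := by
  have := h.char
  have he3 := h.e3
  have hep := h.ep
  have he0 := cast_e_ne_zero (K := L) h.prime h.e3 h.ep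
  have he1 := cast_e_sub_ne_zero (K := L) h.prime h.e3 h.ep
  have h2 : (2 : L) ≠ 0 := by
    have : ((2 : ℕ) : L) ≠ 0 := by
      rw [Ne, CharP.cast_eq_zero_iff L p]
      exact Nat.not_dvd_of_pos_of_lt (by omega) (by omega)
    exact_mod_cast this
  obtain ⟨t, ht⟩ := hN
  have hcard : Fintype.card R = p + 1 := by rw [Fintype.card_coe, h.card]
  let ε : R ≃ Fin (p + 1) := Fintype.equivFinOfCardEq hcard
  let v : Fin (p + 1) → L := fun i => (ε.symm i : L)
  have hv : Function.Injective v := Subtype.val_injective.comp ε.symm.injective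
  let π : Equiv.Perm (Fin (p + 1)) := ε.permCongr (permOf R Φ hΦR)
  have hsign : Equiv.Perm.sign π = Equiv.Perm.sign (permOf R Φ hΦR) :=
    Equiv.Perm.sign_permCongr _ _
  rw [← hsign]
  obtain ⟨s, hs, hdet⟩ := det_vandermonde_sq v
  have hprod : ∏ i, ∏ j ∈ {i}ᶜ, (v i - v j) = ∏ r ∈ R, ∏ s ∈ R.erase r, (r - s) := by
    rw [← Finset.prod_coe_sort R (fun r => ∏ s ∈ R.erase r, (r - s)),
      ← Equiv.prod_comp ε.symm (fun r : R => ∏ s ∈ R.erase (r : L), ((r : L) - s))]
    apply Finset.prod_congr rfl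
    intro i _
    apply Finset.prod_nbij v
    · intro j hj
      rw [Finset.mem_erase]
      refine ⟨?_, (ε.symm j).2⟩
      intro h5
      have := hv (show v j = v i from h5)
      rw [Finset.mem_compl, Finset.mem_singleton] at hj
      exact hj this
    · exact hv.injOn
    · intro r hr
      rw [Finset.mem_coe, Finset.mem_erase] at hr
      refine ⟨ε ⟨r, hr.2⟩, ?_, by simp [v]⟩
      rw [Finset.mem_coe, Finset.mem_compl, Finset.mem_singleton]
      intro h5
      apply hr.1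
      rw [← h5]
      simp
    · intro j _
      rfl
  obtain ⟨y, hy, hy2⟩ := hsq (s * (e * (e - 1)) ^ p)
  refine sign_eq_one_of_vandermonde h2 v hv Φ.toRingHom π ?_ (y * z ^ (t * e) / e ^ p) ?_ ?_
  · intro i
    simp [v, π, Equiv.permCongr_apply]
  · change Φ (y * z ^ (t * e) / e ^ p) = _
    simp [hy, hΦz]
  · rw [hdet, hprod]
    have h3 := h.prod_diff
    have he0p : ((e : L) ^ p) ^ 2 ≠ 0 := pow_ne_zero 2 (pow_ne_zero p he0)
    have h4 : (z ^ (t * e)) ^ 2 = (z ^ N) ^ e := by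
      rw [ht, ← pow_mul, ← pow_mul]
      congr 1
      ring
    rw [div_pow, mul_pow, hy2, h4, eq_div_iff he0p]
    push_cast
    rw [mul_pow]
    linear_combination ((s : L) * (e : L) ^ p) * h3

end

end Pool.Agent.Lib.MP_2d3c11_ag
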