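import Mathlib

set_option autoImplicit false

/-!
Job D: subgroups of `A_{p+1}` that are an extension of a cyclic group by a normal subgroup of
order `p` are groups of affine maps `u ↦ a u + b` with `a ^ m = 1`, where `m ∣ (p - 1) / 2`.
-/

namespace Pool.Agent.Lib.MP_2d3c11_ag

open Equiv

namespace AffineModel

variable {p : ℕ}

/-- translation by one on `Option (ZMod p)` -/
def T (p : ℕ) : Perm (Option (ZMod p)) := optionCongr (Equiv.addRight (1 : ZMod p))

/-- multiplication by a unit followed by a translation -/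
def aff (a : (ZMod p)ˣ) (b : ZMod p) : Perm (ZMod p) :=
  (Units.mulLeft a).trans (Equiv.addRight b)

lemma aff_apply (a : (ZMod p)ˣ) (b u : ZMod p) : aff a b u = a * u + b := rfl

lemma T_apply (z : Option (ZMod p)) : T p z = z.map (fun u => u + 1) := rfl

lemma T_pow_apply (n : ℕ) (z : Option (ZMod p)) :
    (T p ^ n) z = z.map (fun u => u + (n : ZMod p)) := by
  induction n with
  | zero => cases z <;> simp
  | succ n ih =>
    rw [pow_succ', Perm.mul_apply, ih, T_apply]
    cases z
    · rfl
    · simp [add_assoc]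

lemma orderOf_T [hp : Fact p.Prime] : orderOf (T p) = p := by
  apply orderOf_eq_prime
  · ext z : 1
    rw [T_pow_apply]
    cases z <;> simp
  · intro h
    have h1 := congrArg (fun f : Perm (Option (ZMod p)) => f (some 0)) h
    simp only [T_apply, Perm.one_apply, Option.map_some, zero_add, Option.some.injEq] at h1
    exact one_ne_zero h1

lemma cycleType_of_order [hp : Fact p.Prime] {α : Type*} [Fintype α] [DecidableEq α] (σ : Perm α)
    (h : orderOf σ = p) (hc : Fintype.card α = p + 1) : σ.cycleType = {p} := by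
  have h1 : (orderOf σ).Prime := by rw [h]; exact hp.out
  obtain ⟨n, hn⟩ := Perm.cycleType_prime_order h1
  have h2 := σ.sum_cycleType
  rw [hn, h] at h2
  have h3 : σ.support.card ≤ p + 1 := by
    rw [← hc]; exact Finset.card_le_univ _
  rw [← h2] at h3
  simp only [Multiset.sum_replicate, smul_eq_mul] at h3
  have h4 := hp.out.two_le
  have h5 : n = 0 := by
    by_contra h0
    have : 1 ≤ n := Nat.one_le_iff_ne_zero.2 h0
    nlinarith
  rw [hn, h, h5]
  rfl

lemma exists_beta [hp : Fact p.Prime] (τ : Perm (Fin (p + 1))) (h : orderOf τ = p) :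
    ∃ β : Fin (p + 1) ≃ Option (ZMod p), ∀ x, β (τ x) = T p (β x) := by
  have hc : Fintype.card (Fin (p + 1)) = Fintype.card (Option (ZMod p)) := by
    simp [ZMod.card]
  let e := Fintype.equivOfCardEq hc
  have h1 : orderOf (e.permCongr τ) = p :=
    (orderOf_injective (e.permCongrHom.toMonoidHom) e.permCongrHom.injective τ).trans h
  have h2 : (e.permCongr τ).cycleType = {p} := cycleType_of_order _ h1 (by simp [ZMod.card])
  have h3 : (T p).cycleType = {p} := cycleType_of_order _ orderOf_T (by simp [ZMod.card])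
  have h4 : IsConj (e.permCongr τ) (T p) := Perm.isConj_iff_cycleType_eq.2 (h2.trans h3.symm)
  obtain ⟨π, hπ⟩ := isConj_iff.1 h4
  refine ⟨e.trans π, fun x => ?_⟩
  rw [← hπ]
  simp [Perm.mul_apply]

/-- a permutation normalising `T` is affine -/
lemma exists_affine [hp : Fact p.Prime] (σ : Perm (Option (ZMod p))) (i : ℕ)
    (h : ∀ z, σ (T p z) = (T p ^ i) (σ z)) :
    ∃ a : (ZMod p)ˣ, ∃ b : ZMod p, ∀ z, σ z = z.map (fun u => (a : ZMod p) * u + b) := by
  have hi : (i : ZMod p) ≠ 0 := by
    intro h0
    have h1 := h (some 0)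
    rw [T_pow_apply, h0] at h1
    have h2 : σ (T p (some 0)) = σ (some 0) := by
      rw [h1]
      cases σ (some 0) <;> simp
    have h3 := σ.injective h2
    simp only [T_apply, Option.map_some, zero_add, Option.some.injEq] at h3
    exact one_ne_zero h3
  have hnone : σ none = none := by
    have h1 := h none
    rw [T_pow_apply] at h1
    have h2 : T p none = none := rfl
    rw [h2] at h1
    cases hs : σ none with
    | none => rfl
    | some u =>
      rw [hs] at h1
      simp only [Option.map_some, Option.some.injEq] at h1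
      exact absurd (by simpa using h1) hi
  have hsome : ∀ u, ∃ v, σ (some u) = some v := by
    intro u
    cases hs : σ (some u) with
    | none =>
      have := σ.injective (hs.trans hnone.symm)
      simp at this
    | some v => exact ⟨v, rfl⟩
  choose f hf using hsome
  have hrec : ∀ u, f (u + 1) = f u + i := by
    intro u
    have h1 := h (some u)
    rw [T_pow_apply, hf] at h1
    have h2 : T p (some u) = some (u + 1) := rfl
    rw [h2, hf] at h1
    simpa using h1
  have hn : ∀ n : ℕ, f (n : ZMod p) = f 0 + i * n := by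
    intro n
    induction n with
    | zero => simp
    | succ n ih =>
      rw [Nat.cast_succ, hrec, ih]
      ring
  refine ⟨Units.mk0 (i : ZMod p) hi, f 0, fun z => ?_⟩
  cases z with
  | none => simpa using hnone
  | some u =>
    rw [hf, Option.map_some, Units.val_mk0]
    have h1 := hn u.val
    rw [ZMod.natCast_zmod_val] at h1
    rw [h1, add_comm]

lemma sign_addRight [hp : Fact p.Prime] (hp2 : p ≠ 2) (b : ZMod p) :
    Perm.sign (Equiv.addRight b : Perm (ZMod p)) = 1 := by
  have hodd : Odd p := hp.out.odd_of_ne_two hp2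
  have h1 : (Equiv.addRight b : Perm (ZMod p)) ^ p = 1 := by
    have : ∀ n : ℕ, ∀ u : ZMod p, ((Equiv.addRight b : Perm (ZMod p)) ^ n) u = u + n * b := by
      intro n
      induction n with
      | zero => intro u; simp
      | succ n ih =>
        intro u
        rw [pow_succ', Perm.mul_apply, ih]
        simp only [Equiv.coe_addRight, Nat.cast_succ]
        ring
    ext u : 1
    rw [this]
    simp
  have h2 := congrArg Perm.sign h1
  rw [map_pow, map_one] at h2
  rcases Int.units_eq_one_or (Perm.sign (Equiv.addRight b : Perm (ZMod p))) with h3 | h3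
  · exact h3
  · rw [h3, hodd.neg_one_pow] at h2
    exact absurd h2 (by decide)

lemma sign_mulLeft_gen [hp : Fact p.Prime] (hp2 : p ≠ 2) (g : (ZMod p)ˣ)
    (hg : ∀ x : (ZMod p)ˣ, x ∈ Subgroup.zpowers g) :
    Perm.sign (Units.mulLeft g : Perm (ZMod p)) = -1 := by
  have hodd : Odd p := hp.out.odd_of_ne_two hp2
  have hp3 : 3 ≤ p := by
    have := hp.out.two_le
    omega
  have hg1 : g ≠ 1 := by
    rintro rfl
    have h1 := hg (-1)
    rw [Subgroup.zpowers_one_eq_bot, Subgroup.mem_bot] at h1
    have h2 := congrArg (Units.val) h1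
    simp only [Units.val_neg, Units.val_one] at h2
    have h3 : (2 : ZMod p) = 0 := by
      linear_combination -h2
    have h4 : ((2 : ℕ) : ZMod p) = 0 := by exact_mod_cast h3
    rw [ZMod.natCast_eq_zero_iff] at h4
    exact hp2 ((Nat.prime_dvd_prime_iff_eq hp.out Nat.prime_two).1 h4)
  have hz : ∀ n : ℤ, ∀ u : ZMod p, ((Units.mulLeft g : Perm (ZMod p)) ^ n) u = ((g ^ n : (ZMod p)ˣ) : ZMod p) * u := by
    intro n u
    have : ((Units.mulLeft g : Perm (ZMod p)) ^ n) = Units.mulLeft (g ^ n) := by
      have h1 : ∀ m : ℕ, ((Units.mulLeft g : Perm (ZMod p)) ^ m) = Units.mulLeft (g ^ m) := by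
        intro m
        induction m with
        | zero => ext u; simp
        | succ m ih =>
          rw [pow_succ, ih]
          ext u
          simp [Perm.mul_apply, pow_succ, mul_assoc]
      cases n with
      | ofNat m => simpa using h1 m
      | negSucc m =>
        rw [zpow_negSucc, zpow_negSucc, h1]
        ext u
        simp [Units.mulLeft]
    rw [this]
    rfl
  have hcyc : (Units.mulLeft g : Perm (ZMod p)).IsCycle := by
    refine ⟨1, ?_, ?_⟩
    · intro h
      apply hg1
      ext
      simpa using h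
    · intro y hy
      have hy0 : y ≠ 0 := by
        rintro rfl
        apply hy
        simp
      obtain ⟨n, hn⟩ := hg (Units.mk0 y hy0)
      refine ⟨n, ?_⟩
      rw [hz]
      have := congrArg Units.val hn
      simpa using this
  have hsupp : (Units.mulLeft g : Perm (ZMod p)).support.card = p - 1 := by
    have h1 : (Units.mulLeft g : Perm (ZMod p)).support = Finset.univ.erase 0 := by
      ext u
      simp only [Perm.mem_support, Units.mulLeft_apply, Finset.mem_erase, Finset.mem_univ, and_true]
      constructor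
      · rintro h rfl
        exact h (by simp)
      · intro h0 h
        apply hg1
        ext
        have : ((g : ZMod p) - 1) * u = 0 := by linear_combination h
        rcases mul_eq_zero.1 this with h2 | h2
        · simpa [sub_eq_zero] using h2
        · exact absurd h2 h0
    rw [h1, Finset.card_erase_of_mem (Finset.mem_univ _), Finset.card_univ, ZMod.card]
  rw [hcyc.sign, hsupp]
  have heven : Even (p - 1) := by
    obtain ⟨k, hk⟩ := hodd
    exact ⟨k, by omega⟩
  rw [heven.neg_one_pow]

lemma pow_of_sign [hp : Fact p.Prime] (hp2 : p ≠ 2) (a : (ZMod p)ˣ)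
    (h : Perm.sign (Units.mulLeft a : Perm (ZMod p)) = 1) : a ^ ((p - 1) / 2) = 1 := by
  have hodd : Odd p := hp.out.odd_of_ne_two hp2
  obtain ⟨g, hg⟩ := IsCyclic.exists_generator (α := (ZMod p)ˣ)
  have hs := sign_mulLeft_gen hp2 g hg
  have hga : a ∈ Submonoid.powers g := mem_powers_iff_mem_zpowers.2 (hg a)
  obtain ⟨k, rfl⟩ := hga
  have h1 : ∀ m : ℕ, ((Units.mulLeft g : Perm (ZMod p)) ^ m) = Units.mulLeft (g ^ m) := by
    intro m
    induction m with
    | zero => ext u; simp
    | succ m ih =>
      rw [pow_succ, ih]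
      ext u
      simp [Perm.mul_apply, pow_succ, mul_assoc]
  simp only at h ⊢
  rw [← h1, map_pow, hs] at h
  have hk : Even k := by
    by_contra hk
    rw [Nat.not_even_iff_odd] at hk
    rw [hk.neg_one_pow] at h
    exact absurd h (by decide)
  obtain ⟨l, rfl⟩ := hk
  have hp1 : (p - 1) / 2 * 2 = p - 1 := by
    obtain ⟨k, hk⟩ := hodd
    omega
  have h2 : g ^ (p - 1) = 1 := ZMod.units_pow_card_sub_one_eq_one p g
  rw [← pow_mul]
  have : (l + l) * ((p - 1) / 2) = (p - 1) * l := by
    rw [← two_mul, mul_comm 2 l, mul_assoc, mul_comm 2, hp1, mul_comm]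
  rw [this, pow_mul, h2, one_pow]

end AffineModel

open AffineModel

/-- (D) structure of admissible subgroups. -/
theorem exists_affine_model (p : ℕ) [Fact p.Prime] (hp5 : 5 ≤ p)
    (I : Subgroup (alternatingGroup (Fin (p + 1))))
    (hI : ∃ P : Subgroup (alternatingGroup (Fin (p + 1))), ∃ g ∈ I,
      P ≤ I ∧ Nat.card P = p ∧ (∀ x ∈ I, ∀ y ∈ P, x * y * x⁻¹ ∈ P) ∧
      ∀ x ∈ I, ∃ n : ℤ, ∃ y ∈ P, x = g ^ n * y) :
    ∃ m : ℕ, m ∣ (p - 1) / 2 ∧ ∃ β : Fin (p + 1) ≃ Option (ZMod p),
      ∀ σ : alternatingGroup (Fin (p + 1)), σ ∈ I ↔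
        ∃ a b : ZMod p, a ^ m = 1 ∧
          ∀ x : Fin (p + 1), β ((σ : Equiv.Perm (Fin (p + 1))) x) =
            (β x).map (fun u => a * u + b) := by
  classical
  have hp2 : p ≠ 2 := by omega
  obtain ⟨P, -, -, hPI, hPcard, hnorm, -⟩ := hI
  -- a generator of `P`
  have : Nontrivial P := by
    rw [← Finite.one_lt_card_iff_nontrivial, hPcard]; omega
  obtain ⟨τ', hτ'⟩ := exists_ne (1 : P)
  have hgen : Subgroup.zpowers τ' = ⊤ := zpowers_eq_top_of_prime_card hPcard hτ'
  set τ : alternatingGroup (Fin (p + 1)) := (τ' : alternatingGroup (Fin (p + 1))) with hτ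
  have hτP : τ ∈ P := τ'.2
  have hord' : orderOf τ' = p := by
    apply orderOf_eq_prime _ hτ'
    have h1 : τ' ^ Nat.card P = 1 := pow_card_eq_one'
    rwa [hPcard] at h1
  have hord : orderOf (τ : Perm (Fin (p + 1))) = p := by
    rw [Subgroup.orderOf_coe, hτ, Subgroup.orderOf_coe, hord']
  have hpow : ∀ y ∈ P, ∃ i : ℕ, y = τ ^ i := by
    intro y hy
    have h1 : (⟨y, hy⟩ : P) ∈ Subgroup.zpowers τ' := by rw [hgen]; trivial
    obtain ⟨i, hi⟩ := mem_powers_iff_mem_zpowers.2 h1
    refine ⟨i, ?_⟩
    have := congrArg (Subtype.val) hi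
    simp only at this
    rw [← this]
    rfl
  obtain ⟨β, hβ⟩ := exists_beta (p := p) (τ : Perm (Fin (p + 1))) hord
  -- affine description
  let Aff : alternatingGroup (Fin (p + 1)) → ZMod p → ZMod p → Prop := fun σ a b =>
    ∀ x : Fin (p + 1), β ((σ : Perm (Fin (p + 1))) x) = (β x).map (fun u => a * u + b)
  have hAffI : ∀ σ ∈ I, ∃ a : (ZMod p)ˣ, ∃ b : ZMod p, Aff σ a b := by
    intro σ hσ
    obtain ⟨i, hi⟩ := hpow _ (hnorm σ hσ τ hτP)
    have h1 : σ * τ = τ ^ i * σ := by
      rw [← hi]; group
    have hβpow : ∀ (n : ℕ) x, β (((τ : Perm (Fin (p + 1))) ^ n) x) = (T p ^ n) (β x) := by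
      intro n
      induction n with
      | zero => intro x; rfl
      | succ n ih =>
        intro x
        rw [pow_succ, pow_succ, Perm.mul_apply, Perm.mul_apply, ih, hβ]
    obtain ⟨a, b, hab⟩ := exists_affine (β.permCongr (σ : Perm (Fin (p + 1)))) i (by
      intro z
      rw [Equiv.permCongr_apply, Equiv.permCongr_apply]
      have h2 : β.symm (T p z) = (τ : Perm (Fin (p + 1))) (β.symm z) := by
        rw [Equiv.symm_apply_eq, hβ, Equiv.apply_symm_apply]
      rw [h2, ← hβpow]
      congr 1
      have h3 := congrArg (fun s : alternatingGroup (Fin (p + 1)) =>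
        (s : Perm (Fin (p + 1))) (β.symm z)) h1
      simpa using h3)
    refine ⟨a, b, fun x => ?_⟩
    have := hab (β x)
    rw [Equiv.permCongr_apply, Equiv.symm_apply_apply] at this
    exact this
  have hAffmul : ∀ σ σ' a b a' b', Aff σ a b → Aff σ' a' b' → Aff (σ * σ') (a * a') (a * b' + b) := by
    intro σ σ' a b a' b' h h' x
    have h1 : ((σ * σ' : alternatingGroup (Fin (p + 1))) : Perm (Fin (p + 1))) x =
      (σ : Perm (Fin (p + 1))) ((σ' : Perm (Fin (p + 1))) x) := rfl
    rw [h1, h, h', Option.map_map]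
    congr 1
    funext u
    simp only [Function.comp]
    ring
  have hAffone : Aff 1 1 0 := by
    intro x
    simp
  have hAffinj : ∀ σ σ' a b, Aff σ a b → Aff σ' a b → σ = σ' := by
    intro σ σ' a b h h'
    apply Subtype.ext
    ext x : 1
    apply β.injective
    rw [h x, h' x]
  have hAffτ : Aff τ 1 1 := by
    intro x
    rw [hβ, T_apply]
    simp
  have hAffτpow : ∀ n : ℕ, Aff (τ ^ n) 1 n := by
    intro n
    induction n with
    | zero => simpa using hAffone
    | succ n ih =>
      have := hAffmul _ _ _ _ _ _ ih hAffτ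
      rw [← pow_succ] at this
      convert this using 1
      · ring
      · push_cast; ring
  -- the image
  let A : Subgroup (ZMod p)ˣ :=
    { carrier := {a | ∃ σ ∈ I, ∃ b, Aff σ a b}
      mul_mem' := by
        rintro a a' ⟨σ, hσ, b, h⟩ ⟨σ', hσ', b', h'⟩
        exact ⟨σ * σ', I.mul_mem hσ hσ', _, by
          rw [Units.val_mul]; exact hAffmul _ _ _ _ _ _ h h'⟩
      one_mem' := ⟨1, I.one_mem, 0, by rw [Units.val_one]; exact hAffone⟩
      inv_mem' := by
        rintro a ⟨σ, hσ, b, h⟩
        refine ⟨σ⁻¹, I.inv_mem hσ, -((a⁻¹ : (ZMod p)ˣ) : ZMod p) * b, fun x => ?_⟩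
        have h1 := h (((σ⁻¹ : alternatingGroup (Fin (p + 1))) : Perm (Fin (p + 1))) x)
        have h2 : (σ : Perm (Fin (p + 1)))
            (((σ⁻¹ : alternatingGroup (Fin (p + 1))) : Perm (Fin (p + 1))) x) = x := by
          have : ((σ * σ⁻¹ : alternatingGroup (Fin (p + 1))) : Perm (Fin (p + 1))) x = x := by
            rw [mul_inv_cancel]; rfl
          exact this
        rw [h2] at h1
        rw [h1, Option.map_map]
        have h3 : ((fun u => ((a⁻¹ : (ZMod p)ˣ) : ZMod p) * u + -((a⁻¹ : (ZMod p)ˣ) : ZMod p) * b) ∘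
            fun u => (a : ZMod p) * u + b) = id := by
          funext u
          simp only [Function.comp, id]
          have h4 : ((a⁻¹ : (ZMod p)ˣ) : ZMod p) * (a : ZMod p) = 1 := by
            rw [← Units.val_mul, inv_mul_cancel, Units.val_one]
          linear_combination u * h4
        rw [h3, Option.map_id, id] }
  have hAmem : ∀ a : (ZMod p)ˣ, a ∈ A ↔ ∃ σ ∈ I, ∃ b, Aff σ a b := fun a => Iff.rfl
  -- `A` is the group of solutions of `a ^ m = 1`
  set m := Nat.card A with hm
  have hm0 : 0 < m := Nat.card_pos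
  have hA1 : ∀ a : (ZMod p)ˣ, a ∈ A ↔ a ^ m = 1 := by
    have hsub : (Finset.univ.filter (fun a : (ZMod p)ˣ => a ∈ A)) ⊆
        Finset.univ.filter (fun a : (ZMod p)ˣ => a ^ m = 1) := by
      intro a ha
      rw [Finset.mem_filter] at ha ⊢
      refine ⟨Finset.mem_univ _, ?_⟩
      have h1 : (⟨a, ha.2⟩ : A) ^ Nat.card A = 1 := pow_card_eq_one'
      have h2 := congrArg Subtype.val h1
      exact h2
    have hcard : (Finset.univ.filter (fun a : (ZMod p)ˣ => a ∈ A)).card = m := by
      rw [hm, Nat.card_eq_fintype_card, Fintype.card_subtype]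
    have hle : (Finset.univ.filter (fun a : (ZMod p)ˣ => a ^ m = 1)).card ≤ m :=
      IsCyclic.card_pow_eq_one_le hm0
    have heq := Finset.eq_of_subset_of_card_le hsub (by rw [hcard]; exact hle)
    intro a
    have := Finset.ext_iff.1 heq a
    simpa using this
  refine ⟨m, ?_, β, ?_⟩
  · -- divisibility
    have hexp : ∀ a ∈ A, a ^ ((p - 1) / 2) = 1 := by
      rintro a ⟨σ, hσ, b, h⟩
      apply pow_of_sign hp2
      have h1 : β.permCongr (σ : Perm (Fin (p + 1))) = optionCongr (aff a b) := by
        ext z : 1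
        rw [Equiv.permCongr_apply, h, Equiv.apply_symm_apply]
        rfl
      have h2 : Perm.sign (aff a b) = 1 := by
        rw [← optionCongr_sign, ← h1, Perm.sign_permCongr]
        exact Perm.mem_alternatingGroup.1 σ.2
      have h3 : aff a b = (Equiv.addRight b : Perm (ZMod p)) * Units.mulLeft a := rfl
      rw [h3, map_mul, sign_addRight hp2, one_mul] at h2
      exact h2
    obtain ⟨g, hg⟩ := IsCyclic.exists_generator (α := A)
    have h1 : orderOf g = m := orderOf_eq_card_of_forall_mem_zpowers hg
    rw [← h1]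
    apply orderOf_dvd_of_pow_eq_one
    apply Subtype.ext
    have := hexp g g.2
    simpa using this
  · intro σ
    constructor
    · intro hσ
      obtain ⟨a, b, hab⟩ := hAffI σ hσ
      refine ⟨a, b, ?_, hab⟩
      have h1 := (hA1 a).1 ((hAmem a).2 ⟨σ, hσ, b, hab⟩)
      rw [← Units.val_pow_eq_pow_val, h1, Units.val_one]
    · rintro ⟨a, b, ha, hab⟩
      have ha0 : a ≠ 0 := by
        rintro rfl
        rw [zero_pow hm0.ne'] at ha
        exact zero_ne_one ha
      set a' := Units.mk0 a ha0 with ha'
      have h1 : a' ∈ A := by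
        rw [hA1]
        ext
        rw [Units.val_pow_eq_pow_val, ha', Units.val_mk0, ha, Units.val_one]
      obtain ⟨σ1, hσ1, b1, h⟩ := (hAmem a').1 h1
      rw [ha', Units.val_mk0] at h
      have h2 := hAffmul _ _ _ _ _ _ (hAffτpow (b - b1).val) h
      rw [ZMod.natCast_zmod_val] at h2
      have h3 : Aff (τ ^ (b - b1).val * σ1) a b := by
        convert h2 using 1 <;> ring
      rw [hAffinj _ _ _ _ hab h3]
      exact I.mul_mem (I.pow_mem (hPI hτP) _) hσ1

end Pool.Agent.Lib.MP_2d3c11_ag
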