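import Mathlib
import Pool.Agent.Lib.MP_2d3c11_ag.PolyF

set_option autoImplicit false

open Polynomial

namespace Pool.Agent.Lib.MP_2d3c11_ag

/-- The polynomial has no root in `k[X]`. -/
theorem no_poly_root {p e N : ℕ} {k : Type*} [Field k] [CharP k p] (hp : p.Prime) (he3 : 3 ≤ e)
    (hep : e < p) (hN : 0 < N) (b : k[X])
    (h : (b ^ p - X ^ N) * ((e : k[X]) * b - ((e : k[X]) - 1)) - b ^ e = 0) : False := by
  have he0 := cast_e_ne_zero (K := k) hp he3 hep
  have he1 := cast_e_sub_ne_zero (K := k) hp he3 hep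
  -- `e b - (e-1)` is a unit
  have hcop : IsCoprime b ((e : k[X]) * b - (e - 1)) := by
    refine ⟨C ((e : k) / (e - 1)), C (-1 / ((e : k) - 1)), ?_⟩
    have h1 : (C ((e : k) / (e - 1)) : k[X]) = (e : k[X]) * C (1 / ((e : k) - 1)) := by
      rw [← C_eq_natCast, ← C_mul]
      congr 1
      ring
    have h2 : (C (-1 / ((e : k) - 1)) : k[X]) = - C (1 / ((e : k) - 1)) := by
      rw [← C_neg]
      congr 1
      ring
    have h3 : ((e : k[X]) - 1) * C (1 / ((e : k) - 1)) = 1 := by
      rw [← C_eq_natCast, ← C_1, ← C_sub, ← C_mul, mul_one_div_cancel he1]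
    rw [h1, h2]
    linear_combination h3
  have hdvd : ((e : k[X]) * b - (e - 1)) ∣ b ^ e := ⟨b ^ p - X ^ N, by
    linear_combination -h⟩
  have hunit : IsUnit ((e : k[X]) * b - (e - 1)) := by
    have := (hcop.pow_left (m := e)).symm
    exact this.isUnit_of_dvd' dvd_rfl hdvd
  obtain ⟨c, hc, hc'⟩ := Polynomial.isUnit_iff.1 hunit
  -- so `b` is constant
  have hb : b = C ((c + (e - 1)) / e) := by
    have h1 : C (e : k) * b = C (c + (e - 1)) := by
      rw [C_add, hc', C_sub, C_eq_natCast, C_1]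
      ring
    have h2 : (C ((c + (e - 1)) / e) : k[X]) = C ((e : k)⁻¹) * C (c + (e - 1)) := by
      rw [← C_mul]
      congr 1
      field_simp
    rw [h2, ← h1, ← mul_assoc, ← C_mul, inv_mul_cancel₀ he0, C_1, one_mul]
  set β : k := (c + (e - 1)) / e with hβ
  rw [← hc', hb] at h
  have h3 : (C (β ^ p) - X ^ N) * C c = C (β ^ e) := by
    rw [C_pow, C_pow]
    linear_combination h
  have h4 := congrArg (fun f => Polynomial.coeff f N) h3
  simp only [sub_mul, coeff_sub, coeff_mul_C, coeff_C, coeff_X_pow, if_neg hN.ne', if_true,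
    zero_mul, one_mul, zero_sub] at h4
  have h5 : c = 0 := by linear_combination -h4
  rw [h5] at hc
  exact not_isUnit_zero hc

theorem no_ratFunc_root {p e N : ℕ} {k : Type*} [Field k] [CharP k p] (hp : p.Prime) (he3 : 3 ≤ e)
    (hep : e < p) (hN : 0 < N) (a : RatFunc k)
    (h : (a ^ p - RatFunc.X ^ N) * ((e : RatFunc k) * a - ((e : RatFunc k) - 1)) - a ^ e = 0) :
    False := by
  have he0 := cast_e_ne_zero (K := k) hp he3 hep
  have hint : IsIntegral k[X] a := by
    refine ⟨(X ^ p - C (X ^ N)) * (X - C (C (((e : k) - 1) / e))) - C (C ((e : k)⁻¹)) * X ^ e,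
      ?_, ?_⟩
    · apply Monic.sub_of_left
      · exact (monic_X_pow_sub_C _ hp.ne_zero).mul (monic_X_sub_C _)
      · refine lt_of_le_of_lt (degree_C_mul_X_pow_le _ _) ?_
        rw [degree_mul, degree_X_pow_sub_C hp.pos, degree_X_sub_C]
        norm_cast
        omega
    · have he0' : (e : RatFunc k) ≠ 0 := by
        have : algebraMap k (RatFunc k) (e : k) ≠ 0 := by
          rw [Ne, map_eq_zero]
          exact he0
        rwa [map_natCast] at this
      have hc : ∀ c : k, algebraMap k[X] (RatFunc k) (C c) = algebraMap k (RatFunc k) c := by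
        intro c
        rw [← Polynomial.algebraMap_eq, ← IsScalarTower.algebraMap_apply k k[X] (RatFunc k)]
      rw [eval₂_sub, eval₂_mul, eval₂_mul, eval₂_sub, eval₂_sub, eval₂_X_pow, eval₂_X_pow,
        eval₂_X, eval₂_C, eval₂_C, eval₂_C, hc, hc, map_pow, RatFunc.algebraMap_X, map_div₀,
        map_inv₀, map_sub, map_natCast, map_one]
      field_simp
      linear_combination h
  obtain ⟨b, hb⟩ := IsIntegrallyClosed.isIntegral_iff.1 hint
  apply no_poly_root hp he3 hep hN b
  apply IsFractionRing.injective k[X] (RatFunc k)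
  rw [map_zero]
  simp only [map_sub, map_mul, map_pow, map_natCast, map_one, RatFunc.algebraMap_X, hb]
  exact h

end Pool.Agent.Lib.MP_2d3c11_ag
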