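import Mathlib

set_option autoImplicit false
set_option linter.unusedSectionVars false

open IsDedekindDomain

namespace Pool.Agent.Lib.MP_2d3c11_ag

section general

variable (A K L : Type*) [CommRing A] [IsDedekindDomain A] [Field K] [Algebra A K]
  [IsFractionRing A K] [Field L] [Algebra K L] [Algebra A L] [IsScalarTower A K L]
  [FiniteDimensional K L] [IsGalois K L]

include K

theorem isDedekindDomain_S : IsDedekindDomain (integralClosure A L) :=
  integralClosure.isDedekindDomain A K L

theorem isFractionRing_S : IsFractionRing (integralClosure A L) L :=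
  integralClosure.isFractionRing_of_finite_extension K L

theorem finite_S : Module.Finite A (integralClosure A L) :=
  IsIntegralClosure.finite A K L (integralClosure A L)

theorem isTorsionFree_S : Module.IsTorsionFree A (integralClosure A L) := by
  have : FaithfulSMul A L := by
    rw [faithfulSMul_iff_algebraMap_injective, IsScalarTower.algebraMap_eq A K L]
    exact (algebraMap K L).injective.comp (IsFractionRing.injective A K)
  infer_instance

theorem isGaloisGroup_S : IsGaloisGroup Gal(L/K) A (integralClosure A L) := by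
  have := isFractionRing_S A K L
  exact IsGaloisGroup.of_isFractionRing _ _ _ K L

open WithZero in
theorem dvd_card_inertia (v : HeightOneSpectrum A) [PerfectField v.asIdeal.ResidueField]
    [IsDedekindDomain (integralClosure A L)] [IsFractionRing (integralClosure A L) L]
    (w : HeightOneSpectrum (integralClosure A L)) [w.asIdeal.LiesOver v.asIdeal]
    (a : L) (b : K) (m q : ℕ) (hb : v.valuation K b = exp (1 : ℤ))
    (h : w.valuation L a ^ m = w.valuation L (algebraMap K L b) ^ q) (hcop : Nat.Coprime m q)
    (hm : m ≠ 0) :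
    m ∣ Nat.card (w.asIdeal.inertia Gal(L/K)) := by
  have h1 := finite_S A K L
  have h2 := isTorsionFree_S A K L
  have h3 := isGaloisGroup_S A K L
  have : v.asIdeal.IsPrime := v.isPrime
  have : w.asIdeal.IsPrime := w.isPrime
  rw [Ideal.card_inertia_eq_ramificationIdxIn v.asIdeal w.asIdeal,
    Ideal.ramificationIdxIn_eq_ramificationIdx v.asIdeal w.asIdeal Gal(L/K),
    ← Ideal.ramificationIdx'_eq_ramificationIdx v.asIdeal w.asIdeal v.ne_bot]
  rw [← HeightOneSpectrum.valuation_liesOver L v w b, hb] at h
  set e := v.asIdeal.ramificationIdx' w.asIdeal with he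
  have ha : w.valuation L a ≠ 0 := by
    intro h0
    rw [h0, zero_pow hm] at h
    exact pow_ne_zero _ (pow_ne_zero _ (exp_ne_zero)) h.symm
  obtain ⟨α, hα⟩ : ∃ α : ℤ, w.valuation L a = exp α := ⟨log (w.valuation L a), (exp_log ha).symm⟩
  rw [hα] at h
  have h5 : (m : ℤ) * α = (e : ℤ) * q := by
    have := congrArg log h
    simp only [log_pow, log_exp] at this
    simpa [mul_comm] using this
  have h6 : (m : ℤ) ∣ (e : ℤ) * q := ⟨α, h5.symm⟩
  have h7 : IsCoprime (m : ℤ) (q : ℤ) := by exact_mod_cast Nat.isCoprime_iff_coprime.mpr hcop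
  exact_mod_cast h7.dvd_of_dvd_mul_right h6

theorem mem_inertia_iff [IsDedekindDomain (integralClosure A L)]
    [IsFractionRing (integralClosure A L) L]
    (w : HeightOneSpectrum (integralClosure A L)) (σ : Gal(L/K)) :
    σ ∈ w.asIdeal.inertia Gal(L/K) ↔
      ∀ a : L, w.valuation L a ≤ 1 → w.valuation L (σ a - a) < 1 := by
  constructor
  · intro h a ha
    obtain ⟨n, d, hnd⟩ := w.exists_primeCompl_mul_eq_of_integer a ha
    have hmem : ∀ x : integralClosure A L, w.valuation L (σ (x : L) - x) < 1 := by
      intro x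
      have h1 : σ • x - x ∈ w.asIdeal := h x
      rw [← w.valuation_lt_one_iff_mem (K := L)] at h1
      exact h1
    have hle : ∀ x : integralClosure A L, w.valuation L (x : L) ≤ 1 := fun x => w.valuation_le_one x
    have hd : w.valuation L (d.1 : L) = 1 :=
      (w.valuation_eq_one_iff_notMem (K := L)).2 d.2
    have hσd : w.valuation L (σ (d.1 : L)) = 1 := by
      have := Valuation.map_add_eq_of_lt_left (w.valuation L) (x := (d.1 : L)) (y := σ (d.1 : L) - d.1)
        (by rw [hd]; exact hmem d.1)
      rw [add_sub_cancel, hd] at this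
      exact this
    have key : (σ a - a) * σ (d.1 : L) = (σ (n : L) - n) + a * (d.1 - σ (d.1 : L)) := by
      have h1 : a * (d.1 : L) = n := hnd
      rw [← h1, map_mul]
      ring
    have : w.valuation L ((σ a - a) * σ (d.1 : L)) < 1 := by
      rw [key]
      refine lt_of_le_of_lt (Valuation.map_add _ _ _) (max_lt (hmem n) ?_)
      rw [map_mul, Valuation.map_sub_swap]
      calc _ ≤ 1 * w.valuation L (σ (d.1 : L) - d.1) := mul_le_mul_left ha _
        _ < 1 := by rw [one_mul]; exact hmem d.1
    rwa [map_mul, hσd, mul_one] at this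
  · intro h x
    change σ • x - x ∈ w.asIdeal
    rw [← w.valuation_lt_one_iff_mem (K := L)]
    exact h x (w.valuation_le_one x)

theorem exists_residue (k : Type*) [Field k] [IsAlgClosed k] [Algebra k A]
    [IsDedekindDomain (integralClosure A L)] [IsFractionRing (integralClosure A L) L]
    (v : HeightOneSpectrum A) (hres : ∀ a : A, ∃ c : k, a - algebraMap k A c ∈ v.asIdeal)
    (w : HeightOneSpectrum (integralClosure A L)) [w.asIdeal.LiesOver v.asIdeal]
    (x : L) (hx : w.valuation L x ≤ 1) :
    ∃ c : k, w.valuation L (x - algebraMap A L (algebraMap k A c)) < 1 := by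
  have : w.asIdeal.IsPrime := w.isPrime
  -- first for elements of the integral closure
  have hS : ∀ s : integralClosure A L, ∃ c : k,
      s - algebraMap A _ (algebraMap k A c) ∈ w.asIdeal := by
    intro s
    have hint : Algebra.IsIntegral A (integralClosure A L) :=
      IsIntegralClosure.isIntegral_algebra A (A := integralClosure A L) L
    set g : A →+* (integralClosure A L) ⧸ w.asIdeal :=
      (Ideal.Quotient.mk w.asIdeal).comp (algebraMap A (integralClosure A L)) with hg
    set j : k →+* (integralClosure A L) ⧸ w.asIdeal := g.comp (algebraMap k A) with hj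
    have hgj : ∀ a : A, ∃ c : k, j c = g a := by
      intro a
      obtain ⟨c, hc⟩ := hres a
      refine ⟨c, ?_⟩
      rw [hj, RingHom.comp_apply, eq_comm, ← sub_eq_zero, ← map_sub, hg, RingHom.comp_apply,
        Ideal.Quotient.eq_zero_iff_mem, ← Ideal.mem_comap, ← Ideal.under_def,
        ← Ideal.over_def w.asIdeal v.asIdeal]
      exact hc
    have h1 : j.IsIntegral := by
      intro y
      obtain ⟨y, rfl⟩ := Ideal.Quotient.mk_surjective y
      obtain ⟨f, hf, hfy⟩ := hint.isIntegral y
      have hl : f.map g ∈ Polynomial.lifts j := by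
        rw [Polynomial.lifts_iff_coeff_lifts]
        intro n
        rw [Polynomial.coeff_map]
        obtain ⟨c, hc⟩ := hgj (f.coeff n)
        exact ⟨c, hc⟩
      obtain ⟨q, hq, -, hqm⟩ := Polynomial.lifts_and_natDegree_eq_and_monic hl (hf.map g)
      refine ⟨q, hqm, ?_⟩
      rw [← Polynomial.eval_map, hq, Polynomial.eval_map, hg, ← Polynomial.hom_eval₂, hfy, map_zero]
    obtain ⟨c, hc⟩ := (IsAlgClosed.ringHom_bijective_of_isIntegral j h1).2
      (Ideal.Quotient.mk w.asIdeal s)
    refine ⟨c, ?_⟩
    rw [← Ideal.Quotient.eq_zero_iff_mem, map_sub, sub_eq_zero]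
    exact hc.symm
  obtain ⟨n, d, hnd⟩ := w.exists_primeCompl_mul_eq_of_integer x hx
  obtain ⟨c, hc⟩ := hS n
  obtain ⟨d', hd'⟩ := hS d.1
  have hcv : ∀ c : k, c ≠ 0 → w.valuation L (algebraMap A L (algebraMap k A c)) = 1 := by
    intro c hc
    have h1 : ∀ c : k, w.valuation L (algebraMap A L (algebraMap k A c)) ≤ 1 := by
      intro c
      rw [IsScalarTower.algebraMap_apply A (integralClosure A L) L]
      exact w.valuation_le_one _
    have h2 : w.valuation L (algebraMap A L (algebraMap k A c)) *
        w.valuation L (algebraMap A L (algebraMap k A c⁻¹)) = 1 := by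
      rw [← map_mul, ← map_mul, ← map_mul, mul_inv_cancel₀ hc, map_one, map_one, map_one]
    refine le_antisymm (h1 c) ?_
    by_contra h3
    have h4 := lt_of_le_of_lt (mul_le_of_le_one_right' (h1 c⁻¹)) (not_le.1 h3)
    exact h4.ne h2
  have hdv : w.valuation L (algebraMap (integralClosure A L) L d.1) = 1 :=
    (w.valuation_eq_one_iff_notMem (K := L)).2 d.2
  have hc' : w.valuation L ((n : L) - algebraMap A L (algebraMap k A c)) < 1 :=
    (w.valuation_lt_one_iff_mem (K := L) _).2 hc
  have hd'' : w.valuation L ((d.1 : L) - algebraMap A L (algebraMap k A d')) < 1 :=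
    (w.valuation_lt_one_iff_mem (K := L) _).2 hd'
  have hd0 : d' ≠ 0 := by
    rintro rfl
    rw [map_zero, map_zero, sub_zero] at hd''
    exact hd''.ne hdv
  refine ⟨c / d', ?_⟩
  have key : (x - algebraMap A L (algebraMap k A (c / d'))) * (d.1 : L) =
      ((n : L) - algebraMap A L (algebraMap k A c)) -
      algebraMap A L (algebraMap k A (c / d')) *
        ((d.1 : L) - algebraMap A L (algebraMap k A d')) := by
    have h1 : x * (d.1 : L) = n := hnd
    have h2 : algebraMap A L (algebraMap k A (c / d')) * algebraMap A L (algebraMap k A d') =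
        algebraMap A L (algebraMap k A c) := by
      rw [← map_mul, ← map_mul, div_mul_cancel₀ _ hd0]
    rw [sub_mul, h1, mul_sub, h2]
    ring
  have h3 := congrArg (w.valuation L) key
  rw [map_mul] at h3
  have h4 : w.valuation L (d.1 : L) = 1 := hdv
  rw [h4, mul_one] at h3
  rw [h3]
  refine lt_of_le_of_lt (Valuation.map_sub _ _ _) (max_lt hc' ?_)
  rw [map_mul]
  rcases eq_or_ne (c / d') 0 with h0 | h0
  · rw [h0, map_zero, map_zero, map_zero, zero_mul]
    exact zero_lt_one
  · rw [hcv _ h0, one_mul]
    exact hd''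

theorem exists_adjust [IsDedekindDomain (integralClosure A L)]
    [IsFractionRing (integralClosure A L) L]
    (v : HeightOneSpectrum A)
    (w : HeightOneSpectrum (integralClosure A L)) [w.asIdeal.LiesOver v.asIdeal]
    (Ψ : L ≃+* L) (φ : A ≃+* A) (hΨ : ∀ a : A, Ψ (algebraMap A L a) = algebraMap A L (φ a))
    (hφ : ∀ a : A, φ a ∈ v.asIdeal ↔ a ∈ v.asIdeal) :
    ∃ γ : Gal(L/K), (∀ x : L, w.valuation L x ≤ 1 → w.valuation L (Ψ (γ x)) ≤ 1) ∧
      (∀ x : L, w.valuation L x < 1 → w.valuation L (Ψ (γ x)) < 1) := by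
  have h1 := finite_S A K L
  have h2 := isTorsionFree_S A K L
  have h3 := isGaloisGroup_S A K L
  have : v.asIdeal.IsPrime := v.isPrime
  have : w.asIdeal.IsPrime := w.isPrime
  have hint : ∀ x : L, IsIntegral A x → IsIntegral A (Ψ x) := by
    intro x hx
    refine hx.map_of_comp_eq φ.toRingHom Ψ.toRingHom ?_
    ext a
    exact (hΨ a).symm
  let ψ : integralClosure A L →+* integralClosure A L :=
    { toFun := fun x => ⟨Ψ x, hint x x.2⟩
      map_one' := by ext; simp
      map_zero' := by ext; simp
      map_mul' := by intro x y; ext; simp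
      map_add' := by intro x y; ext; simp }
  have hψ : ∀ x : integralClosure A L, ((ψ x : integralClosure A L) : L) = Ψ x := fun x => rfl
  have hover : (w.asIdeal.comap ψ).LiesOver v.asIdeal := by
    constructor
    ext a
    have hw : w.asIdeal.under A = v.asIdeal := (Ideal.over_def w.asIdeal v.asIdeal).symm
    have e1 : ψ (algebraMap A (integralClosure A L) a) =
        algebraMap A (integralClosure A L) (φ a) := by
      ext
      exact hΨ a
    rw [Ideal.under_def, Ideal.mem_comap, Ideal.mem_comap, e1, ← Ideal.mem_comap,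
      ← Ideal.under_def, hw, hφ]
  obtain ⟨γ, hγ⟩ := Ideal.exists_smul_eq_of_isGaloisGroup v.asIdeal w.asIdeal (w.asIdeal.comap ψ)
    Gal(L/K)
  have hγ1 : ∀ s : integralClosure A L, ψ (γ • s) ∈ w.asIdeal ↔ s ∈ w.asIdeal := by
    intro s
    rw [← Ideal.mem_comap, ← hγ, Ideal.smul_mem_pointwise_smul_iff]
  have hlt : ∀ s : integralClosure A L, w.valuation L (Ψ (γ (s : L))) < 1 ↔ s ∈ w.asIdeal := by
    intro s
    rw [← hγ1 s, ← w.valuation_lt_one_iff_mem (K := L)]
    rfl
  have hle : ∀ s : integralClosure A L, w.valuation L (Ψ (γ (s : L))) ≤ 1 := by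
    intro s
    exact w.valuation_le_one (ψ (γ • s))
  have heq : ∀ s : integralClosure A L, s ∉ w.asIdeal → w.valuation L (Ψ (γ (s : L))) = 1 := by
    intro s hs
    exact le_antisymm (hle s) (not_lt.1 fun h => hs ((hlt s).1 h))
  refine ⟨γ, ?_, ?_⟩
  · intro x hx
    obtain ⟨n, d, hnd⟩ := w.exists_primeCompl_mul_eq_of_integer x hx
    have h4 : Ψ (γ x) * Ψ (γ (d.1 : L)) = Ψ (γ (n : L)) := by
      rw [← map_mul, ← map_mul]
      exact congrArg (fun y => Ψ (γ y)) hnd
    have h5 := congrArg (w.valuation L) h4
    rw [map_mul, heq d.1 d.2, mul_one] at h5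
    rw [h5]
    exact hle n
  · intro x hx
    obtain ⟨n, d, hnd⟩ := w.exists_primeCompl_mul_eq_of_integer x hx.le
    have h4 : Ψ (γ x) * Ψ (γ (d.1 : L)) = Ψ (γ (n : L)) := by
      rw [← map_mul, ← map_mul]
      exact congrArg (fun y => Ψ (γ y)) hnd
    have h5 := congrArg (w.valuation L) h4
    rw [map_mul, heq d.1 d.2, mul_one] at h5
    have h6 : w.valuation L (algebraMap (integralClosure A L) L n) < 1 := by
      rw [← hnd, map_mul, (w.valuation_eq_one_iff_notMem (K := L)).2 d.2, mul_one]
      exact hx
    rw [h5, hlt, ← w.valuation_lt_one_iff_mem (K := L)]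
    exact h6

end general

end Pool.Agent.Lib.MP_2d3c11_ag
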