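import Mathlib
import Pool.Agent.Lib.MP_2d3c11_ag.Ram

set_option autoImplicit false
set_option linter.unusedSectionVars false

open IsDedekindDomain WithZero Polynomial

namespace Pool.Agent.Lib.MP_2d3c11_ag

/-- Residue fields of a `k`-algebra at a point rational over an algebraically closed field. -/
theorem perfectField_residueField (k A : Type) [Field k] [IsAlgClosed k] [CommRing A]
    [Algebra k A] (P : Ideal A) [P.IsMaximal]
    (hres : ∀ a : A, ∃ c : k, a - algebraMap k A c ∈ P) : PerfectField P.ResidueField := by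
  let f : k →+* P.ResidueField :=
    ((algebraMap (A ⧸ P) P.ResidueField).comp (Ideal.Quotient.mk P)).comp (algebraMap k A)
  have hf : Function.Bijective f := by
    refine ⟨f.injective, ?_⟩
    intro y
    obtain ⟨y, rfl⟩ := P.bijective_algebraMap_quotient_residueField.2 y
    obtain ⟨y, rfl⟩ := Ideal.Quotient.mk_surjective y
    obtain ⟨c, hc⟩ := hres y
    refine ⟨c, ?_⟩
    have : Ideal.Quotient.mk P y = Ideal.Quotient.mk P (algebraMap k A c) := by
      rw [← sub_eq_zero, ← map_sub, Ideal.Quotient.eq_zero_iff_mem]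
      exact hc
    rw [this]
    rfl
  have : IsAlgClosed P.ResidueField := IsAlgClosed.of_ringEquiv k _ (RingEquiv.ofBijective f hf)
  infer_instance

section inv

variable (k : Type) [Field k]

/-- The substitution `X ↦ X⁻¹` of `k(X)`. -/
noncomputable def invHom : RatFunc k →ₐ[k] RatFunc k :=
  (IntermediateField.val _).comp
    (RatFunc.algEquivOfTranscendental (RatFunc.X⁻¹ : RatFunc k)
      (by
        intro h
        exact RatFunc.transcendental_X (IsAlgebraic.inv_iff.1 h))).toAlgHom

theorem invHom_X : invHom k RatFunc.X = RatFunc.X⁻¹ := by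
  exact RatFunc.algEquivOfTranscendental_X _ _

theorem invHom_invHom (f : RatFunc k) : invHom k (invHom k f) = f := by
  have : (invHom k).comp (invHom k) = AlgHom.id k _ := by
    apply IsLocalization.algHom_ext (nonZeroDivisors k[X])
    ext
    change invHom k (invHom k (algebraMap k[X] (RatFunc k) X)) = algebraMap k[X] (RatFunc k) X
    rw [RatFunc.algebraMap_X, invHom_X, map_inv₀, invHom_X, inv_inv]
  exact DFunLike.congr_fun this f

/-- `invHom` as an automorphism. -/
noncomputable def invEquiv : RatFunc k ≃ₐ[k] RatFunc k :=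
  AlgEquiv.ofAlgHom (invHom k) (invHom k) (by ext f; exact invHom_invHom k f)
    (by ext f; exact invHom_invHom k f)

/-- The polynomial ring in `X⁻¹`. -/
def Ainf : Type := Polynomial k

noncomputable instance : CommRing (Ainf k) := inferInstanceAs (CommRing (Polynomial k))
instance : IsDomain (Ainf k) := inferInstanceAs (IsDomain (Polynomial k))
instance : IsPrincipalIdealRing (Ainf k) := inferInstanceAs (IsPrincipalIdealRing (Polynomial k))
instance : IsDedekindDomain (Ainf k) := inferInstanceAs (IsDedekindDomain (Polynomial k))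
noncomputable instance : Algebra k (Ainf k) := inferInstanceAs (Algebra k (Polynomial k))

noncomputable instance : Algebra (Ainf k) (RatFunc k) :=
  ((invHom k).toRingHom.comp (algebraMap k[X] (RatFunc k))).toAlgebra

theorem algebraMap_Ainf (f : Ainf k) :
    algebraMap (Ainf k) (RatFunc k) f = invHom k (algebraMap k[X] (RatFunc k) f) := rfl

instance : IsFractionRing (Ainf k) (RatFunc k) := by
  have h : IsLocalization (nonZeroDivisors k[X]) (RatFunc k) :=
    (inferInstance : IsFractionRing k[X] (RatFunc k))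
  exact @IsLocalization.isLocalization_of_algEquiv k[X] _ (nonZeroDivisors k[X])
      (RatFunc k) _ (inferInstanceAs (Algebra k[X] (RatFunc k))) (RatFunc k) _
      (inferInstanceAs (Algebra (Ainf k) (RatFunc k))) h
      (@AlgEquiv.ofRingEquiv k[X] (RatFunc k) (RatFunc k) _ _ _
        (inferInstanceAs (Algebra k[X] (RatFunc k)))
        (inferInstanceAs (Algebra (Ainf k) (RatFunc k)))
        (invEquiv k).toRingEquiv (fun _ => rfl))

/-- The infinite place as a height one prime. -/
noncomputable def vinf : HeightOneSpectrum (Ainf k) := idealX k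

/-- The variable of `Ainf k`, which is the inverse of `RatFunc.X`. -/
noncomputable def Uinf : Ainf k := (X : k[X])

theorem vinf_valuation_X : (vinf k).valuation (RatFunc k) RatFunc.X = exp (1 : ℤ) := by
  have h1 : algebraMap (Ainf k) (RatFunc k) (Uinf k) = RatFunc.X⁻¹ := by
    change invHom k (algebraMap k[X] (RatFunc k) X) = _
    rw [RatFunc.algebraMap_X, invHom_X]
  have h2 : (vinf k).valuation (RatFunc k) (RatFunc.X⁻¹) = exp (-1 : ℤ) := by
    rw [← h1, HeightOneSpectrum.valuation_of_algebraMap]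
    exact HeightOneSpectrum.intValuation_singleton _ (r := Uinf k) (Polynomial.X_ne_zero)
      (idealX_span k)
  rw [map_inv₀] at h2
  rw [← inv_inv ((vinf k).valuation (RatFunc k) RatFunc.X), h2, exp_neg, inv_inv]

theorem vinf_res (a : Ainf k) : ∃ c : k, a - algebraMap k (Ainf k) c ∈ (vinf k).asIdeal := by
  let b : k[X] := a
  refine ⟨b.coeff 0, ?_⟩
  change b - C (b.coeff 0) ∈ Ideal.span {X}
  rw [Ideal.mem_span_singleton, Polynomial.X_dvd_iff]
  simp

end inv

section inf

variable (k : Type) [Field k] [IsAlgClosed k] (L : Type) [Field L] [Algebra (RatFunc k) L]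
  [FiniteDimensional (RatFunc k) L] [IsGalois (RatFunc k) L]

theorem const_val {A : Type} [CommRing A] [IsDedekindDomain A] [Algebra k A] [Algebra A L]
    [IsFractionRing A L] (w : HeightOneSpectrum A) (c : k) (hc : c ≠ 0) :
    w.valuation L (algebraMap A L (algebraMap k A c)) = 1 := by
  have h1 : ∀ c : k, w.valuation L (algebraMap A L (algebraMap k A c)) ≤ 1 := by
    intro c
    exact w.valuation_le_one _
  have h2 : w.valuation L (algebraMap A L (algebraMap k A c)) *
      w.valuation L (algebraMap A L (algebraMap k A c⁻¹)) = 1 := by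
    rw [← map_mul, ← map_mul, ← map_mul, mul_inv_cancel₀ hc, map_one, map_one, map_one]
  refine le_antisymm (h1 c) ?_
  by_contra h3
  have h4 := lt_of_le_of_lt (mul_le_of_le_one_right' (h1 c⁻¹)) (not_le.1 h3)
  exact h4.ne h2

theorem exists_inf_valuation :
    ∃ w : Valuation L ℤᵐ⁰,
      (∀ c : k, c ≠ 0 →
        w (algebraMap (RatFunc k) L (algebraMap k (RatFunc k) c)) = 1) ∧
      1 < w (algebraMap (RatFunc k) L RatFunc.X) ∧
      ∀ (m q : ℕ) (a : L), m ≠ 0 → Nat.Coprime m q →
        w a ^ m = w (algebraMap (RatFunc k) L RatFunc.X) ^ q →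
        ∃ I : Subgroup Gal(L/RatFunc k), m ∣ Nat.card I ∧
          ∀ σ : Gal(L/RatFunc k), σ ∈ I ↔ ∀ a : L, w a ≤ 1 → w (σ a - a) < 1 := by
  let alg : Algebra (Ainf k) L :=
    ((algebraMap (RatFunc k) L).comp (algebraMap (Ainf k) (RatFunc k))).toAlgebra
  have tower : IsScalarTower (Ainf k) (RatFunc k) L := IsScalarTower.of_algebraMap_eq (fun _ => rfl)
  have h1 := isDedekindDomain_S (Ainf k) (RatFunc k) L
  have h2 := isFractionRing_S (Ainf k) (RatFunc k) L
  have h3 := finite_S (Ainf k) (RatFunc k) L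
  have h4 := isTorsionFree_S (Ainf k) (RatFunc k) L
  have : (vinf k).asIdeal.IsPrime := (vinf k).isPrime
  have : (vinf k).asIdeal.IsMaximal := (vinf k).isMaximal
  have hperf := perfectField_residueField k (Ainf k) (vinf k).asIdeal (vinf_res k)
  obtain ⟨P, hP⟩ := (inferInstance : Nonempty ((vinf k).asIdeal.primesOver
    (integralClosure (Ainf k) L)))
  have hP1 : P.IsPrime := hP.1
  have hP2 : P.LiesOver (vinf k).asIdeal := hP.2
  let w : HeightOneSpectrum (integralClosure (Ainf k) L) :=
    ⟨P, hP1, Ideal.ne_bot_of_liesOver_of_ne_bot (vinf k).ne_bot P⟩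
  have hw : w.asIdeal.LiesOver (vinf k).asIdeal := hP2
  refine ⟨w.valuation L, ?_, ?_, ?_⟩
  · intro c hc
    have := HeightOneSpectrum.valuation_liesOver L (vinf k) w (algebraMap k (RatFunc k) c)
    rw [← this]
    have h5 : algebraMap k (RatFunc k) c =
        algebraMap (Ainf k) (RatFunc k) (algebraMap k (Ainf k) c) := by
      change _ = invHom k (algebraMap k[X] (RatFunc k) (C c))
      rw [← Polynomial.algebraMap_eq, ← IsScalarTower.algebraMap_apply k k[X] (RatFunc k),
        AlgHom.commutes]
    rw [h5, const_val k (RatFunc k) (vinf k) c hc, one_pow]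
  · rw [← HeightOneSpectrum.valuation_liesOver L (vinf k) w, vinf_valuation_X]
    have he : (vinf k).asIdeal.ramificationIdx' w.asIdeal ≠ 0 :=
      Ideal.IsDedekindDomain.ramificationIdx'_ne_zero_of_liesOver w.asIdeal (vinf k).ne_bot
    refine one_lt_pow₀ ?_ he
    rw [← exp_zero, exp_lt_exp]
    exact zero_lt_one
  · intro m q a hm hcop h
    refine ⟨w.asIdeal.inertia Gal(L/RatFunc k), ?_, fun σ => mem_inertia_iff (Ainf k) _ L w σ⟩
    exact dvd_card_inertia (Ainf k) (RatFunc k) L (vinf k) w a RatFunc.X m q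
      (vinf_valuation_X k) h hcop hm

end inf

section fin

variable (k : Type) [Field k] [IsAlgClosed k] (L : Type) [Field L] [Algebra (RatFunc k) L]
  [FiniteDimensional (RatFunc k) L] [IsGalois (RatFunc k) L]

/-- The finite place `X = z₀`. -/
noncomputable def vfin (z₀ : k) : HeightOneSpectrum k[X] where
  asIdeal := Ideal.span {X - C z₀}
  isPrime := by
    rw [Ideal.span_singleton_prime (X_sub_C_ne_zero z₀)]
    exact prime_X_sub_C z₀
  ne_bot := by
    rw [ne_eq, Ideal.span_singleton_eq_bot]
    exact X_sub_C_ne_zero z₀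

theorem vfin_res (z₀ : k) (a : k[X]) : ∃ c : k, a - algebraMap k k[X] c ∈ (vfin k z₀).asIdeal := by
  refine ⟨a.eval z₀, ?_⟩
  change a - C (a.eval z₀) ∈ Ideal.span {X - C z₀}
  rw [Ideal.mem_span_singleton]
  exact X_sub_C_dvd_sub_C_eval

/-- A valuation over the place `X = z₀`, with residue field `k`, such that every semilinear
automorphism which preserves the place can be adjusted so that it preserves the valuation. -/
theorem exists_fin_valuation (z₀ : k) :
    ∃ w : Valuation L ℤᵐ⁰,
      (∀ c : k, c ≠ 0 →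
        w (algebraMap (RatFunc k) L (algebraMap k (RatFunc k) c)) = 1) ∧
      w (algebraMap (RatFunc k) L RatFunc.X -
        algebraMap (RatFunc k) L (algebraMap k (RatFunc k) z₀)) < 1 ∧
      (∀ x : L, w x ≤ 1 → ∃ c : k,
        w (x - algebraMap (RatFunc k) L (algebraMap k (RatFunc k) c)) < 1) ∧
      ∀ (Ψ : L ≃+* L) (φ : k[X] ≃+* k[X]),
        (∀ a : k[X], Ψ (algebraMap (RatFunc k) L (algebraMap k[X] (RatFunc k) a)) =
          algebraMap (RatFunc k) L (algebraMap k[X] (RatFunc k) (φ a))) →
        (∀ a : k[X], φ a ∈ Ideal.span {X - C z₀} ↔ a ∈ Ideal.span {X - C z₀}) →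
        ∃ γ : Gal(L/RatFunc k), (∀ x : L, w x ≤ 1 → w (Ψ (γ x)) ≤ 1) ∧
          (∀ x : L, w x < 1 → w (Ψ (γ x)) < 1) := by
  let alg : Algebra k[X] L :=
    ((algebraMap (RatFunc k) L).comp (algebraMap k[X] (RatFunc k))).toAlgebra
  have tower : IsScalarTower k[X] (RatFunc k) L := IsScalarTower.of_algebraMap_eq (fun _ => rfl)
  have h1 := isDedekindDomain_S k[X] (RatFunc k) L
  have h2 := isFractionRing_S k[X] (RatFunc k) L
  have h3 := finite_S k[X] (RatFunc k) L
  have h4 := isTorsionFree_S k[X] (RatFunc k) L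
  have : (vfin k z₀).asIdeal.IsPrime := (vfin k z₀).isPrime
  have : (vfin k z₀).asIdeal.IsMaximal := (vfin k z₀).isMaximal
  obtain ⟨P, hP⟩ := (inferInstance : Nonempty ((vfin k z₀).asIdeal.primesOver
    (integralClosure k[X] L)))
  have hP1 : P.IsPrime := hP.1
  have hP2 : P.LiesOver (vfin k z₀).asIdeal := hP.2
  let w : HeightOneSpectrum (integralClosure k[X] L) :=
    ⟨P, hP1, Ideal.ne_bot_of_liesOver_of_ne_bot (vfin k z₀).ne_bot P⟩
  have hw : w.asIdeal.LiesOver (vfin k z₀).asIdeal := hP2
  have hk : ∀ c : k, algebraMap k (RatFunc k) c =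
        algebraMap k[X] (RatFunc k) (algebraMap k k[X] c) := by
    intro c
    rw [← IsScalarTower.algebraMap_apply k k[X] (RatFunc k)]
  refine ⟨w.valuation L, ?_, ?_, ?_, ?_⟩
  · intro c hc
    rw [← HeightOneSpectrum.valuation_liesOver L (vfin k z₀) w (algebraMap k (RatFunc k) c),
      hk, const_val k (RatFunc k) (vfin k z₀) c hc, one_pow]
  · rw [← map_sub, ← HeightOneSpectrum.valuation_liesOver L (vfin k z₀) w, hk,
      ← RatFunc.algebraMap_X, ← map_sub, HeightOneSpectrum.valuation_of_algebraMap]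
    have he : (vfin k z₀).asIdeal.ramificationIdx' w.asIdeal ≠ 0 :=
      Ideal.IsDedekindDomain.ramificationIdx'_ne_zero_of_liesOver w.asIdeal (vfin k z₀).ne_bot
    refine pow_lt_one₀ zero_le ?_ he
    rw [HeightOneSpectrum.intValuation_singleton (vfin k z₀) (r := X - algebraMap k k[X] z₀)
      (X_sub_C_ne_zero z₀) rfl, ← exp_zero, exp_lt_exp]
    norm_num
  · intro x hx
    obtain ⟨c, hc⟩ := exists_residue k[X] (RatFunc k) L k (vfin k z₀) (vfin_res k z₀) w x hx
    refine ⟨c, ?_⟩
    rw [hk]
    exact hc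
  · intro Ψ φ hΨ hφ
    exact exists_adjust k[X] (RatFunc k) L (vfin k z₀) w Ψ φ hΨ hφ

end fin

end Pool.Agent.Lib.MP_2d3c11_ag
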