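import Mathlib
import Pool.Agent.Lib.MP_2d3c11_ag.RootData
import Pool.Agent.Lib.MP_2d3c11_ag.PolyF
import Pool.Agent.Lib.MP_2d3c11_ag.PermLemma
import Pool.Agent.Lib.MP_2d3c11_ag.Galois
import Pool.Agent.Lib.MP_2d3c11_ag.NoRoot
import Pool.Agent.Lib.MP_2d3c11_ag.Place
import Pool.Agent.Lib.MP_2d3c11_ag.InfPlace

set_option autoImplicit false
set_option linter.unusedSectionVars false

open Polynomial WithZero

namespace Pool.Agent.Lib.MP_2d3c11_ag

theorem charP_L (k L : Type) [Field k] [Field L] [Algebra (RatFunc k) L] (p : ℕ) [CharP k p] :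
    CharP L p :=
  charP_of_injective_ringHom
    ((algebraMap (RatFunc k) L).comp (algebraMap k (RatFunc k))).injective p

section

variable (k : Type) [Field k] (L : Type) [Field L] [DecidableEq L] [Algebra (RatFunc k) L]

/-- The coordinate in the splitting field. -/
noncomputable abbrev zL : L := algebraMap (RatFunc k) L RatFunc.X

/-- The roots in the splitting field. -/
noncomputable abbrev RL (p e N : ℕ) : Finset L := (Fpoly p e ((zL k L) ^ N)).roots.toFinset

variable {k L} {p e N : ℕ} [IsAlgClosed k] [CharP k p]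

theorem Fpoly_map_L : (Fpoly p e (RatFunc.X ^ N : RatFunc k)).map (algebraMap (RatFunc k) L) =
    Fpoly p e ((zL k L) ^ N) := by
  rw [Fpoly_map, map_pow]

theorem zL_ne_zero : zL k L ≠ 0 := by
  rw [Ne, map_eq_zero]
  exact RatFunc.X_ne_zero

theorem isGalois_L (hp : p.Prime) (he3 : 3 ≤ e) (hep : e < p)
    [hsp : (Fpoly p e (RatFunc.X ^ N : RatFunc k)).IsSplittingField (RatFunc k) L] :
    IsGalois (RatFunc k) L := by
  have : CharP (RatFunc k) p := charP_of_injective_ringHom (algebraMap k (RatFunc k)).injective p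
  exact IsGalois.of_separable_splitting_field
    (Fpoly_separable hp he3 hep (pow_ne_zero N RatFunc.X_ne_zero))

theorem rootData_L (hp : p.Prime) (he3 : 3 ≤ e) (hep : e < p) (hN : 0 < N)
    [hsp : (Fpoly p e (RatFunc.X ^ N : RatFunc k)).IsSplittingField (RatFunc k) L] :
    RootData p e N L (zL k L) (RL k L p e N) := by
  apply rootData_of_splits (charP_L k L p) hp he3 hep hN _ zL_ne_zero
  rw [← Fpoly_map_L]
  exact hsp.splits

theorem faithful_L [hsp : (Fpoly p e (RatFunc.X ^ N : RatFunc k)).IsSplittingField (RatFunc k) L]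
    (σ : Gal(L/RatFunc k)) (h : ∀ r ∈ RL k L p e N, σ r = r) : σ = 1 := by
  have h1 := hsp.adjoin_rootSet
  have h2 : (σ : L →ₐ[RatFunc k] L) = AlgHom.id _ _ := by
    apply AlgHom.ext_of_adjoin_eq_top h1
    intro r hr
    apply h
    rw [Polynomial.rootSet_def, aroots_def, Fpoly_map_L] at hr
    simpa using hr
  ext x
  exact DFunLike.congr_fun h2 x

theorem gal_map_mem (hp : p.Prime) (he3 : 3 ≤ e) (hep : e < p) (hN : 0 < N)
    [hsp : (Fpoly p e (RatFunc.X ^ N : RatFunc k)).IsSplittingField (RatFunc k) L]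
    (σ : Gal(L/RatFunc k)) : ∀ r ∈ RL k L p e N, (σ : L ≃+* L) r ∈ RL k L p e N := by
  apply (rootData_L (k := k) hp he3 hep hN).map_mem
  change σ (zL k L) ^ N = _
  rw [AlgEquiv.commutes]

theorem exists_moving (hp : p.Prime) (he3 : 3 ≤ e) (hep : e < p) (hN : 0 < N)
    [hsp : (Fpoly p e (RatFunc.X ^ N : RatFunc k)).IsSplittingField (RatFunc k) L]
    (r : L) (hr : r ∈ RL k L p e N) : ∃ σ : Gal(L/RatFunc k), σ r ≠ r := by
  by_contra hcon
  push Not at hcon
  have := isGalois_L (k := k) (L := L) (p := p) (e := e) (N := N) hp he3 hep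
  have hfd : FiniteDimensional (RatFunc k) L := IsSplittingField.finiteDimensional L
    (Fpoly p e (RatFunc.X ^ N : RatFunc k))
  obtain ⟨a, ha⟩ := (IsGalois.mem_range_algebraMap_iff_fixed (F := RatFunc k) r).2 hcon
  rw [(rootData_L (k := k) (L := L) hp he3 hep hN).mem_iff, ← ha] at hr
  apply no_ratFunc_root hp he3 hep hN a
  apply (algebraMap (RatFunc k) L).injective
  rw [map_zero, ← hr]
  simp

/-- The Galois group as a permutation group of the roots. -/
noncomputable def permHom (hp : p.Prime) (he3 : 3 ≤ e) (hep : e < p) (hN : 0 < N)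
    [hsp : (Fpoly p e (RatFunc.X ^ N : RatFunc k)).IsSplittingField (RatFunc k) L] :
    Gal(L/RatFunc k) →* Equiv.Perm (RL k L p e N) where
  toFun σ := permOf _ (σ : L ≃+* L) (gal_map_mem (k := k) hp he3 hep hN σ)
  map_one' := by
    ext r
    rfl
  map_mul' σ τ := by
    ext r
    rfl

end

end Pool.Agent.Lib.MP_2d3c11_ag
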