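import Mathlib
import Pool.Agent.Lib.MP_2d3c11_ag.Main1

set_option autoImplicit false
set_option linter.unusedSectionVars false

open Polynomial WithZero

namespace Pool.Agent.Lib.MP_2d3c11_ag

section

variable {k : Type} [Field k] {L : Type} [Field L] [DecidableEq L] [Algebra (RatFunc k) L]
variable {p e N : ℕ} [IsAlgClosed k] [CharP k p]

theorem sign_permHom (hp : p.Prime) (he3 : 3 ≤ e) (hep : e < p) (hN : 0 < N) (hNe : Even N)
    [hsp : (Fpoly p e (RatFunc.X ^ N : RatFunc k)).IsSplittingField (RatFunc k) L]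
    (σ : Gal(L/RatFunc k)) :
    Equiv.Perm.sign (permHom (k := k) (L := L) hp he3 hep hN σ) = 1 := by
  have h := rootData_L (k := k) (L := L) hp he3 hep hN
  refine h.even hNe (σ : L ≃+* L) (gal_map_mem (k := k) hp he3 hep hN σ) ?_ ?_
  · change σ (zL k L) = zL k L
    rw [AlgEquiv.commutes]
  · intro a
    obtain ⟨y, hy⟩ := IsAlgClosed.exists_pow_nat_eq (a : k) (n := 2) (by norm_num)
    refine ⟨algebraMap (RatFunc k) L (algebraMap k (RatFunc k) y), ?_, ?_⟩
    · change σ _ = _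
      rw [AlgEquiv.commutes]
    · rw [← map_pow, ← map_pow, hy]
      simp

theorem permHom_injective (hp : p.Prime) (he3 : 3 ≤ e) (hep : e < p) (hN : 0 < N)
    [hsp : (Fpoly p e (RatFunc.X ^ N : RatFunc k)).IsSplittingField (RatFunc k) L] :
    Function.Injective (permHom (k := k) (L := L) hp he3 hep hN) := by
  rw [injective_iff_map_eq_one]
  intro σ hσ
  apply faithful_L (p := p) (e := e) (N := N) σ
  intro r hr
  have := congrArg (fun π : Equiv.Perm (RL k L p e N) => (π ⟨r, hr⟩ : L)) hσ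
  exact this

/-- The structure of the inertia group at infinity. -/
theorem inf_structure (hp : p.Prime) (he3 : 3 ≤ e) (hep : e < p) (hN : 0 < N)
    [hsp : (Fpoly p e (RatFunc.X ^ N : RatFunc k)).IsSplittingField (RatFunc k) L]
    (m q : ℕ) (hm : 0 < m) (hq : N * (e - 2) * m = q * (p - 1)) (hcop : Nat.Coprime (p * m) q) :
    ∃ w : Valuation L ℤᵐ⁰,
      (∀ c : k, c ≠ 0 →
        w (algebraMap (RatFunc k) L (algebraMap k (RatFunc k) c)) = 1) ∧
      1 < w (algebraMap (RatFunc k) L RatFunc.X) ∧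
      ∃ β : RL k L p e N ≃ Option (ZMod p), (∀ σ : Gal(L/RatFunc k),
        (∀ a : L, w a ≤ 1 → w (σ a - a) < 1) ↔
          ∃ a b : ZMod p, a ^ m = 1 ∧ ∀ r : RL k L p e N,
            β (permHom (k := k) (L := L) hp he3 hep hN σ r) = (β r).map (fun u => a * u + b)) ∧
        ∀ a b : ZMod p, a ^ m = 1 → ∃ σ : Gal(L/RatFunc k), ∀ r : RL k L p e N,
            β (permHom (k := k) (L := L) hp he3 hep hN σ r) = (β r).map (fun u => a * u + b) := by
  have : Fact p.Prime := ⟨hp⟩
  have hgal := isGalois_L (k := k) (L := L) (p := p) (e := e) (N := N) hp he3 hep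
  have hfd : FiniteDimensional (RatFunc k) L := IsSplittingField.finiteDimensional L
    (Fpoly p e (RatFunc.X ^ N : RatFunc k))
  have h := rootData_L (k := k) (L := L) hp he3 hep hN
  obtain ⟨w, hw1, hw2, hw3⟩ := exists_inf_valuation k L
  obtain ⟨⟨r₀, hr₀, hr₀', hlarge⟩, hdiff⟩ := h.inf_place w hw2
  obtain ⟨β, hβ⟩ := h.inf_model w hw2 m q hq
  have hβ' : ∀ σ : Gal(L/RatFunc k), (∀ a : L, w a ≤ 1 → w (σ a - a) < 1) →
      ∃ a b : ZMod p, a ^ m = 1 ∧ ∀ r : RL k L p e N,
            β (permHom (k := k) (L := L) hp he3 hep hN σ r) = (β r).map (fun u => a * u + b) := by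
    intro σ hσ
    exact hβ (σ : L ≃+* L) (AlgEquiv.commutes σ _) (gal_map_mem (k := k) hp he3 hep hN σ) hσ
  refine ⟨w, hw1, hw2, β, ?_⟩
  -- two large roots
  obtain ⟨r₁, hr₁, r₂, hr₂, hr₁₂⟩ : ∃ r₁ ∈ (RL k L p e N).erase r₀, ∃ r₂ ∈ (RL k L p e N).erase r₀,
      r₁ ≠ r₂ := by
    apply Finset.one_lt_card.1
    rw [Finset.card_erase_of_mem hr₀, h.card]
    omega
  rw [Finset.mem_erase] at hr₁ hr₂
  have hl1 := hlarge r₁ hr₁.2 hr₁.1
  have hl2 := hlarge r₂ hr₂.2 hr₂.1
  have hval := (hdiff r₁ hr₁.2 r₂ hr₂.2 hl1.1 hl2.1 hr₁₂).2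
  have hp1 : 0 < p - 1 := by have := hp.two_le; omega
  have hval2 : w (r₁ - r₂) ^ (p * m) = w (zL k L) ^ q := by
    have h1 : (w (r₁ - r₂) ^ (p * m)) ^ (p - 1) = (w (zL k L) ^ q) ^ (p - 1) := by
      rw [← pow_mul, ← pow_mul, ← hq, show p * m * (p - 1) = p * (p - 1) * m by ring, pow_mul,
        hval, ← pow_mul]
    exact (pow_left_inj₀ zero_le zero_le hp1.ne').1 h1
  obtain ⟨I, hI1, hI2⟩ := hw3 (p * m) q (r₁ - r₂) (Nat.mul_ne_zero hp.ne_zero hm.ne') hcop hval2
  have hfin : Finite Gal(L/RatFunc k) := inferInstance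
  -- the map from `I` to the affine maps
  choose fa fb hfa hfb using fun σ : I => hβ' σ.1 ((hI2 σ.1).1 σ.2)
  let f : I → {a : ZMod p // a ^ m = 1} × ZMod p := fun σ => (⟨fa σ, hfa σ⟩, fb σ)
  have hfinj : Function.Injective f := by
    intro σ τ hστ
    have h1 : fa σ = fa τ := congrArg (fun x => (x.1 : ZMod p)) hστ
    have h2 : fb σ = fb τ := congrArg Prod.snd hστ
    apply Subtype.ext
    apply permHom_injective (k := k) (L := L) hp he3 hep hN
    ext r : 1
    apply β.injective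
    rw [hfb, hfb, h1, h2]
  have hcardroots : Nat.card {a : ZMod p // a ^ m = 1} ≤ m := by
    classical
    rw [Nat.card_eq_fintype_card, Fintype.card_subtype]
    refine le_trans ?_ (Polynomial.card_nthRoots m (1 : ZMod p))
    refine le_trans (Finset.card_le_card ?_) (Multiset.toFinset_card_le _)
    intro a ha
    rw [Finset.mem_filter] at ha
    rw [Multiset.mem_toFinset, Polynomial.mem_nthRoots hm]
    exact ha.2
  have hcardI : p * m ≤ Nat.card I := Nat.le_of_dvd Nat.card_pos hI1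
  have hfbij : Function.Bijective f := by
    rw [Nat.bijective_iff_injective_and_card]
    refine ⟨hfinj, le_antisymm (Nat.card_le_card_of_injective f hfinj) ?_⟩
    rw [Nat.card_prod, Nat.card_zmod]
    calc _ ≤ m * p := Nat.mul_le_mul_right _ hcardroots
      _ = p * m := mul_comm _ _
      _ ≤ _ := hcardI
  have hex : ∀ a b : ZMod p, a ^ m = 1 → ∃ σ : Gal(L/RatFunc k), ∀ r : RL k L p e N,
      β (permHom (k := k) (L := L) hp he3 hep hN σ r) = (β r).map (fun u => a * u + b) := by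
    intro a b ham
    obtain ⟨τ, hτ⟩ := hfbij.2 (⟨a, ham⟩, b)
    have h1 : fa τ = a := congrArg (fun x => (x.1 : ZMod p)) hτ
    have h2 : fb τ = b := congrArg Prod.snd hτ
    refine ⟨τ.1, fun r => ?_⟩
    rw [hfb, h1, h2]
  refine ⟨?_, hex⟩
  intro σ
  constructor
  · exact hβ' σ
  · rintro ⟨a, b, ham, hab⟩
    obtain ⟨τ, hτ⟩ := hfbij.2 (⟨a, ham⟩, b)
    have h1 : fa τ = a := congrArg (fun x => (x.1 : ZMod p)) hτ
    have h2 : fb τ = b := congrArg Prod.snd hτ
    have h3 : σ = τ.1 := by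
      apply permHom_injective (k := k) (L := L) hp he3 hep hN
      ext r : 1
      apply β.injective
      rw [hfb, hab, h1, h2]
    rw [h3]
    exact (hI2 τ.1).1 τ.2

end

end Pool.Agent.Lib.MP_2d3c11_ag
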