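import Mathlib
import Pool.Agent.Lib.MP_2d3c11_ag.Main2
import Pool.Agent.Lib.MP_2d3c11_ag.FinPlace

set_option autoImplicit false
set_option linter.unusedSectionVars false

open Polynomial WithZero

namespace Pool.Agent.Lib.MP_2d3c11_ag

section

variable {k : Type} [Field k] {L : Type} [Field L] [DecidableEq L] [Algebra (RatFunc k) L]
variable {p e N : ℕ} [IsAlgClosed k] [CharP k p]

/-- The Galois group is the alternating group, as soon as it is normalised by a transposition or
a 3-cycle. -/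
theorem range_eq_alternatingGroup (hp : p.Prime) (he3 : 3 ≤ e) (hep : e < p) (hN : 0 < N)
    (hNe : Even N)
    [hsp : (Fpoly p e (RatFunc.X ^ N : RatFunc k)).IsSplittingField (RatFunc k) L]
    (β : RL k L p e N ≃ Option (ZMod p))
    (hex : ∀ b : ZMod p, ∃ σ : Gal(L/RatFunc k), ∀ r : RL k L p e N,
            β (permHom (k := k) (L := L) hp he3 hep hN σ r) = (β r).map (fun u => u + b))
    (t : Equiv.Perm (RL k L p e N)) (ht : t.IsSwap ∨ t.IsThreeCycle)
    (hn : ∀ σ : Gal(L/RatFunc k), ∃ τ : Gal(L/RatFunc k),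
      t * permHom (k := k) (L := L) hp he3 hep hN σ * t⁻¹ =
        permHom (k := k) (L := L) hp he3 hep hN τ) :
    (permHom (k := k) (L := L) hp he3 hep hN).range = alternatingGroup (RL k L p e N) := by
  have h := rootData_L (k := k) (L := L) hp he3 hep hN
  apply eq_alternatingGroup (a₀ := β.symm none) (t := t)
  · rw [Nat.card_eq_fintype_card, Fintype.card_coe, h.card]
    omega
  · rintro _ ⟨σ, rfl⟩
    exact sign_permHom (k := k) (L := L) hp he3 hep hN hNe σ
  · intro b c hb hc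
    obtain ⟨u, hu⟩ : ∃ u, β b = some u := by
      rw [← Option.ne_none_iff_exists']
      intro h1
      apply hb
      rw [← h1, Equiv.symm_apply_apply]
    obtain ⟨v, hv⟩ : ∃ u, β c = some u := by
      rw [← Option.ne_none_iff_exists']
      intro h1
      apply hc
      rw [← h1, Equiv.symm_apply_apply]
    obtain ⟨σ, hσ⟩ := hex (v - u)
    refine ⟨_, ⟨σ, rfl⟩, ?_, ?_⟩
    · apply β.injective
      rw [hσ, Equiv.apply_symm_apply, Option.map_none]
    · apply β.injective
      rw [hσ, hu, hv, Option.map_some, add_sub_cancel]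
  · obtain ⟨σ, hσ⟩ := exists_moving (k := k) (L := L) hp he3 hep hN (β.symm none : L)
      (β.symm none).2
    refine ⟨_, ⟨σ, rfl⟩, ?_⟩
    intro h1
    exact hσ (congrArg Subtype.val h1)
  · exact ht
  · rintro _ ⟨σ, rfl⟩
    obtain ⟨τ, hτ⟩ := hn σ
    rw [hτ]
    exact ⟨τ, rfl⟩

/-- A semilinear automorphism normalises the Galois group. -/
theorem conj_mem (hp : p.Prime) (he3 : 3 ≤ e) (hep : e < p) (hN : 0 < N)
    [hsp : (Fpoly p e (RatFunc.X ^ N : RatFunc k)).IsSplittingField (RatFunc k) L]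
    (φ : RatFunc k ≃+* RatFunc k) (Φ : L ≃+* L)
    (hφ : ∀ a : RatFunc k, Φ (algebraMap (RatFunc k) L a) = algebraMap (RatFunc k) L (φ a))
    (hΦR : ∀ r ∈ RL k L p e N, Φ r ∈ RL k L p e N) (σ : Gal(L/RatFunc k)) :
    ∃ τ : Gal(L/RatFunc k),
      permOf _ Φ hΦR * permHom (k := k) (L := L) hp he3 hep hN σ * (permOf _ Φ hΦR)⁻¹ =
        permHom (k := k) (L := L) hp he3 hep hN τ := by
  refine ⟨AlgEquiv.ofRingEquiv (f := (Φ.symm.trans (σ : L ≃+* L)).trans Φ) ?_, ?_⟩
  · intro a
    change Φ (σ (Φ.symm (algebraMap (RatFunc k) L a))) = algebraMap (RatFunc k) L a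
    have h1 : Φ.symm (algebraMap (RatFunc k) L a) = algebraMap (RatFunc k) L (φ.symm a) := by
      rw [RingEquiv.symm_apply_eq, hφ, RingEquiv.apply_symm_apply]
    rw [h1, AlgEquiv.commutes, hφ, RingEquiv.apply_symm_apply]
  · rw [mul_inv_eq_iff_eq_mul]
    ext r
    change Φ (σ r) = Φ (σ (Φ.symm (Φ r)))
    rw [RingEquiv.symm_apply_apply]

/-- The inertia groups over the finite places are trivial. -/
theorem fin_inertia (hp : p.Prime) (he3 : 3 ≤ e) (hep : e < p) (hN : 0 < N)
    (h2 : 2 ∣ N) (he : e ∣ N)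
    [hsp : (Fpoly p e (RatFunc.X ^ N : RatFunc k)).IsSplittingField (RatFunc k) L]
    {Γ : Type*} [LinearOrderedCommGroupWithZero Γ] (w : Valuation L Γ)
    (hw : w (algebraMap (RatFunc k) L RatFunc.X) ≤ 1) (σ : Gal(L/RatFunc k))
    (hσ : ∀ a : L, w a ≤ 1 → w (σ a - a) < 1) : σ = 1 := by
  have h := rootData_L (k := k) (L := L) hp he3 hep hN
  apply faithful_L (p := p) (e := e) (N := N) σ
  exact h.inertia_trivial w h2 he hw (σ : L ≃+* L) (AlgEquiv.commutes σ _)
    (gal_map_mem (k := k) hp he3 hep hN σ) hσ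

end

end Pool.Agent.Lib.MP_2d3c11_ag
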