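import Mathlib

set_option autoImplicit false
set_option linter.unusedSectionVars false

open Polynomial

namespace Pool.Agent.Lib.MP_2d3c11_ag

theorem isSplittingField_twist {K L M : Type*} [Field K] [Field L] [Field M] [Algebra K L]
    [Algebra K M] (F : K[X]) [F.IsSplittingField K L] (φ : K ≃+* K) (hF : F.map φ.toRingHom = F)
    (ε : M ≃+* L) (hε : ∀ a : K, ε (algebraMap K M a) = algebraMap K L (φ a)) :
    F.IsSplittingField K M := by
  classical
  have hs := IsSplittingField.splits L F
  have ha := IsSplittingField.adjoin_rootSet L F
  have hcomp : ε.toRingHom.comp (algebraMap K M) = (algebraMap K L).comp φ.toRingHom := by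
    ext a
    exact hε a
  have hmap : (F.map (algebraMap K M)).map ε.toRingHom = F.map (algebraMap K L) := by
    rw [Polynomial.map_map, hcomp, ← Polynomial.map_map, hF]
  have hmap' : (F.map (algebraMap K L)).map ε.symm.toRingHom = F.map (algebraMap K M) := by
    rw [← hmap, Polynomial.map_map]
    simp
  refine ⟨?_, ?_⟩
  · rw [← hmap']
    exact hs.map _
  · rw [eq_top_iff]
    intro x _
    have key : ∀ y ∈ Algebra.adjoin K (F.rootSet L), ε.symm y ∈ Algebra.adjoin K (F.rootSet M) := by
      intro y hy
      induction hy using Algebra.adjoin_induction with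
      | mem x hx =>
        apply Algebra.subset_adjoin
        rw [mem_rootSet'] at hx ⊢
        obtain ⟨h1, h2⟩ := hx
        constructor
        · rw [← hmap']
          rwa [Ne, Polynomial.map_eq_zero]
        · rw [aeval_def, ← eval_map, ← hmap'] 
          rw [aeval_def, ← eval_map] at h2
          change eval (ε.symm.toRingHom x) _ = 0
          rw [eval_map_apply, h2, map_zero]
      | algebraMap r =>
        have h2 : ε.symm (algebraMap K L r) = algebraMap K M (φ.symm r) := by
          rw [RingEquiv.symm_apply_eq, hε, RingEquiv.apply_symm_apply]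
        rw [h2]
        exact Subalgebra.algebraMap_mem _ _
      | add x y _ _ hx hy =>
        rw [map_add]
        exact Subalgebra.add_mem _ hx hy
      | mul x y _ _ hx hy =>
        rw [map_mul]
        exact Subalgebra.mul_mem _ hx hy
    have := key (ε x) (by rw [ha]; trivial)
    rwa [RingEquiv.symm_apply_apply] at this

theorem exists_algEquiv {K L M : Type*} [Field K] [Field L] [Field M] [Algebra K L]
    [Algebra K M] (F : K[X]) [F.IsSplittingField K L] [F.IsSplittingField K M] :
    ∃ e : L ≃+* M, ∀ a : K, e (algebraMap K L a) = algebraMap K M a :=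
  ⟨((IsSplittingField.algEquiv L F).trans (IsSplittingField.algEquiv M F).symm).toRingEquiv,
    fun a => AlgEquiv.commutes _ a⟩

/-- Automorphisms of `K` fixing `F` extend to the splitting field of `F`. -/
theorem exists_extend {K L : Type*} [Field K] [Field L] [alg : Algebra K L] (F : K[X])
    [hsp : F.IsSplittingField K L] (φ : K ≃+* K) (hF : F.map φ.toRingHom = F) :
    ∃ Ψ : L ≃+* L, ∀ a : K, Ψ (algebraMap K L a) = algebraMap K L (φ a) := by
  have h2 := @isSplittingField_twist K L L _ _ _ alg ((algebraMap K L).comp φ.toRingHom).toAlgebra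
    F hsp φ hF (RingEquiv.refl L) (fun a => rfl)
  exact @exists_algEquiv K L L _ _ _ alg ((algebraMap K L).comp φ.toRingHom).toAlgebra F hsp h2

end Pool.Agent.Lib.MP_2d3c11_ag
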