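import Mathlib
import Pool.Agent.Lib.MP_2d3c11_ag.RootData
import Pool.Agent.Lib.MP_2d3c11_ag.PolyF
import Pool.Agent.Lib.MP_2d3c11_ag.Galois
import Pool.Agent.Lib.MP_2d3c11_ag.FinPlace

set_option autoImplicit false

namespace Pool.Agent.Lib.MP_2d3c11_ag

/-- For odd `e` a suitable semilinear automorphism induces a transposition. -/
theorem RootData.isSwap_permOf {p e N : ℕ} {L : Type*} [Field L] [DecidableEq L] {z : L}
    {R : Finset L} (h : RootData p e N L z R) (hodd : Odd e) (t : ℕ) (hN : N = 2 * e * t)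
    {k : Type*} [Field k] (ι : k →+* L) {Γ : Type*} [LinearOrderedCommGroupWithZero Γ]
    (w : Valuation L Γ) (hw : w z < 1) (hι : ∀ c : k, c ≠ 0 → w (ι c) = 1)
    (hres : ∀ x : L, w x ≤ 1 → ∃ c : k, w (x - ι c) < 1)
    (Φ : L ≃+* L) (hΦι : ∀ c : k, Φ (ι c) = ι c) (ξ : k) (hξ : ξ ^ t = -1) (hΦz : Φ z = ι ξ * z)
    (hΦ : ∀ x : L, w x < 1 → w (Φ x) < 1)
    (hΦR : ∀ r ∈ R, Φ r ∈ R) : (permOf R Φ hΦR).IsSwap := by
  have hchar := h.char
  have he3 := h.e3
  have hep := h.ep
  have hN0 := h.N0
  have he0 : 0 < e := by omega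
  have hNe : N / e = 2 * t := by
    rw [hN, show 2 * e * t = e * (2 * t) by ring, Nat.mul_div_cancel_left _ he0]
  have hN2 : N / 2 = e * t := by
    rw [hN, show 2 * e * t = 2 * (e * t) by ring, Nat.mul_div_cancel_left _ (by norm_num)]
  obtain ⟨hle, h1, h2, h3, h4⟩ := h.zero_place w ⟨e * t, by rw [hN]; ring⟩
    ⟨2 * t, by rw [hN]; ring⟩ hw
  have hwz : w z ≠ 0 := (Valuation.ne_zero_iff w).2 h.z0
  -- residues are fixed
  have hfix : ∀ x : L, w x ≤ 1 → w (Φ x - x) < 1 := by
    intro x hx
    obtain ⟨c, hc⟩ := hres x hx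
    have : Φ x - x = Φ (x - ι c) - (x - ι c) := by
      rw [map_sub, hΦι]
      ring
    rw [this]
    exact lt_of_le_of_lt (Valuation.map_sub _ _ _) (max_lt (hΦ _ hc) hc)
  have h2L : w (2 : L) = 1 := by
    have h20 : (2 : k) ≠ 0 := by
      intro h0
      have h5 : ι 2 = 0 := by rw [h0, map_zero]
      rw [map_ofNat] at h5
      have h6 : ((2 : ℕ) : L) = 0 := by exact_mod_cast h5
      rw [CharP.cast_eq_zero_iff L p] at h6
      have := Nat.le_of_dvd (by norm_num) h6
      omega
    have := hι 2 h20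
    rwa [map_ofNat] at this
  -- the three kinds of roots
  have key : ∀ r ∈ R, Φ r ≠ r ↔ w (r - 1) < 1 := by
    intro r hr
    rcases lt_or_eq_of_le (hle r hr) with hr1 | hr1
    · -- near zero
      have hr2 : ¬ w (r - 1) < 1 := by
        intro h5
        have h6 : w (1 : L) < 1 := by
          have : (1 : L) = r - (r - 1) := by ring
          rw [this]
          exact lt_of_le_of_lt (Valuation.map_sub _ _ _) (max_lt hr1 h5)
        rw [map_one] at h6
        exact lt_irrefl _ h6
      refine ⟨fun hne => ?_, fun h5 => absurd h5 hr2⟩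
      exfalso
      obtain ⟨h5, h6⟩ := h2 r hr hr1
      have h7 := h6 (Φ r) (hΦR r hr) hne.symm
      have hx : w (r / z ^ (N / e)) ≤ 1 := by
        rw [map_div₀, map_pow, h5, div_self (pow_ne_zero _ hwz)]
      have h8 := hfix _ hx
      have h9 : Φ (r / z ^ (N / e)) - r / z ^ (N / e) = (Φ r - r) / z ^ (N / e) := by
        rw [map_div₀, map_pow, hΦz, mul_pow, hNe, ← map_pow, mul_comm 2 t, pow_mul ξ, hξ]
        simp only [even_two, Even.neg_pow, one_pow, map_one, one_mul]
        rw [sub_div]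
      rw [h9, map_div₀, map_pow, div_lt_one₀ (pow_pos (zero_lt_iff.2 hwz) _),
        Valuation.map_sub_swap] at h8
      exact absurd h7 (not_le.2 h8)
    · rcases lt_or_ge (w (r - 1)) 1 with hr2 | hr2
      · -- near one
        refine ⟨fun _ => hr2, fun _ heq => ?_⟩
        obtain ⟨h5, h6⟩ := h3 r hr hr2
        have hx1 : w ((r - 1) / z ^ (N / 2)) = 1 := by
          rw [map_div₀, map_pow, h5, div_self (pow_ne_zero _ hwz)]
        have h8 := hfix _ hx1.le
        have h9 : Φ ((r - 1) / z ^ (N / 2)) - (r - 1) / z ^ (N / 2) =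
            - (2 * ((r - 1) / z ^ (N / 2))) := by
          rw [map_div₀, map_sub, map_one, map_pow, hΦz, heq, mul_pow, hN2, ← map_pow, mul_comm e t,
            pow_mul ξ, hξ, hodd.neg_one_pow]
          simp only [map_neg, map_one, neg_mul, one_mul]
          rw [div_neg]
          ring
        rw [h9, Valuation.map_neg, map_mul, h2L, hx1, one_mul] at h8
        exact lt_irrefl _ h8
      · -- simple roots
        refine ⟨fun hne => ?_, fun h5 => absurd h5 (not_lt.2 hr2)⟩
        have hr3 : w (r - 1) = 1 := by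
          refine le_antisymm ?_ hr2
          refine (Valuation.map_sub _ _ _).trans ?_
          rw [hr1, map_one, max_self]
        have h5 := h1 r hr hr1 hr3 (Φ r) (hΦR r hr) hne.symm
        have h6 := hfix r (hle r hr)
        rw [Valuation.map_sub_swap, h5] at h6
        exact absurd h6 (lt_irrefl _)
  rw [← Equiv.Perm.card_support_eq_two, ← h4]
  have hmap : (permOf R Φ hΦR).support.map (Function.Embedding.subtype _) =
      R.filter (fun r => w (r - 1) < 1) := by
    ext r
    rw [Finset.mem_map, Finset.mem_filter]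
    constructor
    · rintro ⟨s, hs, rfl⟩
      rw [Equiv.Perm.mem_support] at hs
      refine ⟨s.2, (key s s.2).1 ?_⟩
      intro h5
      exact hs (Subtype.ext h5)
    · rintro ⟨hr, hr'⟩
      refine ⟨⟨r, hr⟩, ?_, rfl⟩
      rw [Equiv.Perm.mem_support]
      intro h5
      exact (key r hr).2 hr' (congrArg Subtype.val h5)
  rw [← hmap, Finset.card_map]

end Pool.Agent.Lib.MP_2d3c11_ag
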