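import Mathlib
import Pool.Agent.Lib.MP_2d3c11_ag.RootData
import Pool.Agent.Lib.MP_2d3c11_ag.PolyF
import Pool.Agent.Lib.MP_2d3c11_ag.Galois
import Pool.Agent.Lib.MP_2d3c11_ag.FinPlace

set_option autoImplicit false

/-!
Job H: the 3-cycle for `p = 7`.
-/

namespace Pool.Agent.Lib.MP_2d3c11_ag

namespace ThreeCycle

section field

variable {k : Type*} [Field k]

/-- the cubic factor -/
lemma cubic_pow (h7 : (7 : k) = 0) {c : k} (hc : c ^ 3 + 2 * c ^ 2 + 3 * c + 3 = 0) :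
    c ^ 7 = 4 + c + 6 * c ^ 2 := by
  linear_combination (1 + c + c ^ 2 - 2 * c ^ 3 + c ^ 4) * hc + (-1 - c - 2 * c ^ 2) * h7

lemma cubic_step2 (h7 : (7 : k) = 0) {c : k} (hc : c ^ 3 + 2 * c ^ 2 + 3 * c + 3 = 0) :
    4 + (4 + c + 6 * c ^ 2) + 6 * (4 + c + 6 * c ^ 2) ^ 2 = 1 + 5 * c + c ^ 2 := by
  linear_combination (-360 + 216 * c) * hc + (169 + 68 * c + 53 * c ^ 2) * h7

lemma cubic_step3 (h7 : (7 : k) = 0) {c : k} (hc : c ^ 3 + 2 * c ^ 2 + 3 * c + 3 = 0) :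
    4 + (1 + 5 * c + c ^ 2) + 6 * (1 + 5 * c + c ^ 2) ^ 2 = c := by
  linear_combination (48 + 6 * c) * hc + (-19 - 14 * c + 7 * c ^ 2) * h7

lemma quartic_pow (h7 : (7 : k) = 0) {c : k}
    (hc : c ^ 4 + 4 * c ^ 3 + 5 * c ^ 2 + 6 * c + 2 = 0) :
    c ^ 7 = 4 + 4 * c + c ^ 2 + 3 * c ^ 3 := by
  linear_combination (-30 + 11 * c - 4 * c ^ 2 + c ^ 3) * hc +
    (8 + 22 * c + 13 * c ^ 2 + 12 * c ^ 3) * h7

lemma quartic_step2 (h7 : (7 : k) = 0) {c d : k}
    (hc : c ^ 4 + 4 * c ^ 3 + 5 * c ^ 2 + 6 * c + 2 = 0) (hd : d = 4 + 4 * c + c ^ 2 + 3 * c ^ 3) :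
    4 + 4 * d + d ^ 2 + 3 * d ^ 3 = 4 + 4 * c + 2 * c ^ 2 + 2 * c ^ 3 := by
  rw [hd]
  linear_combination (-19838 + 6960 * c - 2391 * c ^ 2 + 918 * c ^ 3 - 243 * c ^ 4 + 81 * c ^ 5) * hc
    + (5700 + 15104 * c + 8994 * c ^ 2 + 8288 * c ^ 3) * h7

lemma quartic_step3 (h7 : (7 : k) = 0) {c d : k}
    (hc : c ^ 4 + 4 * c ^ 3 + 5 * c ^ 2 + 6 * c + 2 = 0)
    (hd : d = 4 + 4 * c + 2 * c ^ 2 + 2 * c ^ 3) :
    4 + 4 * d + d ^ 2 + 3 * d ^ 3 = 2 + 5 * c + 4 * c ^ 2 + 2 * c ^ 3 := by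
  rw [hd]
  linear_combination (-3184 + 1192 * c - 332 * c ^ 2 + 192 * c ^ 3 - 24 * c ^ 4 + 24 * c ^ 5) * hc
    + (942 + 2477 * c + 1476 * c ^ 2 + 1354 * c ^ 3) * h7

lemma quartic_step4 (h7 : (7 : k) = 0) {c d : k}
    (hc : c ^ 4 + 4 * c ^ 3 + 5 * c ^ 2 + 6 * c + 2 = 0)
    (hd : d = 2 + 5 * c + 4 * c ^ 2 + 2 * c ^ 3) :
    4 + 4 * d + d ^ 2 + 3 * d ^ 3 = c := by
  rw [hd]
  linear_combination (-1100 + 438 * c - 20 * c ^ 2 + 156 * c ^ 3 + 48 * c ^ 4 + 24 * c ^ 5) * hc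
    + (320 + 849 * c + 509 * c ^ 2 + 463 * c ^ 3) * h7

lemma nat_pow_seven [CharP k 7] (n : ℕ) : (n : k) ^ 7 = n := by
  have : Fact (Nat.Prime 7) := ⟨by norm_num⟩
  have h1 : (n : k) = ZMod.castHom (dvd_refl 7) k (n : ZMod 7) := by simp
  rw [h1, ← map_pow, ZMod.pow_card]

lemma cubic_frob [CharP k 7] {c : k} (hc : c ^ 3 + 2 * c ^ 2 + 3 * c + 3 = 0) :
    (c ^ 7) ^ 3 + 2 * (c ^ 7) ^ 2 + 3 * c ^ 7 + 3 = 0 := by
  have : Fact (Nat.Prime 7) := ⟨by norm_num⟩
  have h1 : (c ^ 3 + 2 * c ^ 2 + 3 * c + 3) ^ 7 = 0 := by rw [hc]; ring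
  rw [add_pow_char, add_pow_char, add_pow_char, mul_pow, mul_pow] at h1
  have h2 := nat_pow_seven (k := k) 2
  have h3 := nat_pow_seven (k := k) 3
  push_cast at h2 h3
  rw [h2, h3] at h1
  rw [← h1]
  ring

lemma quartic_frob [CharP k 7] {c : k} (hc : c ^ 4 + 4 * c ^ 3 + 5 * c ^ 2 + 6 * c + 2 = 0) :
    (c ^ 7) ^ 4 + 4 * (c ^ 7) ^ 3 + 5 * (c ^ 7) ^ 2 + 6 * c ^ 7 + 2 = 0 := by
  have : Fact (Nat.Prime 7) := ⟨by norm_num⟩
  have h1 : (c ^ 4 + 4 * c ^ 3 + 5 * c ^ 2 + 6 * c + 2) ^ 7 = 0 := by rw [hc]; ring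
  rw [add_pow_char, add_pow_char, add_pow_char, add_pow_char, mul_pow, mul_pow, mul_pow] at h1
  have h2 := nat_pow_seven (k := k) 2
  have h4 := nat_pow_seven (k := k) 4
  have h5 := nat_pow_seven (k := k) 5
  have h6 := nat_pow_seven (k := k) 6
  push_cast at h2 h4 h5 h6
  rw [h2, h4, h5, h6] at h1
  rw [← h1]
  ring

/-- a root of the quartic is fixed by the fourth power of Frobenius -/
lemma quartic_fixed [CharP k 7] {c : k} (hc : c ^ 4 + 4 * c ^ 3 + 5 * c ^ 2 + 6 * c + 2 = 0) :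
    (((c ^ 7) ^ 7) ^ 7) ^ 7 = c := by
  have h7 : (7 : k) = 0 := by exact_mod_cast CharP.cast_eq_zero k 7
  have e1 := quartic_pow h7 hc
  have q1 := quartic_frob hc
  have e2 := quartic_pow h7 q1
  have e2' := e2.trans (quartic_step2 h7 hc e1)
  have q2 := quartic_frob q1
  have e3 := quartic_pow h7 q2
  have e3' := e3.trans (quartic_step3 h7 hc e2')
  have q3 := quartic_frob q2
  have e4 := quartic_pow h7 q3
  exact e4.trans (quartic_step4 h7 hc e3')

/-- a root of the cubic is moved by the fourth power of Frobenius -/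
lemma cubic_moved [CharP k 7] {c : k} (hc : c ^ 3 + 2 * c ^ 2 + 3 * c + 3 = 0) :
    (((c ^ 7) ^ 7) ^ 7) ^ 7 ≠ c := by
  have h7 : (7 : k) = 0 := by exact_mod_cast CharP.cast_eq_zero k 7
  have e1 := cubic_pow h7 hc
  have q1 := cubic_frob hc
  have e2 := cubic_pow h7 q1
  have e2' : (c ^ 7) ^ 7 = 1 + 5 * c + c ^ 2 := by
    rw [e2, e1]; exact cubic_step2 h7 hc
  have q2 := cubic_frob q1
  have e3 := cubic_pow h7 q2
  have e3' : ((c ^ 7) ^ 7) ^ 7 = c := by
    rw [e3, e2']; exact cubic_step3 h7 hc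
  rw [e3']
  intro h
  rw [e1] at h
  have h1 : (1 : k) = 0 := by
    linear_combination (4 + 2 * c) * h + 2 * hc - (3 + 2 * c + 4 * c ^ 2 + 2 * c ^ 3) * h7
  exact one_ne_zero h1

lemma linear_fixed [CharP k 7] {c : k} (hc : c + 2 = 0) :
    (((c ^ 7) ^ 7) ^ 7) ^ 7 = c := by
  have h1 : c ^ 7 = c := by
    have h2 := nat_pow_seven (k := k) 2
    push_cast at h2
    have h3 : c = -2 := by linear_combination hc
    rw [h3]
    linear_combination -h2
  rw [h1, h1, h1, h1]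

lemma factor (h7 : (7 : k) = 0) {c : k} (hc : (c ^ 7 - 2) * (4 * c - 3) - c ^ 4 = 0) :
    (c + 2 = 0 ∨ c ^ 3 + 2 * c ^ 2 + 3 * c + 3 = 0) ∨
      c ^ 4 + 4 * c ^ 3 + 5 * c ^ 2 + 6 * c + 2 = 0 := by
  have h1 : ((c + 2) * (c ^ 3 + 2 * c ^ 2 + 3 * c + 3)) *
      (c ^ 4 + 4 * c ^ 3 + 5 * c ^ 2 + 6 * c + 2) = 0 := by
    have h2 : 4 * (((c + 2) * (c ^ 3 + 2 * c ^ 2 + 3 * c + 3)) *
      (c ^ 4 + 4 * c ^ 3 + 5 * c ^ 2 + 6 * c + 2)) = 0 := by
      linear_combination hc + (6 + 32 * c + 56 * c ^ 2 + 68 * c ^ 3 + 59 * c ^ 4 + 36 * c ^ 5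
        + 16 * c ^ 6 + 5 * c ^ 7) * h7
    linear_combination 2 * h2 - (((c + 2) * (c ^ 3 + 2 * c ^ 2 + 3 * c + 3)) *
      (c ^ 4 + 4 * c ^ 3 + 5 * c ^ 2 + 6 * c + 2)) * h7
  rcases mul_eq_zero.1 h1 with h | h
  · exact Or.inl (mul_eq_zero.1 h)
  · exact Or.inr h

end field

end ThreeCycle

open ThreeCycle FinPlace InfPlace

/-- Job H: for `p = 7`, `e = 4`, `N = 4` the fourth power of a Frobenius at `z = 2` is
a 3-cycle. -/
theorem RootData.isThreeCycle_permOf {L : Type*} [Field L] [DecidableEq L] {z : L}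
    {R : Finset L} (h : RootData 7 4 4 L z R)
    {k : Type*} [Field k] (ι : k →+* L) {Γ : Type*} [LinearOrderedCommGroupWithZero Γ]
    (w : Valuation L Γ) (hw : w (z - 2) < 1) (hι : ∀ c : k, c ≠ 0 → w (ι c) = 1)
    (hres : ∀ x : L, w x ≤ 1 → ∃ c : k, w (x - ι c) < 1)
    (Φ : L ≃+* L) (hΦι : ∀ c : k, Φ (ι c) = ι (c ^ 7))
    (hΦ : ∀ x : L, w x < 1 → w (Φ x) < 1)
    (hΦR : ∀ r ∈ R, Φ r ∈ R) : (permOf R Φ hΦR ^ 4).IsThreeCycle := by
  classical
  have hL7 := h.char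
  have hk7 : CharP k 7 := RingHom.charP ι ι.injective 7
  have h7 : (7 : k) = 0 := by exact_mod_cast CharP.cast_eq_zero k 7
  have h2k : (2 : k) ≠ 0 := by
    intro h2
    have : (1 : k) = 0 := by linear_combination h7 - 3 * h2
    exact one_ne_zero this
  have hιle : ∀ c : k, w (ι c) ≤ 1 := by
    intro c
    by_cases hc : c = 0
    · rw [hc, map_zero, map_zero]; exact zero_le
    · exact (hι c hc).le
  have huniq : ∀ (x : L) (c d : k), w (x - ι c) < 1 → w (x - ι d) < 1 → c = d := by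
    intro x c d hc hd
    by_contra hcd
    have h1 := cong_trans w (cong_symm w hc) hd
    rw [← map_sub, hι _ (sub_ne_zero.2 hcd)] at h1
    exact lt_irrefl _ h1
  have h2L : (2 : L) = ι 2 := by rw [map_ofNat]
  have hwz : w z = 1 := by
    rw [h2L] at hw
    exact eq_one_of_cong w (hι 2 h2k) hw
  -- residues
  have hres' : ∀ r : R, ∃ c : k, w ((r : L) - ι c) < 1 := fun r =>
    hres r (root_le w h hwz.le r.2)
  choose res hresr using hres'
  have hinj : Function.Injective res := by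
    intro r s hrs
    by_contra hne
    have h1 := hresr r
    rw [hrs] at h1
    have h2 := cong_trans w h1 (cong_symm w (hresr s))
    rw [h.sep_of_eq_one w hwz r r.2 s s.2 (fun hc => hne (Subtype.ext hc))] at h2
    exact lt_irrefl _ h2
  -- the equation of the residues
  have heq : ∀ r : R, ((res r) ^ 7 - 2) * (4 * res r - 3) - (res r) ^ 4 = 0 := by
    intro r
    by_contra hne
    have h1 := root_eq h r.2
    have hr1 := root_le w h hwz.le r.2
    have hc := hresr r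
    have hcle := hιle (res r)
    have e1 : w ((r : L) ^ 7 - ι (res r) ^ 7) < 1 := cong_pow w hr1 hcle hc 7
    have e2 : w ((r : L) ^ 4 - ι (res r) ^ 4) < 1 := cong_pow w hr1 hcle hc 4
    have h16 : (2 : L) ^ 4 = 2 := by
      have h7L : (7 : L) = 0 := by exact_mod_cast CharP.cast_eq_zero L 7
      linear_combination 2 * h7L
    have e3 : w (z ^ 4 - 2) < 1 := by
      have := cong_pow w hwz.le (by rw [h2L]; exact hιle 2) hw 4
      rwa [h16] at this
    have e4 : w ((r : L) ^ 7 - z ^ 4 - (ι (res r) ^ 7 - 2)) < 1 := cong_sub w e1 e3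
    have h4L : (4 : L) = ι 4 := by rw [map_ofNat]
    have h3L : (3 : L) = ι 3 := by rw [map_ofNat]
    have e5 : w (4 * (r : L) - 4 * ι (res r)) < 1 := by
      rw [← mul_sub, map_mul]
      calc w 4 * w ((r : L) - ι (res r)) ≤ 1 * w ((r : L) - ι (res r)) :=
            mul_le_mul_left (by rw [h4L]; exact hιle 4) _
        _ = w ((r : L) - ι (res r)) := one_mul _
        _ < 1 := hc
    have e6 : w (4 * (r : L) - 3 - (4 * ι (res r) - 3)) < 1 := by
      have : 4 * (r : L) - 3 - (4 * ι (res r) - 3) = 4 * (r : L) - 4 * ι (res r) := by ring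
      rwa [this]
    have e7 : w (((r : L) ^ 7 - z ^ 4) * (4 * (r : L) - 3) -
        (ι (res r) ^ 7 - 2) * (4 * ι (res r) - 3)) < 1 := by
      refine cong_mul w ?_ ?_ e4 e6
      · refine (w.map_sub _ _).trans (max_le ?_ ?_)
        · rw [map_pow]; exact pow_le_one₀ zero_le hr1
        · rw [map_pow, hwz, one_pow]
      · have : 4 * ι (res r) - 3 = ι (4 * res r - 3) := by
          rw [map_sub, map_mul, map_ofNat, map_ofNat]
        rw [this]; exact hιle _
    have e8 := cong_sub w e7 e2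
    have e9 : ((r : L) ^ 7 - z ^ 4) * (4 * (r : L) - 3) - (r : L) ^ 4 = 0 := by
      push_cast at h1
      linear_combination h1
    rw [e9, zero_sub, Valuation.map_neg] at e8
    have e10 : (ι (res r) ^ 7 - 2) * (4 * ι (res r) - 3) - ι (res r) ^ 4 =
        ι ((res r ^ 7 - 2) * (4 * res r - 3) - res r ^ 4) := by
      simp only [map_sub, map_mul, map_pow, map_ofNat]
    rw [e10, hι _ hne] at e8
    exact lt_irrefl _ e8
  -- the action on residues
  have hact : ∀ r : R, res (permOf R Φ hΦR r) = (res r) ^ 7 := by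
    intro r
    apply huniq (Φ r) _ _ (hresr (permOf R Φ hΦR r))
    have h1 := hΦ _ (hresr r)
    rwa [map_sub, hΦι] at h1
  have hact4 : ∀ r : R, res ((permOf R Φ hΦR ^ 4) r) = (((res r ^ 7) ^ 7) ^ 7) ^ 7 := by
    intro r
    have : (permOf R Φ hΦR ^ 4) r =
        permOf R Φ hΦR (permOf R Φ hΦR (permOf R Φ hΦR (permOf R Φ hΦR r))) := rfl
    rw [this, hact, hact, hact, hact]
  have hfix : ∀ r : R, (permOf R Φ hΦR ^ 4) r = r ↔ (((res r ^ 7) ^ 7) ^ 7) ^ 7 = res r := by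
    intro r
    rw [← hact4]
    exact ⟨fun h => by rw [h], fun h => hinj h⟩
  rw [← card_support_eq_three_iff]
  -- upper bounds for the support and its complement
  obtain ⟨P3, hP3⟩ : ∃ P3 : Polynomial k, P3 =
    Polynomial.X ^ 3 + 2 * Polynomial.X ^ 2 + 3 * Polynomial.X + 3 := ⟨_, rfl⟩
  obtain ⟨P1, hP1⟩ : ∃ P1 : Polynomial k, P1 = Polynomial.X + 2 := ⟨_, rfl⟩
  obtain ⟨P4, hP4⟩ : ∃ P4 : Polynomial k, P4 =
    Polynomial.X ^ 4 + 4 * Polynomial.X ^ 3 + 5 * Polynomial.X ^ 2 + 6 * Polynomial.X + 2 :=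
    ⟨_, rfl⟩
  have m3 : P3.Monic := by rw [hP3]; monicity!
  have m1 : P1.Monic := by rw [hP1]; monicity!
  have m4 : P4.Monic := by rw [hP4]; monicity!
  have d3 : P3.natDegree ≤ 3 := by rw [hP3]; compute_degree
  have d1 : P1.natDegree ≤ 1 := by rw [hP1]; compute_degree
  have d4 : P4.natDegree ≤ 4 := by rw [hP4]; compute_degree
  have d5 : (P1 * P4).natDegree ≤ 5 := by
    refine Polynomial.natDegree_mul_le.trans ?_
    omega
  have m5 : (P1 * P4).Monic := m1.mul m4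
  have hs3 : (permOf R Φ hΦR ^ 4).support.card ≤ 3 := by
    have h1 : (permOf R Φ hΦR ^ 4).support.image res ⊆ P3.roots.toFinset := by
      intro c hc
      rw [Finset.mem_image] at hc
      obtain ⟨r, hr, rfl⟩ := hc
      rw [Equiv.Perm.mem_support, Ne, hfix] at hr
      rw [Multiset.mem_toFinset, Polynomial.mem_roots m3.ne_zero, Polynomial.IsRoot.def, hP3]
      simp only [Polynomial.eval_add, Polynomial.eval_mul, Polynomial.eval_pow,
        Polynomial.eval_X, Polynomial.eval_ofNat]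
      rcases ThreeCycle.factor h7 (heq r) with (h | h) | h
      · exact absurd (linear_fixed h) hr
      · exact h
      · exact absurd (quartic_fixed h) hr
    rw [← Finset.card_image_of_injective _ hinj]
    exact (Finset.card_le_card h1).trans ((Multiset.toFinset_card_le _).trans
      ((Polynomial.card_roots' P3).trans d3))
  have hs5 : ((permOf R Φ hΦR ^ 4).support)ᶜ.card ≤ 5 := by
    have h1 : ((permOf R Φ hΦR ^ 4).support)ᶜ.image res ⊆ (P1 * P4).roots.toFinset := by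
      intro c hc
      rw [Finset.mem_image] at hc
      obtain ⟨r, hr, rfl⟩ := hc
      rw [Finset.mem_compl, Equiv.Perm.mem_support, not_not, hfix] at hr
      rw [Multiset.mem_toFinset, Polynomial.mem_roots m5.ne_zero, Polynomial.IsRoot.def,
        Polynomial.eval_mul, mul_eq_zero, hP1, hP4]
      simp only [Polynomial.eval_add, Polynomial.eval_mul, Polynomial.eval_pow,
        Polynomial.eval_X, Polynomial.eval_ofNat]
      rcases ThreeCycle.factor h7 (heq r) with (h | h) | h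
      · exact Or.inl h
      · exact absurd hr (cubic_moved h)
      · exact Or.inr h
    rw [← Finset.card_image_of_injective _ hinj]
    exact (Finset.card_le_card h1).trans ((Multiset.toFinset_card_le _).trans
      ((Polynomial.card_roots' _).trans d5))
  have h8 : Fintype.card R = 8 := by rw [Fintype.card_coe, h.card]
  have h9 := Finset.card_add_card_compl (permOf R Φ hΦR ^ 4).support
  omega

end Pool.Agent.Lib.MP_2d3c11_ag
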