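import Mathlib
import Pool.Agent.Lib.MP_2d3c11_ag.Main3
import Pool.Agent.Lib.MP_2d3c11_ag.Phi
import Pool.Agent.Lib.MP_2d3c11_ag.Place
import Pool.Agent.Lib.MP_2d3c11_ag.Swap
import Pool.Agent.Lib.MP_2d3c11_ag.ThreeCycle

set_option autoImplicit false
set_option linter.unusedSectionVars false

open Polynomial WithZero

namespace Pool.Agent.Lib.MP_2d3c11_ag

section

variable {k : Type} [Field k] {L : Type} [Field L] [DecidableEq L] [Algebra (RatFunc k) L]
variable {p e N : ℕ} [IsAlgClosed k] [CharP k p]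

/-- Automorphisms of `k[X]` fixing `X ^ N` and the place `z₀` lift to the splitting field and fix a
place over `z₀`. -/
theorem exists_Phi (hp : p.Prime) (he3 : 3 ≤ e) (hep : e < p) (hN : 0 < N)
    [hsp : (Fpoly p e (RatFunc.X ^ N : RatFunc k)).IsSplittingField (RatFunc k) L]
    (z₀ : k) (φ : k[X] ≃+* k[X])
    (hφ₁ : ∀ a : k[X], φ a ∈ Ideal.span {X - C z₀} ↔ a ∈ Ideal.span {X - C z₀})
    (hφ₂ : φ X ^ N = X ^ N) :
    ∃ (w : Valuation L ℤᵐ⁰) (φK : RatFunc k ≃+* RatFunc k) (Φ : L ≃+* L),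
      (∀ c : k, c ≠ 0 → w (algebraMap (RatFunc k) L (algebraMap k (RatFunc k) c)) = 1) ∧
      w (algebraMap (RatFunc k) L RatFunc.X -
        algebraMap (RatFunc k) L (algebraMap k (RatFunc k) z₀)) < 1 ∧
      (∀ x : L, w x ≤ 1 → ∃ c : k,
        w (x - algebraMap (RatFunc k) L (algebraMap k (RatFunc k) c)) < 1) ∧
      (∀ a : RatFunc k, Φ (algebraMap (RatFunc k) L a) = algebraMap (RatFunc k) L (φK a)) ∧
      (∀ a : k[X], φK (algebraMap k[X] (RatFunc k) a) = algebraMap k[X] (RatFunc k) (φ a)) ∧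
      (∀ x : L, w x < 1 → w (Φ x) < 1) ∧
      (∀ r ∈ RL k L p e N, Φ r ∈ RL k L p e N) := by
  have h := rootData_L (k := k) (L := L) hp he3 hep hN
  have hgal := isGalois_L (k := k) (L := L) (p := p) (e := e) (N := N) hp he3 hep
  have hfd : FiniteDimensional (RatFunc k) L := IsSplittingField.finiteDimensional L
    (Fpoly p e (RatFunc.X ^ N : RatFunc k))
  let φK : RatFunc k ≃+* RatFunc k :=
    IsFractionRing.ringEquivOfRingEquiv (K := RatFunc k) (L := RatFunc k) φ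
  have hφK : ∀ a : k[X], φK (algebraMap k[X] (RatFunc k) a) = algebraMap k[X] (RatFunc k) (φ a) :=
    fun a => IsFractionRing.ringEquivOfRingEquiv_algebraMap φ a
  have hφKX : φK RatFunc.X ^ N = RatFunc.X ^ N := by
    rw [← RatFunc.algebraMap_X, hφK, ← map_pow, hφ₂, map_pow]
  obtain ⟨Ψ, hΨ⟩ := exists_extend (L := L) (Fpoly p e (RatFunc.X ^ N : RatFunc k)) φK (by
    rw [Fpoly_map, map_pow]
    exact congrArg _ hφKX)
  obtain ⟨w, hw1, hw2, hw3, hw4⟩ := exists_fin_valuation k L z₀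
  obtain ⟨γ, hγ1, hγ2⟩ := hw4 Ψ φ (fun a => by rw [hΨ, hφK]) hφ₁
  have hΦ : ∀ a : RatFunc k, ((γ : L ≃+* L).trans Ψ) (algebraMap (RatFunc k) L a) =
      algebraMap (RatFunc k) L (φK a) := by
    intro a
    change Ψ (γ (algebraMap (RatFunc k) L a)) = _
    rw [AlgEquiv.commutes, hΨ]
  refine ⟨w, φK, (γ : L ≃+* L).trans Ψ, hw1, hw2, hw3, hΦ, hφK, hγ2, ?_⟩
  apply h.map_mem
  rw [hΦ, ← map_pow, hφKX, map_pow]

/-- The case of odd `e`. -/
theorem range_eq_of_odd (hp : p.Prime) (he3 : 3 ≤ e) (hep : e < p) (hN : 0 < N)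
    (hodd : Odd e) (t : ℕ) (hNt : N = 2 * e * t)
    [hsp : (Fpoly p e (RatFunc.X ^ N : RatFunc k)).IsSplittingField (RatFunc k) L]
    (β : RL k L p e N ≃ Option (ZMod p))
    (hex : ∀ b : ZMod p, ∃ σ : Gal(L/RatFunc k), ∀ r : RL k L p e N,
            β (permHom (k := k) (L := L) hp he3 hep hN σ r) = (β r).map (fun u => u + b)) :
    (permHom (k := k) (L := L) hp he3 hep hN).range = alternatingGroup (RL k L p e N) := by
  have h := rootData_L (k := k) (L := L) hp he3 hep hN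
  have ht : 0 < t := by
    rcases Nat.eq_zero_or_pos t with ht | ht
    · rw [ht] at hNt
      omega
    · exact ht
  obtain ⟨ξ, hξ⟩ := IsAlgClosed.exists_pow_nat_eq (-1 : k) ht
  have hξ0 : ξ ≠ 0 := by
    rintro rfl
    rw [zero_pow ht.ne'] at hξ
    have : (1 : k) = 0 := by linear_combination hξ
    exact one_ne_zero this
  have hξN : ξ ^ N = 1 := by
    rw [hNt, show 2 * e * t = t * (2 * e) by ring, pow_mul, hξ, pow_mul]
    simp
  -- the automorphism `X ↦ ξ X`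
  obtain ⟨φ, hφX, hφC⟩ : ∃ φ : k[X] ≃+* k[X], φ X = C ξ * X ∧ ∀ c : k, φ (C c) = C c := by
    have : Invertible ξ := invertibleOfNonzero hξ0
    refine ⟨(Polynomial.algEquivCMulXAddC ξ 0 : k[X] ≃ₐ[k] k[X]).toRingEquiv, ?_, ?_⟩
    · simp
    · intro c
      simp
  have hφdvd : ∀ a : k[X], φ a ∈ Ideal.span {X - C (0 : k)} ↔ a ∈ Ideal.span {X - C (0 : k)} := by
    intro a
    rw [Ideal.mem_span_singleton, Ideal.mem_span_singleton, C_0, sub_zero]
    constructor
    · rintro ⟨b, hb⟩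
      refine ⟨C ξ⁻¹ * φ.symm b, ?_⟩
      apply φ.injective
      rw [hb, map_mul, map_mul, hφX, hφC, RingEquiv.apply_symm_apply]
      calc X * b = C (ξ * ξ⁻¹) * (X * b) := by rw [mul_inv_cancel₀ hξ0, C_1, one_mul]
        _ = C ξ * X * (C ξ⁻¹ * b) := by rw [C_mul]; ring
    · rintro ⟨b, hb⟩
      refine ⟨C ξ * φ b, ?_⟩
      rw [hb, map_mul, hφX]
      ring
  obtain ⟨w, φK, Φ, hw1, hw2, hw3, hΦ1, hφK, hΦ2, hΦR⟩ := exists_Phi (k := k) (L := L) (p := p)
    (e := e) (N := N) hp he3 hep hN 0 φ hφdvd (by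
      rw [hφX, mul_pow, ← C_pow, hξN, C_1, one_mul])
  have hsw : (permOf _ Φ hΦR).IsSwap := by
    refine h.isSwap_permOf hodd t hNt ((algebraMap (RatFunc k) L).comp (algebraMap k (RatFunc k))) w
      ?_ hw1 hw3 Φ ?_ ξ hξ ?_ hΦ2 hΦR
    · simpa using hw2
    · intro c
      change Φ (algebraMap (RatFunc k) L (algebraMap k (RatFunc k) c)) = _
      rw [hΦ1]
      have : algebraMap k (RatFunc k) c = algebraMap k[X] (RatFunc k) (C c) := by
        rw [RatFunc.algebraMap_eq_C, RatFunc.algebraMap_C]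
      rw [this, hφK, hφC, ← this]
      rfl
    · rw [hΦ1]
      have h1 : φK RatFunc.X = algebraMap k (RatFunc k) ξ * RatFunc.X := by
        rw [← RatFunc.algebraMap_X, hφK, hφX, map_mul]
        rw [RatFunc.algebraMap_eq_C, RatFunc.algebraMap_C]
      rw [h1, map_mul]
      rfl
  apply range_eq_alternatingGroup (k := k) (L := L) hp he3 hep hN
    (by rw [hNt]; exact ⟨e * t, by ring⟩) β hex (permOf _ Φ hΦR) (Or.inl hsw)
  intro σ
  exact conj_mem (k := k) (L := L) hp he3 hep hN φK Φ hΦ1 hΦR σ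

end

section

variable {k : Type} [Field k] {L : Type} [Field L] [DecidableEq L] [Algebra (RatFunc k) L]
variable [IsAlgClosed k] [CharP k 7]

/-- The case `p = 7`, `e = 4`. -/
theorem range_eq_of_seven (hp : Nat.Prime 7) (he3 : 3 ≤ 4) (hep : 4 < 7) (hN : 0 < 4)
    [hsp : (Fpoly 7 4 (RatFunc.X ^ 4 : RatFunc k)).IsSplittingField (RatFunc k) L]
    (β : RL k L 7 4 4 ≃ Option (ZMod 7))
    (hex : ∀ b : ZMod 7, ∃ σ : Gal(L/RatFunc k), ∀ r : RL k L 7 4 4,
            β (permHom (k := k) (L := L) hp he3 hep hN σ r) = (β r).map (fun u => u + b)) :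
    (permHom (k := k) (L := L) hp he3 hep hN).range = alternatingGroup (RL k L 7 4 4) := by
  have h := rootData_L (k := k) (L := L) hp he3 hep hN
  have : Fact (Nat.Prime 7) := ⟨hp⟩
  have : ExpChar k 7 := ExpChar.prime hp
  have h7 : (7 : k) = 0 := by exact_mod_cast CharP.cast_eq_zero k 7
  -- the automorphism: the Frobenius on coefficients
  obtain ⟨φ, hφX, hφC⟩ : ∃ φ : k[X] ≃+* k[X], φ X = X ∧ ∀ c : k, φ (C c) = C (c ^ 7) := by
    refine ⟨Polynomial.mapEquiv (frobeniusEquiv k 7), ?_, ?_⟩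
    · simp
    · intro c
      simp [frobeniusEquiv_apply, frobenius_def]
  have h27 : (2 : k) ^ 7 = 2 := by
    linear_combination 18 * h7
  have hφdvd : ∀ a : k[X], φ a ∈ Ideal.span {X - C (2 : k)} ↔ a ∈ Ideal.span {X - C (2 : k)} := by
    intro a
    rw [Ideal.mem_span_singleton, Ideal.mem_span_singleton]
    have h1 : φ (X - C (2 : k)) = X - C 2 := by
      rw [map_sub, hφX, hφC, h27]
    constructor
    · rintro ⟨b, hb⟩
      refine ⟨φ.symm b, ?_⟩
      apply φ.injective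
      rw [hb, map_mul, h1, RingEquiv.apply_symm_apply]
    · rintro ⟨b, hb⟩
      refine ⟨φ b, ?_⟩
      rw [hb, map_mul, h1]
  obtain ⟨w, φK, Φ, hw1, hw2, hw3, hΦ1, hφK, hΦ2, hΦR⟩ := exists_Phi (k := k) (L := L) (p := 7)
    (e := 4) (N := 4) hp he3 hep hN 2 φ hφdvd (by rw [hφX])
  have hsw : (permOf _ Φ hΦR ^ 4).IsThreeCycle := by
    refine h.isThreeCycle_permOf ((algebraMap (RatFunc k) L).comp (algebraMap k (RatFunc k))) w
      ?_ hw1 hw3 Φ ?_ hΦ2 hΦR
    · rwa [map_ofNat, map_ofNat] at hw2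
    · intro c
      change Φ (algebraMap (RatFunc k) L (algebraMap k (RatFunc k) c)) = _
      rw [hΦ1]
      have : ∀ c, algebraMap k (RatFunc k) c = algebraMap k[X] (RatFunc k) (C c) := by
        intro c
        rw [RatFunc.algebraMap_eq_C, RatFunc.algebraMap_C]
      rw [this, hφK, hφC, ← this]
      rfl
  apply range_eq_alternatingGroup (k := k) (L := L) hp he3 hep hN
    ⟨2, rfl⟩ β hex (permOf _ Φ hΦR ^ 4) (Or.inr hsw)
  have key : ∀ n : ℕ, ∀ σ : Gal(L/RatFunc k), ∃ τ : Gal(L/RatFunc k),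
      permOf _ Φ hΦR ^ n * permHom (k := k) (L := L) hp he3 hep hN σ * (permOf _ Φ hΦR ^ n)⁻¹ =
        permHom (k := k) (L := L) hp he3 hep hN τ := by
    intro n
    induction n with
    | zero => exact fun σ => ⟨σ, by simp⟩
    | succ n ih =>
      intro σ
      obtain ⟨τ, hτ⟩ := ih σ
      obtain ⟨τ', hτ'⟩ := conj_mem (k := k) (L := L) hp he3 hep hN φK Φ hΦ1 hΦR τ
      refine ⟨τ', ?_⟩
      rw [← hτ', ← hτ, pow_succ']
      group
  exact key 4

end

end Pool.Agent.Lib.MP_2d3c11_ag
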