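import Mathlib
import Pool.Agent.Lib.MP_2d3c11_ag.Main4
import Pool.Agent.Lib.MP_2d3c11_ag.GroupI

set_option autoImplicit false
set_option linter.unusedSectionVars false

open Polynomial WithZero

namespace Pool.Agent.Lib.MP_2d3c11_ag

/-- The conclusion of the main theorem, for one subgroup `I`. -/
def Realised (p : ℕ) (k : Type) [Field k] (I : Subgroup (alternatingGroup (Fin (p + 1)))) : Prop :=
    ∃ (L : Type) (_ : Field L) (_ : Algebra (RatFunc k) L),
      FiniteDimensional (RatFunc k) L ∧ IsGalois (RatFunc k) L ∧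
      ∃ φ : (L ≃ₐ[RatFunc k] L) ≃* alternatingGroup (Fin (p + 1)),
        (∀ (Γ : Type) (_ : LinearOrderedCommGroupWithZero Γ) (w : Valuation L Γ),
          (∀ c : k, c ≠ 0 →
            w (algebraMap (RatFunc k) L (algebraMap k (RatFunc k) c)) = 1) →
          w (algebraMap (RatFunc k) L RatFunc.X) ≤ 1 →
          ∀ σ : L ≃ₐ[RatFunc k] L, (∀ a : L, w a ≤ 1 → w (σ a - a) < 1) → σ = 1) ∧
        ∃ (Γ : Type) (_ : LinearOrderedCommGroupWithZero Γ) (w : Valuation L Γ),
          (∀ c : k, c ≠ 0 →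
            w (algebraMap (RatFunc k) L (algebraMap k (RatFunc k) c)) = 1) ∧
          1 < w (algebraMap (RatFunc k) L RatFunc.X) ∧
          ∀ σ : L ≃ₐ[RatFunc k] L,
            (φ σ ∈ I ↔ ∀ a : L, w a ≤ 1 → w (σ a - a) < 1)

section

variable {k : Type} [Field k] {L : Type} [Field L] [DecidableEq L] [Algebra (RatFunc k) L]
variable {p e N : ℕ} [IsAlgClosed k] [CharP k p]

theorem assemble (hp : p.Prime) (he3 : 3 ≤ e) (hep : e < p) (hN : 0 < N)
    (h2 : 2 ∣ N) (he : e ∣ N) (m q : ℕ) (hm : 0 < m) (hq : N * (e - 2) * m = q * (p - 1))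
    (hcop : Nat.Coprime (p * m) q)
    [hsp : (Fpoly p e (RatFunc.X ^ N : RatFunc k)).IsSplittingField (RatFunc k) L]
    (hrange : ∀ β : RL k L p e N ≃ Option (ZMod p),
      (∀ b : ZMod p, ∃ σ : Gal(L/RatFunc k), ∀ r : RL k L p e N,
            β (permHom (k := k) (L := L) hp he3 hep hN σ r) = (β r).map (fun u => u + b)) →
      (permHom (k := k) (L := L) hp he3 hep hN).range = alternatingGroup (RL k L p e N))
    (I : Subgroup (alternatingGroup (Fin (p + 1)))) (βI : Fin (p + 1) ≃ Option (ZMod p))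
    (hI : ∀ σ : alternatingGroup (Fin (p + 1)), σ ∈ I ↔
        ∃ a b : ZMod p, a ^ m = 1 ∧
          ∀ x : Fin (p + 1), βI ((σ : Equiv.Perm (Fin (p + 1))) x) =
            (βI x).map (fun u => a * u + b)) : Realised p k I := by
  have hgal := isGalois_L (k := k) (L := L) (p := p) (e := e) (N := N) hp he3 hep
  have hfd : FiniteDimensional (RatFunc k) L := IsSplittingField.finiteDimensional L
    (Fpoly p e (RatFunc.X ^ N : RatFunc k))
  obtain ⟨w, hw1, hw2, β, hβ1, hβ2⟩ := inf_structure (k := k) (L := L) hp he3 hep hN m q hm hq hcop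
  have hr := hrange β (fun b => by
    obtain ⟨σ, hσ⟩ := hβ2 1 b (one_pow m)
    refine ⟨σ, fun r => ?_⟩
    rw [hσ]
    simp only [one_mul])
  let ε : RL k L p e N ≃ Fin (p + 1) := β.trans βI.symm
  have hsign : ∀ σ : Gal(L/RatFunc k),
      ε.permCongrHom (permHom (k := k) (L := L) hp he3 hep hN σ) ∈
        alternatingGroup (Fin (p + 1)) := by
    intro σ
    rw [Equiv.Perm.mem_alternatingGroup, Equiv.permCongrHom_coe, Equiv.Perm.sign_permCongr]
    exact sign_permHom (k := k) (L := L) hp he3 hep hN (even_iff_two_dvd.2 h2) σ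
  let φ₀ : Gal(L/RatFunc k) →* alternatingGroup (Fin (p + 1)) :=
    MonoidHom.codRestrict ((ε.permCongrHom : _ →* _).comp
      (permHom (k := k) (L := L) hp he3 hep hN)) (alternatingGroup (Fin (p + 1))) hsign
  have hφ₀ : ∀ σ, (φ₀ σ : Equiv.Perm (Fin (p + 1))) =
      ε.permCongr (permHom (k := k) (L := L) hp he3 hep hN σ) := fun σ => rfl
  have hbij : Function.Bijective φ₀ := by
    constructor
    · intro σ τ hστ
      apply permHom_injective (k := k) (L := L) hp he3 hep hN
      apply ε.permCongr.injective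
      rw [← hφ₀, ← hφ₀, hστ]
    · intro π
      have h1 : ε.permCongr.symm (π : Equiv.Perm (Fin (p + 1))) ∈
          alternatingGroup (RL k L p e N) := by
        rw [Equiv.Perm.mem_alternatingGroup]
        have h2 := Equiv.Perm.sign_permCongr ε (ε.permCongr.symm (π : Equiv.Perm (Fin (p + 1))))
        rw [Equiv.apply_symm_apply] at h2
        rw [← h2]
        exact Equiv.Perm.mem_alternatingGroup.1 π.2
      rw [← hr] at h1
      obtain ⟨σ, hσ⟩ := h1
      refine ⟨σ, ?_⟩
      apply Subtype.ext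
      rw [hφ₀, hσ, Equiv.apply_symm_apply]
  refine ⟨L, inferInstance, inferInstance, hfd, hgal, MulEquiv.ofBijective φ₀ hbij, ?_,
    ℤᵐ⁰, inferInstance, w, hw1, hw2, ?_⟩
  · intro Γ _ v _ hv σ hσ
    exact fin_inertia (k := k) (L := L) hp he3 hep hN h2 he v hv σ hσ
  · intro σ
    rw [hβ1, MulEquiv.ofBijective_apply, hI]
    constructor
    · rintro ⟨a, b, ha, hab⟩
      refine ⟨a, b, ha, fun r => ?_⟩
      have h1 := hab (ε r)
      rw [hφ₀, Equiv.permCongr_apply, Equiv.symm_apply_apply] at h1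
      simpa [ε] using h1
    · rintro ⟨a, b, ha, hab⟩
      refine ⟨a, b, ha, fun x => ?_⟩
      have h1 := hab (ε.symm x)
      rw [hφ₀, Equiv.permCongr_apply]
      simpa [ε] using h1

end

section

variable {p : ℕ} {k : Type} [Field k] [IsAlgClosed k] [CharP k p]

/-- The case of odd `e`. -/
theorem realised_of_odd (hp : p.Prime) (e t m q : ℕ) (he3 : 3 ≤ e) (hep : e < p) (hodd : Odd e)
    (ht : 0 < t) (hm : 0 < m) (hq : (2 * e * t) * (e - 2) * m = q * (p - 1))
    (hcop : Nat.Coprime (p * m) q)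
    (I : Subgroup (alternatingGroup (Fin (p + 1)))) (βI : Fin (p + 1) ≃ Option (ZMod p))
    (hI : ∀ σ : alternatingGroup (Fin (p + 1)), σ ∈ I ↔
        ∃ a b : ZMod p, a ^ m = 1 ∧
          ∀ x : Fin (p + 1), βI ((σ : Equiv.Perm (Fin (p + 1))) x) =
            (βI x).map (fun u => a * u + b)) : Realised p k I := by
  classical
  have hN : 0 < 2 * e * t := by positivity
  exact assemble (k := k) (L := (Fpoly p e (RatFunc.X ^ (2 * e * t) : RatFunc k)).SplittingField)
    hp he3 hep hN ⟨e * t, by ring⟩ ⟨2 * t, by ring⟩ m q hm hq hcop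
    (fun β hβ => range_eq_of_odd hp he3 hep hN hodd t rfl β hβ) I βI hI

theorem realised_of_seven (k : Type) [Field k] [IsAlgClosed k] [CharP k 7]
    (I : Subgroup (alternatingGroup (Fin (7 + 1)))) (βI : Fin (7 + 1) ≃ Option (ZMod 7))
    (hI : ∀ σ : alternatingGroup (Fin (7 + 1)), σ ∈ I ↔
        ∃ a b : ZMod 7, a ^ 3 = 1 ∧
          ∀ x : Fin (7 + 1), βI ((σ : Equiv.Perm (Fin (7 + 1))) x) =
            (βI x).map (fun u => a * u + b)) : Realised 7 k I := by
  classical
  have hp : Nat.Prime 7 := by norm_num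
  exact assemble (k := k) (L := (Fpoly 7 4 (RatFunc.X ^ 4 : RatFunc k)).SplittingField)
    hp (by norm_num) (by norm_num) (by norm_num) (by norm_num) (by norm_num) 3 4 (by norm_num)
    (by norm_num) (by norm_num)
    (fun β hβ => range_eq_of_seven hp (by norm_num) (by norm_num) (by norm_num) β hβ) I βI hI

/-- Everything but the group theory of `I`. -/
theorem realised (hp : p.Prime) (hp5 : 5 ≤ p) (m : ℕ) (hm : m ∣ (p - 1) / 2)
    (I : Subgroup (alternatingGroup (Fin (p + 1)))) (βI : Fin (p + 1) ≃ Option (ZMod p))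
    (hI : ∀ σ : alternatingGroup (Fin (p + 1)), σ ∈ I ↔
        ∃ a b : ZMod p, a ^ m = 1 ∧
          ∀ x : Fin (p + 1), βI ((σ : Equiv.Perm (Fin (p + 1))) x) =
            (βI x).map (fun u => a * u + b)) : Realised p k I := by
  have hodd : p % 2 = 1 := by
    rcases hp.eq_two_or_odd with h | h
    · omega
    · exact h
  obtain ⟨t, ht⟩ := hm
  have hpt : p = 2 * (m * t) + 1 := by omega
  have hm0 : 0 < m := by
    rcases Nat.eq_zero_or_pos m with h | h
    · rw [h] at hpt; omega
    · exact h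
  have ht0 : 0 < t := by
    rcases Nat.eq_zero_or_pos t with h | h
    · rw [h] at hpt; omega
    · exact h
  -- the odd choice
  have key : ∀ e : ℕ, 3 ≤ e → e < p → Odd e → Nat.Coprime m e → Nat.Coprime m (e - 2) →
      Realised p k I := by
    intro e he3 hep heodd hc1 hc2
    refine realised_of_odd hp e t m (e * (e - 2)) he3 hep heodd ht0 hm0 ?_ ?_ I βI hI
    · rw [show p - 1 = 2 * (m * t) by omega]
      ring
    · apply Nat.Coprime.mul_left
      · apply Nat.Coprime.mul_right
        · exact Nat.coprime_of_lt_prime (by omega) hep hp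
        · exact Nat.coprime_of_lt_prime (by omega) (by omega) hp
      · exact Nat.Coprime.mul_right hc1 hc2
  have h4 : p % 4 = 1 ∨ p % 4 = 3 := by omega
  rcases h4 with h4 | h4
  · -- `e = (p + 1) / 2`
    refine key (m * t + 1) (by omega) (by omega) ?_ ?_ ?_
    · rw [Nat.odd_iff]
      omega
    · rw [Nat.coprime_mul_left_add_right]
      exact Nat.coprime_one_right m
    · have h5 : (m * t + 1 - 2) + 1 = m * t := by omega
      have h6 : Nat.Coprime (m * t) (m * t + 1 - 2) := by
        nth_rewrite 1 [← h5]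
        rw [Nat.coprime_self_add_left]
        exact Nat.coprime_one_left _
      exact Nat.Coprime.coprime_dvd_left ⟨t, rfl⟩ h6
  · have hmt : (m * t) % 2 = 1 := by omega
    have hmodd : Odd m := by
      have h5 : Odd (m * t) := Nat.odd_iff.2 hmt
      exact (Nat.odd_mul.1 h5).1
    have hm2 : Nat.Coprime m 2 := (Nat.coprime_two_right).2 hmodd
    by_cases h11 : 11 ≤ p
    · refine key (m * t + 4) (by omega) (by omega) ?_ ?_ ?_
      · rw [Nat.odd_iff]
        omega
      · rw [Nat.coprime_mul_left_add_right]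
        exact Nat.Coprime.mul_right hm2 hm2
      · rw [show m * t + 4 - 2 = m * t + 2 by omega, Nat.coprime_mul_left_add_right]
        exact hm2
    · have hp7 : p = 7 := by omega
      subst hp7
      have hmt3 : m * t = 3 := by omega
      have hm13 : m = 1 ∨ m = 3 := (Nat.dvd_prime (by norm_num)).1 ⟨t, hmt3.symm⟩
      rcases hm13 with rfl | rfl
      · have ht3 : t = 3 := by omega
        subst ht3
        exact realised_of_odd (k := k) hp 3 3 1 3 (by norm_num) (by norm_num) ⟨1, by norm_num⟩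
          (by norm_num) (by norm_num) (by norm_num) (by norm_num) I βI hI
      · exact realised_of_seven k I βI hI

end

end Pool.Agent.Lib.MP_2d3c11_ag
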